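import Mathlib

set_option autoImplicit false

namespace Pool.Agent.Lib.MP_ae5681_co

open Finset

/-- A finite tree has a numbering in which every vertex but the first has one earlier neighbour. -/
lemma exists_numbering {W : Type*} [Fintype W] (T : SimpleGraph W) (hT : T.IsTree) :
    ∃ (pos : W → ℕ) (par : ℕ → ℕ), (∀ w, pos w ≤ T.edgeSet.ncard) ∧ Function.Injective pos ∧
      (∀ i ≤ T.edgeSet.ncard, ∃ w, pos w = i) ∧ (∀ c, 1 ≤ c → par c < c) ∧
      ∀ u v, T.Adj u v ↔ (1 ≤ pos v ∧ par (pos v) = pos u) ∨ (1 ≤ pos u ∧ par (pos u) = pos v) := by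
  classical
  have hcard : T.edgeSet.ncard + 1 = Fintype.card W := by
    rw [← hT.card_edgeFinset, ← SimpleGraph.coe_edgeFinset, Set.ncard_coe_finset]
  obtain ⟨r⟩ := hT.connected.nonempty
  have hp : ∀ v, ∃ u, v ≠ r → T.Adj u v ∧ T.dist u r < T.dist v r := by
    intro v
    by_cases hv : v = r
    · exact ⟨r, fun h => absurd hv h⟩
    obtain ⟨p, hp⟩ := hT.connected.exists_walk_length_eq_dist v r
    cases p with
    | nil => exact absurd rfl hv
    | cons h q =>
      refine ⟨_, fun _ => ⟨h.symm, ?_⟩⟩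
      have := SimpleGraph.dist_le q
      rw [SimpleGraph.Walk.length_cons] at hp
      omega
  choose p hp using hp
  set enc := Fintype.equivFin W
  set key : W → ℕ := fun w => T.dist w r * Fintype.card W + enc w with hkey
  have hkey1 : ∀ u v, T.dist u r < T.dist v r → key u < key v := by
    intro u v h
    have h1 := (enc u).2
    have h2 : (T.dist u r + 1) * Fintype.card W ≤ T.dist v r * Fintype.card W :=
      Nat.mul_le_mul_right _ h
    simp only [hkey]
    rw [add_mul] at h2
    omega
  have hkey2 : Function.Injective key := by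
    intro u v h
    rcases lt_trichotomy (T.dist u r) (T.dist v r) with h1 | h1 | h1
    · exact absurd h (hkey1 u v h1).ne
    · simp only [hkey, h1] at h
      exact enc.injective (Fin.ext (by omega))
    · exact absurd h.symm (hkey1 v u h1).ne
  set pos : W → ℕ := fun w => (Finset.univ.filter (fun w' => key w' < key w)).card with hpos
  have hpos1 : ∀ u v, key u < key v → pos u < pos v := by
    intro u v h
    apply Finset.card_lt_card
    refine ⟨fun w hw => Finset.mem_filter.2 ⟨Finset.mem_univ _,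
      (Finset.mem_filter.1 hw).2.trans h⟩, fun h1 => ?_⟩
    have := h1 (Finset.mem_filter.2 ⟨Finset.mem_univ u, h⟩)
    simp at this
  have hpos2 : Function.Injective pos := by
    intro u v h
    rcases lt_trichotomy (key u) (key v) with h1 | h1 | h1
    · exact absurd h (hpos1 u v h1).ne
    · exact hkey2 h1
    · exact absurd h.symm (hpos1 v u h1).ne
  have hpos3 : ∀ w, pos w ≤ T.edgeSet.ncard := by
    intro w
    have : pos w < Fintype.card W := by
      apply Finset.card_lt_card
      refine ⟨Finset.subset_univ _, fun h1 => ?_⟩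
      have := h1 (Finset.mem_univ w)
      simp at this
    omega
  have hpos4 : ∀ i ≤ T.edgeSet.ncard, ∃ w, pos w = i := by
    intro i hi
    have h1 : Finset.univ.image pos = Finset.range (T.edgeSet.ncard + 1) := by
      apply Finset.eq_of_subset_of_card_le
      · intro j hj
        obtain ⟨w, -, rfl⟩ := Finset.mem_image.1 hj
        exact Finset.mem_range.2 (Nat.lt_succ_of_le (hpos3 w))
      · rw [Finset.card_image_of_injective _ hpos2, Finset.card_range, hcard, Finset.card_univ]
    have h2 : i ∈ Finset.univ.image pos := by rw [h1]; exact Finset.mem_range.2 (by omega)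
    obtain ⟨w, -, hw⟩ := Finset.mem_image.1 h2
    exact ⟨w, hw⟩
  have hpp : ∀ v, v ≠ r → pos (p v) < pos v := fun v hv => hpos1 _ _ (hkey1 _ _ (hp v hv).2)
  have hr : pos r = 0 := by
    obtain ⟨w, hw⟩ := hpos4 0 (Nat.zero_le _)
    by_cases h : w = r
    · rw [← h, hw]
    · have := hpp w h
      omega
  have hpar : ∀ c, ∃ c', (1 ≤ c → c' < c) ∧ ∀ v, v ≠ r → pos v = c → c' = pos (p v) := by
    intro c
    by_cases h : ∃ v, v ≠ r ∧ pos v = c
    · obtain ⟨v, h1, rfl⟩ := h
      exact ⟨pos (p v), fun _ => hpp v h1, fun v' _ h2 => by rw [hpos2 h2]⟩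
    · exact ⟨0, fun h1 => h1, fun v h1 h2 => absurd ⟨v, h1, h2⟩ h⟩
  choose par hpar1 hpar2 using hpar
  have hiff : ∀ u v, (1 ≤ pos v ∧ par (pos v) = pos u) ↔ (v ≠ r ∧ p v = u) := by
    intro u v
    constructor
    · rintro ⟨h1, h2⟩
      have h3 : v ≠ r := by rintro rfl; omega
      exact ⟨h3, hpos2 ((hpar2 _ v h3 rfl).symm.trans h2)⟩
    · rintro ⟨h1, rfl⟩
      have := hpp v h1
      exact ⟨by omega, hpar2 _ v h1 rfl⟩
  have himg : (Finset.univ.erase r).image (fun v => s(p v, v)) = T.edgeFinset := by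
    apply Finset.eq_of_subset_of_card_le
    · intro e he
      obtain ⟨v, hv, rfl⟩ := Finset.mem_image.1 he
      exact SimpleGraph.mem_edgeFinset.2 (hp v (Finset.ne_of_mem_erase hv)).1
    · rw [Finset.card_image_of_injOn, Finset.card_erase_of_mem (Finset.mem_univ r),
        Finset.card_univ, ← hT.card_edgeFinset]
      · omega
      · intro v hv w hw h
        rcases Sym2.eq_iff.1 h with h1 | ⟨h1, h2⟩
        · exact h1.2
        · have a1 := hpp v (Finset.ne_of_mem_erase hv)
          have a2 := hpp w (Finset.ne_of_mem_erase hw)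
          rw [h1] at a1
          rw [← h2] at a2
          omega
  refine ⟨pos, par, hpos3, hpos2, hpos4, hpar1, fun u v => ?_⟩
  rw [hiff, hiff]
  constructor
  · intro h
    have h1 : s(u, v) ∈ T.edgeFinset := SimpleGraph.mem_edgeFinset.2 h
    rw [← himg] at h1
    obtain ⟨w, hw, h2⟩ := Finset.mem_image.1 h1
    have h3 := Finset.ne_of_mem_erase hw
    rcases Sym2.eq_iff.1 h2 with ⟨h4, rfl⟩ | ⟨h4, rfl⟩
    · exact Or.inl ⟨h3, h4⟩
    · exact Or.inr ⟨h3, h4⟩
  · rintro (⟨h1, rfl⟩ | ⟨h1, rfl⟩)
    · exact (hp v h1).1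
    · exact (hp u h1).1.symm

end Pool.Agent.Lib.MP_ae5681_co
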