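import Pool.Agent.Lib.MP_ae5681_co.Orient4

set_option autoImplicit false

namespace Pool.Agent.Lib.MP_ae5681_co

open Finset

/-- Rado's reduction for an antitone supermodular set function. -/
lemma rado {E I : Type*} [DecidableEq E] [DecidableEq I] (c : Finset E → ℕ)
    (hanti : ∀ S T, S ⊆ T → c T ≤ c S) (hsup : ∀ S T, c S + c T ≤ c (S ∪ T) + c (S ∩ T))
    (I0 : Finset I) (c0 : ℕ) (n : ℕ) :
    ∀ A : I → Finset E, ∑ i ∈ I0, (A i).card ≤ n →
      (∀ J ⊆ I0, c (J.biUnion A) ≤ c0 + (I0 \ J).card) →
      ∃ A' : I → Finset E, (∀ i ∈ I0, A' i ⊆ A i ∧ (A' i).card ≤ 1) ∧ c (I0.biUnion A') ≤ c0 := by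
  induction n with
  | zero =>
    intro A hA h
    refine ⟨A, fun i hi => ⟨Finset.Subset.refl _, ?_⟩, by simpa using h I0 (Finset.Subset.refl _)⟩
    have := Finset.single_le_sum (f := fun i => (A i).card) (fun _ _ => Nat.zero_le _) hi
    omega
  | succ n ih =>
    intro A hA h
    by_cases h1 : ∀ i ∈ I0, (A i).card ≤ 1
    · exact ⟨A, fun i hi => ⟨Finset.Subset.refl _, h1 i hi⟩,
        by simpa using h I0 (Finset.Subset.refl _)⟩
    push Not at h1
    obtain ⟨i, hi, h2⟩ := h1
    obtain ⟨x, hx, y, hy, hxy⟩ := Finset.one_lt_card.1 h2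
    have hred : ∀ z ∈ A i, (∀ J ⊆ I0, c (J.biUnion (Function.update A i ((A i).erase z))) ≤
        c0 + (I0 \ J).card) → ∃ A' : I → Finset E, (∀ i ∈ I0, A' i ⊆ A i ∧ (A' i).card ≤ 1) ∧
          c (I0.biUnion A') ≤ c0 := by
      intro z hz h3
      obtain ⟨A', h4, h5⟩ := ih (Function.update A i ((A i).erase z)) (by
        rw [← Finset.add_sum_erase _ _ hi] at hA ⊢
        rw [Function.update_self, Finset.card_erase_of_mem hz,
          Finset.sum_congr rfl (g := fun j => (A j).card) (fun j hj => by
            rw [Function.update_of_ne (Finset.ne_of_mem_erase hj)])]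
        omega) h3
      refine ⟨A', fun j hj => ⟨(h4 j hj).1.trans ?_, (h4 j hj).2⟩, h5⟩
      by_cases hji : j = i
      · subst hji; rw [Function.update_self]; exact Finset.erase_subset _ _
      · rw [Function.update_of_ne hji]
    by_contra hcon
    have hx' := mt (hred x hx) hcon
    have hy' := mt (hred y hy) hcon
    push Not at hx' hy'
    obtain ⟨J1, hJ1, h3⟩ := hx'
    obtain ⟨J2, hJ2, h4⟩ := hy'
    have hin : ∀ (z : E) (J : Finset I), J ⊆ I0 →
        c0 + (I0 \ J).card < c (J.biUnion (Function.update A i ((A i).erase z))) → i ∈ J := by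
      intro z J hJ h5
      by_contra h6
      have : J.biUnion (Function.update A i ((A i).erase z)) = J.biUnion A := by
        apply Finset.biUnion_congr rfl
        intro j hj
        rw [Function.update_of_ne (fun h : j = i => h6 (h ▸ hj))]
      rw [this] at h5
      have := h J hJ
      omega
    have hi1 := hin x J1 hJ1 h3
    have hi2 := hin y J2 hJ2 h4
    set S1 := J1.biUnion (Function.update A i ((A i).erase x))
    set S2 := J2.biUnion (Function.update A i ((A i).erase y))
    have h5 : (J1 ∪ J2).biUnion A ⊆ S1 ∪ S2 := by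
      intro e he
      obtain ⟨j, hj, hej⟩ := Finset.mem_biUnion.1 he
      by_cases hji : j = i
      · subst hji
        by_cases hex : e = x
        · apply Finset.mem_union_right
          exact Finset.mem_biUnion.2 ⟨j, hi2, by
            rw [Function.update_self]; exact Finset.mem_erase.2 ⟨hex ▸ hxy, hej⟩⟩
        · apply Finset.mem_union_left
          exact Finset.mem_biUnion.2 ⟨j, hi1, by
            rw [Function.update_self]; exact Finset.mem_erase.2 ⟨hex, hej⟩⟩
      · rcases Finset.mem_union.1 hj with hj | hj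
        · apply Finset.mem_union_left
          exact Finset.mem_biUnion.2 ⟨j, hj, by rw [Function.update_of_ne hji]; exact hej⟩
        · apply Finset.mem_union_right
          exact Finset.mem_biUnion.2 ⟨j, hj, by rw [Function.update_of_ne hji]; exact hej⟩
    have h6 : ((J1 ∩ J2).erase i).biUnion A ⊆ S1 ∩ S2 := by
      intro e he
      obtain ⟨j, hj, hej⟩ := Finset.mem_biUnion.1 he
      obtain ⟨hji, hj⟩ := Finset.mem_erase.1 hj
      obtain ⟨hj1, hj2⟩ := Finset.mem_inter.1 hj
      exact Finset.mem_inter.2
        ⟨Finset.mem_biUnion.2 ⟨j, hj1, by rw [Function.update_of_ne hji]; exact hej⟩,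
          Finset.mem_biUnion.2 ⟨j, hj2, by rw [Function.update_of_ne hji]; exact hej⟩⟩
    have h7 := hanti _ _ h5
    have h8 := hanti _ _ h6
    have h9 := hsup S1 S2
    have h10 := h (J1 ∪ J2) (Finset.union_subset hJ1 hJ2)
    have h11 := h ((J1 ∩ J2).erase i)
      ((Finset.erase_subset _ _).trans (Finset.inter_subset_left.trans hJ1))
    have e1 := Finset.card_sdiff_add_card_eq_card hJ1
    have e2 := Finset.card_sdiff_add_card_eq_card hJ2
    have e3 := Finset.card_sdiff_add_card_eq_card (Finset.union_subset hJ1 hJ2)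
    have e4 := Finset.card_sdiff_add_card_eq_card
      ((Finset.erase_subset i _).trans (Finset.inter_subset_left.trans hJ1) :
        (J1 ∩ J2).erase i ⊆ I0)
    have e5 := Finset.card_union_add_card_inter J1 J2
    have e6 := Finset.card_erase_add_one (Finset.mem_inter.2 ⟨hi1, hi2⟩)
    omega

variable {V ι : Type*} [Fintype V] [DecidableEq V] [DecidableEq ι]

/-- Every nontrivial vertex set is crossed by an edge of `F`. -/
def Conn (F : Finset ι) (s t : ι → V) : Prop :=
  ∀ A : Finset V, A.Nonempty → A ≠ Finset.univ → ∃ e ∈ F, ¬ (s e ∈ A ↔ t e ∈ A)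

/-- Functions on the vertices that agree at the two ends of each edge satisfying `P`. -/
def Zs (s t : ι → V) (P : ι → Prop) : Submodule ℚ (V → ℚ) where
  carrier := {x | ∀ e, P e → x (s e) = x (t e)}
  add_mem' := fun {x y} hx hy e he => by simp [hx e he, hy e he]
  zero_mem' := fun e _ => rfl
  smul_mem' := fun c x hx e he => by simp [hx e he]

omit [DecidableEq ι] in
lemma dim_bound {F : Finset ι} {s t : ι → V} {K : ℕ}
    (hcut : ∀ A : Finset V, A.Nonempty → A ≠ Finset.univ → K ≤ cutN F s t A)
    (P : ι → Prop) [DecidablePred P] :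
    Module.finrank ℚ (Zs s t P) ≤ 1 ∨
      K * Module.finrank ℚ (Zs s t P) ≤ 2 * (F.filter (fun e => ¬ P e)).card := by
  classical
  set π : V → (Zs s t P → ℚ) := fun v x => x.1 v with hπ
  set Q := Finset.univ.image π with hQ
  have h1 : Module.finrank ℚ (Zs s t P) ≤ Q.card := by
    let L : Zs s t P →ₗ[ℚ] (Q → ℚ) :=
      { toFun := fun x q => q.1 x
        map_add' := fun x y => by
          funext q
          obtain ⟨q, hq⟩ := q
          obtain ⟨v, -, rfl⟩ := Finset.mem_image.1 hq
          simp [hπ]
        map_smul' := fun c x => by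
          funext q
          obtain ⟨q, hq⟩ := q
          obtain ⟨v, -, rfl⟩ := Finset.mem_image.1 hq
          simp [hπ] }
    have hL : Function.Injective L := by
      intro x y hxy
      apply Subtype.ext
      funext v
      exact congrFun hxy ⟨π v, Finset.mem_image_of_mem _ (Finset.mem_univ v)⟩
    have := LinearMap.finrank_le_finrank_of_injective hL
    simpa using this
  by_cases h2 : Q.card ≤ 1
  · left; omega
  right
  set F' := F.filter (fun e => ¬ P e) with hF'
  have h3 : ∀ q ∈ Q, K ≤ (F'.filter (fun e => π (s e) = q)).card +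
      (F'.filter (fun e => π (t e) = q)).card := by
    intro q hq
    obtain ⟨v, -, rfl⟩ := Finset.mem_image.1 hq
    have h4 := hcut (Finset.univ.filter (fun w => π w = π v)) ⟨v, by simp⟩ (by
      intro h5
      apply h2
      apply Finset.card_le_one.2
      intro q1 hq1 q2 hq2
      obtain ⟨w1, -, rfl⟩ := Finset.mem_image.1 hq1
      obtain ⟨w2, -, rfl⟩ := Finset.mem_image.1 hq2
      have a1 : w1 ∈ Finset.univ.filter (fun w => π w = π v) := by rw [h5]; simp
      have a2 : w2 ∈ Finset.univ.filter (fun w => π w = π v) := by rw [h5]; simp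
      rw [(Finset.mem_filter.1 a1).2, (Finset.mem_filter.1 a2).2])
    refine h4.trans (le_trans (Finset.card_le_card ?_) (Finset.card_union_le _ _))
    intro e he
    obtain ⟨he1, he2⟩ := Finset.mem_filter.1 he
    simp only [Finset.mem_filter, Finset.mem_univ, true_and] at he2
    have h5 : e ∈ F' := by
      refine Finset.mem_filter.2 ⟨he1, fun hP => he2 ?_⟩
      have : π (s e) = π (t e) := by
        funext x
        exact x.2 e hP
      rw [this]
    by_cases h6 : π (s e) = π v
    · exact Finset.mem_union_left _ (Finset.mem_filter.2 ⟨h5, h6⟩)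
    · refine Finset.mem_union_right _ (Finset.mem_filter.2 ⟨h5, ?_⟩)
      by_contra h7
      exact he2 ⟨fun h => absurd h h6, fun h => absurd h h7⟩
  have h4 := Finset.sum_le_sum h3
  rw [Finset.sum_add_distrib, ← Finset.card_eq_sum_card_fiberwise (f := fun e => π (s e))
      (fun e _ => Finset.mem_coe.2 (Finset.mem_image_of_mem _ (Finset.mem_univ _))),
    ← Finset.card_eq_sum_card_fiberwise (f := fun e => π (t e))
      (fun e _ => Finset.mem_coe.2 (Finset.mem_image_of_mem _ (Finset.mem_univ _))),
    Finset.sum_const, smul_eq_mul] at h4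
  calc K * Module.finrank ℚ (Zs s t P) ≤ K * Q.card := Nat.mul_le_mul_left _ h1
    _ = Q.card * K := mul_comm _ _
    _ ≤ 2 * F'.card := by omega

omit [DecidableEq ι] [DecidableEq V] in
lemma one_le_dim [Nonempty V] (s t : ι → V) (P : ι → Prop) : 1 ≤ Module.finrank ℚ (Zs s t P) := by
  have h1 : (Submodule.span ℚ {(fun _ => 1 : V → ℚ)}) ≤ Zs s t P := by
    rw [Submodule.span_singleton_le_iff_mem]
    intro e _
    rfl
  have h2 := Submodule.finrank_mono h1
  rwa [finrank_span_singleton (by
    intro h
    have := congrFun h (Classical.arbitrary V)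
    simp at this)] at h2

omit [DecidableEq ι] in
lemma two_le_dim (s t : ι → V) (P : ι → Prop) {A : Finset V} (h1 : A.Nonempty)
    (h2 : A ≠ Finset.univ) (h : ∀ e, P e → (s e ∈ A ↔ t e ∈ A)) :
    2 ≤ Module.finrank ℚ (Zs s t P) := by
  obtain ⟨v, hv⟩ := h1
  obtain ⟨w, hw⟩ : ∃ w, w ∉ A := by
    by_contra h3
    push Not at h3
    exact h2 (Finset.eq_univ_of_forall h3)
  have h3 : (Submodule.span ℚ {(fun _ => 1 : V → ℚ)}) < Zs s t P := by
    rw [SetLike.lt_iff_le_and_exists]
    refine ⟨?_, fun z => if z ∈ A then 1 else 0, ?_, ?_⟩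
    · rw [Submodule.span_singleton_le_iff_mem]
      intro e _
      rfl
    · intro e he
      simp only [h e he]
    · intro h4
      obtain ⟨c, hc⟩ := Submodule.mem_span_singleton.1 h4
      have a1 := congrFun hc v
      have a2 := congrFun hc w
      simp [hv, hw] at a1 a2
      rw [a1] at a2
      exact one_ne_zero a2
  have h4 := Submodule.finrank_lt_finrank_of_lt h3
  rwa [finrank_span_singleton (by
    intro h
    have := congrFun h v
    simp at this)] at h4

/-- Packing connected spanning edge sets that use at most one edge of each group. -/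
theorem pack {Γ J : Type*} [DecidableEq Γ] [Fintype J] [DecidableEq J] (F : Finset ι)
    (s t : ι → V) (γ : ι → Γ) (M : ℕ) (hM : 0 < M)
    (hγ : ∀ g, (F.filter (fun e => γ e = g)).card ≤ M)
    (hcut : ∀ A : Finset V, A.Nonempty → A ≠ Finset.univ →
      2 * Fintype.card J * M ≤ cutN F s t A) :
    ∃ R : J → Finset ι, (∀ j, R j ⊆ F ∧ Conn (R j) s t) ∧
      ∀ j j' e e', e ∈ R j → e' ∈ R j' → γ e = γ e' → e = e' ∧ j = j' := by
  classical
  set c : Finset (ι × J) → ℕ := fun S => ∑ j, Module.finrank ℚ (Zs s t (fun e => (e, j) ∈ S))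
    with hc
  have hmono : ∀ P P' : ι → Prop, (∀ e, P e → P' e) → Zs s t P' ≤ Zs s t P :=
    fun P P' h x hx e he => hx e (h e he)
  obtain ⟨A', h1, h2⟩ := rado c (fun S T hST => Finset.sum_le_sum fun j _ =>
      Submodule.finrank_mono (hmono _ _ fun e he => hST he))
    (fun S T => by
      simp only [hc]
      rw [← Finset.sum_add_distrib, ← Finset.sum_add_distrib]
      apply Finset.sum_le_sum
      intro j _
      rw [← Submodule.finrank_sup_add_finrank_inf_eq, add_comm]
      apply Nat.add_le_add
      · apply Submodule.finrank_mono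
        intro x hx e he
        rcases Finset.mem_union.1 he with he | he
        · exact hx.1 e he
        · exact hx.2 e he
      · apply Submodule.finrank_mono
        exact sup_le (hmono _ _ fun e he => (Finset.mem_inter.1 he).1)
          (hmono _ _ fun e he => (Finset.mem_inter.1 he).2))
    (F.image γ) (Fintype.card J) _ (fun g => (F.filter (fun e => γ e = g)) ×ˢ Finset.univ) le_rfl
    (fun J0 hJ0 => by
      have h3 : ∀ j : J, Zs s t (fun e => (e, j) ∈
          J0.biUnion (fun g => (F.filter (fun e => γ e = g)) ×ˢ (Finset.univ : Finset J))) =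
          Zs s t (fun e => e ∈ F ∧ γ e ∈ J0) := by
        intro j
        congr 1
        funext e
        simp [and_comm]
      have h3' : c (J0.biUnion (fun g => (F.filter (fun e => γ e = g)) ×ˢ
          (Finset.univ : Finset J))) =
          Fintype.card J * Module.finrank ℚ (Zs s t (fun e => e ∈ F ∧ γ e ∈ J0)) := by
        simp only [hc]
        rw [Finset.sum_congr rfl (fun j _ => by rw [h3 j])]
        simp
      rw [h3']
      rcases dim_bound hcut (fun e => e ∈ F ∧ γ e ∈ J0) with h4 | h4
      · calc _ ≤ Fintype.card J * 1 := Nat.mul_le_mul_left _ h4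
          _ ≤ _ := by omega
      · have h5 : (F.filter (fun e => ¬ (e ∈ F ∧ γ e ∈ J0))).card ≤ M * (F.image γ \ J0).card := by
          apply Finset.card_le_mul_card_image_of_maps_to (f := γ)
          · intro e he
            obtain ⟨he1, he2⟩ := Finset.mem_filter.1 he
            exact Finset.mem_sdiff.2 ⟨Finset.mem_image_of_mem _ he1, fun h => he2 ⟨he1, h⟩⟩
          · intro g _
            refine le_trans (Finset.card_le_card ?_) (hγ g)
            exact Finset.filter_subset_filter _ (Finset.filter_subset _ _)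
        have h6 : M * (Fintype.card J * Module.finrank ℚ (Zs s t (fun e => e ∈ F ∧ γ e ∈ J0))) ≤
            M * (F.image γ \ J0).card := by nlinarith
        have := Nat.le_of_mul_le_mul_left h6 hM
        omega)
  set S := (F.image γ).biUnion A' with hS
  have hmem : ∀ e j, (e, j) ∈ S → e ∈ F ∧ (e, j) ∈ A' (γ e) ∧ γ e ∈ F.image γ := by
    intro e j h
    obtain ⟨g, hg, h3⟩ := Finset.mem_biUnion.1 h
    have h4 := (h1 g hg).1 h3
    simp only [Finset.mem_product, Finset.mem_filter, Finset.mem_univ, and_true] at h4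
    obtain ⟨h5, rfl⟩ := h4
    exact ⟨h5, h3, hg⟩
  refine ⟨fun j => F.filter (fun e => (e, j) ∈ S), fun j => ⟨Finset.filter_subset _ _, ?_⟩, ?_⟩
  · intro A hA1 hA2
    by_contra h3
    push Not at h3
    have : Nonempty V := ⟨hA1.choose⟩
    have h4 := two_le_dim s t (fun e => (e, j) ∈ S) hA1 hA2 (fun e he =>
      h3 e (Finset.mem_filter.2 ⟨(hmem e j he).1, he⟩))
    have h5 : ∑ _j : J, 1 < c S := by
      apply Finset.sum_lt_sum (fun j _ => one_le_dim s t _) ⟨j, Finset.mem_univ _, by omega⟩
    simp only [Finset.sum_const, Finset.card_univ, smul_eq_mul, mul_one] at h5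
    omega
  · intro j j' e e' he he' hγ'
    obtain ⟨-, h3, h4⟩ := hmem e j (Finset.mem_filter.1 he).2
    obtain ⟨-, h5, -⟩ := hmem e' j' (Finset.mem_filter.1 he').2
    rw [← hγ'] at h5
    have := Finset.card_le_one.1 (h1 _ h4).2 _ h3 _ h5
    exact ⟨congrArg Prod.fst this, congrArg Prod.snd this⟩

end Pool.Agent.Lib.MP_ae5681_co
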