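import Pool.Agent.Lib.MP_ae5681_co.Colour3

set_option autoImplicit false

namespace Pool.Agent.Lib.MP_ae5681_co

open Finset

lemma exists_parity (par : ℕ → ℕ) (hpar : ∀ c, 1 ≤ c → par c < c) :
    ∃ sd : ℕ → Bool, ∀ c, 1 ≤ c → sd (par c) ≠ sd c := by
  let sd : ℕ → Bool := fun n => Nat.strongRec (motive := fun _ => Bool)
    (fun n ih => if h : 1 ≤ n then !(ih (par n) (hpar n h)) else true) n
  refine ⟨sd, fun c hc => ?_⟩
  have : sd c = !sd (par c) := by
    simp only [sd]
    rw [Nat.strongRec_eq, dif_pos hc]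
  rw [this]
  simp

variable {V ι : Type*} [Fintype V] [DecidableEq V] [Fintype ι] [DecidableEq ι]

/-- An orientation and an edge colouring by the edges of the tree with matching large degrees. -/
theorem exists_colouring [Nontrivial V] (s t : ι → V) (m D : ℕ) (hm : 1 ≤ m) (hD : 3 ≤ D)
    (par : ℕ → ℕ) (hpar : ∀ c, 1 ≤ c → par c < c)
    (hcut : ∀ A : Finset V, A.Nonempty → A ≠ Finset.univ →
      12 * (12 * D * m ^ 3) ≤ cutN Finset.univ s t A)
    (hdvd : m ∣ Fintype.card ι) :
    ∃ (up dn : ι → V) (col : ι → ℕ) (d : ℕ → V → ℕ), (∀ e, Joins s t e (up e) (dn e)) ∧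
      (∀ e, 1 ≤ col e ∧ col e ≤ m) ∧
      (∀ c, 1 ≤ c → c ≤ m → ∀ v,
        (Finset.univ.filter (fun e => col e = c ∧ up e = v)).card = d (par c) v ∧
        (Finset.univ.filter (fun e => col e = c ∧ dn e = v)).card = d c v) ∧
      ∀ c, c ≤ m → ∀ v, D ≤ d c v := by
  obtain ⟨sd, hsd⟩ := exists_parity par hpar
  set TB := (Finset.range (m + 1)).filter (fun j => sd j = sd m) with hTB
  set be : ℕ → ℕ := fun c => if sd c = sd m then c else par c with hbe
  set C : ℕ → Finset ℕ := fun j => (Finset.Icc 1 m).filter (fun c => be c = j) with hC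
  have hbeTB : ∀ c ∈ Finset.Icc 1 m, be c ∈ TB := by
    intro c hc
    obtain ⟨h1, h2⟩ := Finset.mem_Icc.1 hc
    have h3 := hpar c h1
    have h4 := hsd c h1
    simp only [hbe, hTB, Finset.mem_filter, Finset.mem_range]
    split_ifs with h5
    · exact ⟨by omega, h5⟩
    · refine ⟨by omega, ?_⟩
      revert h4 h5
      cases sd (par c) <;> cases sd c <;> cases sd m <;> simp
  have hb : ∀ j : TB, 1 ≤ (C j.1).card := by
    rintro ⟨j, hj⟩
    obtain ⟨h1, h2⟩ := Finset.mem_filter.1 hj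
    rw [Finset.mem_range] at h1
    apply Finset.card_pos.2
    by_cases h3 : 1 ≤ j
    · exact ⟨j, Finset.mem_filter.2 ⟨Finset.mem_Icc.2 ⟨h3, by omega⟩, by simp [hbe, h2]⟩⟩
    · have h4 : j = 0 := by omega
      subst h4
      have h5 : par 1 = 0 := by have := hpar 1 le_rfl; omega
      have h6 := hsd 1 le_rfl
      rw [h5, h2] at h6
      exact ⟨1, Finset.mem_filter.2 ⟨Finset.mem_Icc.2 ⟨le_rfl, hm⟩, by simp [hbe, h6.symm, h5]⟩⟩
  have hmTB : m ∈ TB := by simp [hTB]
  obtain ⟨tl, hd, q, cls, hj, hqD, hq, hh1, hh2⟩ := exists_classes (J := TB) s t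
    (fun j => (C j.1).card) hb ⟨m, hmTB⟩ (by
      rw [Finset.card_eq_one]
      refine ⟨m, Finset.eq_singleton_iff_unique_mem.2 ⟨Finset.mem_filter.2
        ⟨Finset.mem_Icc.2 ⟨hm, le_rfl⟩, by simp [hbe]⟩, fun c hc => ?_⟩⟩
      obtain ⟨h1, h2⟩ := Finset.mem_filter.1 hc
      obtain ⟨h3, h4⟩ := Finset.mem_Icc.1 h1
      have h5 := hpar c h3
      simp only [hbe] at h2
      split_ifs at h2 <;> omega) m D (by
      rw [Finset.sum_coe_sort TB (fun j => (C j).card), ← card_fib _ _ be hbeTB]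
      simp) hD hcut hdvd
  have h1 := fun j : TB => split_even (Finset.univ.filter (fun e => cls e = j)) tl hd (C j.1) (hb j)
    (fun v => by rw [Finset.filter_filter, hq]; exact Dvd.intro _ rfl)
    (fun v => by rw [Finset.filter_filter]; exact hh1 v j)
  choose g hg1 hg2 hg3 using h1
  have hcol : ∀ e, g (cls e) e ∈ C (cls e).1 := fun e =>
    hg1 _ e (Finset.mem_filter.2 ⟨Finset.mem_univ _, rfl⟩)
  have hset : ∀ (c : ℕ) (hc : c ∈ Finset.Icc 1 m) (f : ι → V) (v : V),
      Finset.univ.filter (fun e => g (cls e) e = c ∧ f e = v) =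
      (Finset.univ.filter (fun e => cls e = ⟨be c, hbeTB c hc⟩)).filter
        (fun e => f e = v ∧ g ⟨be c, hbeTB c hc⟩ e = c) := by
    intro c hc f v
    ext e
    simp only [Finset.mem_filter, Finset.mem_univ, true_and]
    constructor
    · rintro ⟨h2, h3⟩
      have h4 := (Finset.mem_filter.1 (hcol e)).2
      rw [h2] at h4
      have h5 : cls e = ⟨be c, hbeTB c hc⟩ := Subtype.ext h4.symm
      exact ⟨h5, h3, by rw [← h5]; exact h2⟩
    · rintro ⟨h2, h3, h4⟩
      exact ⟨by rw [h2]; exact h4, h3⟩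
  set r : ℕ → V → ℕ := fun j v =>
    (Finset.univ.filter (fun e => (cls e).1 = j ∧ hd e = v)).card / (C j).card with hr
  have hT : ∀ c ∈ Finset.Icc 1 m, ∀ v,
      (Finset.univ.filter (fun e => g (cls e) e = c ∧ tl e = v)).card = q v := by
    intro c hc v
    have h2 := hg2 ⟨be c, hbeTB c hc⟩ c (Finset.mem_filter.2 ⟨hc, rfl⟩) v
    rw [← hset c hc, Finset.filter_filter, hq] at h2
    exact Nat.eq_of_mul_eq_mul_left (hb ⟨be c, hbeTB c hc⟩) h2
  have hH : ∀ c ∈ Finset.Icc 1 m, ∀ v,
      (Finset.univ.filter (fun e => g (cls e) e = c ∧ hd e = v)).card = r (be c) v := by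
    intro c hc v
    have h2 := hg3 ⟨be c, hbeTB c hc⟩ c (Finset.mem_filter.2 ⟨hc, rfl⟩) v
    rw [← hset c hc, Finset.filter_filter] at h2
    simp only [hr, Subtype.ext_iff] at h2 ⊢
    rw [← h2, Nat.mul_div_cancel_left _ (hb ⟨be c, hbeTB c hc⟩)]
  refine ⟨fun e => if sd (g (cls e) e) = sd m then tl e else hd e,
    fun e => if sd (g (cls e) e) = sd m then hd e else tl e, fun e => g (cls e) e,
    fun c v => if sd c = sd m then r c v else q v, fun e => ?_,
    fun e => Finset.mem_Icc.1 (Finset.mem_filter.1 (hcol e)).1, fun c h2 h3 v => ?_,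
    fun c hc v => ?_⟩
  · dsimp only
    split_ifs
    · exact hj e
    · exact (hj e).symm
  · have hc : c ∈ Finset.Icc 1 m := Finset.mem_Icc.2 ⟨h2, h3⟩
    have h4 := hsd c h2
    by_cases h5 : sd c = sd m
    · have h6 : ¬ sd (par c) = sd m := h5 ▸ h4
      have h7 : be c = c := if_pos h5
      simp only [if_pos h5, if_neg h6]
      rw [← hT c hc v, ← h7, ← hH c hc v, h7]
      constructor <;> congr 1 <;> apply Finset.filter_congr <;> intro e _ <;>
        apply and_congr_right <;> intro h8 <;> rw [h8, if_pos h5]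
    · have h6 : sd (par c) = sd m := by
        revert h4 h5
        cases sd (par c) <;> cases sd c <;> cases sd m <;> simp
      have h7 : be c = par c := if_neg h5
      simp only [if_neg h5, if_pos h6]
      rw [← hT c hc v, ← h7, ← hH c hc v]
      constructor <;> congr 1 <;> apply Finset.filter_congr <;> intro e _ <;>
        apply and_congr_right <;> intro h8 <;> rw [h8, if_neg h5]
  · dsimp only
    split_ifs with h2
    · have h3 : c ∈ TB := Finset.mem_filter.2 ⟨Finset.mem_range.2 (by omega), h2⟩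
      have h4 := hh2 v ⟨c, h3⟩
      simp only [Subtype.ext_iff] at h4
      exact (Nat.le_div_iff_mul_le (hb ⟨c, h3⟩)).2 h4
    · exact hqD v

end Pool.Agent.Lib.MP_ae5681_co
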