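import Pool.Agent.Lib.MP_ae5681_co.Repair
import Pool.Agent.Lib.MP_ae5681_co.Colour4

set_option autoImplicit false

namespace Pool.Agent.Lib.MP_ae5681_co

open Finset

/-- Sizes of the clones of a vertex of degree `d`. -/
def szf (D d r : ℕ) : ℕ := if r = 0 then D + d % D else if r < d / D then D else 0

lemma sum_szf {D d N : ℕ} (hD : 0 < D) (h1 : D ≤ d) (h2 : d ≤ N) :
    ∑ r : Fin (N + 1), szf D d r = d := by
  rw [Fin.sum_univ_eq_sum_range (fun r => szf D d r), Finset.sum_range_succ']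
  simp only [szf, Nat.add_eq_zero_iff, one_ne_zero, and_false, if_false, if_true]
  rw [← Finset.sum_filter, Finset.sum_const, smul_eq_mul]
  have h3 : 1 ≤ d / D := (Nat.le_div_iff_mul_le hD).2 (by omega)
  have h4 : d / D ≤ d := Nat.div_le_self _ _
  have : (Finset.range N).filter (fun r => r + 1 < d / D) = Finset.range (d / D - 1) := by
    ext r
    simp only [Finset.mem_filter, Finset.mem_range]
    omega
  rw [this, Finset.card_range]
  have h5 := Nat.div_add_mod d D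
  obtain ⟨q, hq⟩ := Nat.exists_eq_add_of_le h3
  rw [hq] at h5 ⊢
  rw [Nat.add_sub_cancel_left]
  nlinarith

lemma szf_bound {D : ℕ} (hD : 0 < D) (d r : ℕ) :
    (szf D d r = 0 ∨ D ≤ szf D d r) ∧ szf D d r ≤ 2 * D := by
  have := Nat.mod_lt d hD
  unfold szf
  split_ifs <;> omega

lemma exists_clones {V ι : Type*} [DecidableEq V] [Fintype ι] (col : ι → ℕ) (f : ι → V) (m D : ℕ)
    (hD : 0 < D) (hcol : ∀ e, 1 ≤ col e ∧ col e ≤ m) (d : ℕ → V → ℕ)
    (h1 : ∀ c, 1 ≤ c → c ≤ m → ∀ v,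
      (Finset.univ.filter (fun e => col e = c ∧ f e = v)).card = d c v ∧ D ≤ d c v) :
    ∃ cl : ι → V × Fin (Fintype.card ι + 1), (∀ e, (cl e).1 = f e) ∧
      ∀ c, 1 ≤ c → c ≤ m → ∀ μ,
        (Finset.univ.filter (fun e => col e = c ∧ cl e = μ)).card = szf D (d c μ.1) μ.2 := by
  obtain ⟨g, -, hg⟩ := exists_quota (Finset.univ : Finset ι) (fun e => (col e, f e))
    (Finset.univ : Finset (Fin (Fintype.card ι + 1)))
    (fun x r => if 1 ≤ x.1 ∧ x.1 ≤ m then szf D (d x.1 x.2) r else 0) (by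
      rintro ⟨c, v⟩
      simp only [Prod.mk.injEq]
      split_ifs with h
      · obtain ⟨h2, h3⟩ := h1 c h.1 h.2 v
        rw [sum_szf hD h3 (h2 ▸ Finset.card_le_univ _), h2]
      · rw [Finset.filter_eq_empty_iff.2 (fun e _ (h2 : col e = c ∧ f e = v) =>
          h (h2.1 ▸ hcol e))]
        simp)
  refine ⟨fun e => (f e, g e), fun _ => rfl, fun c h2 h3 μ => ?_⟩
  have := hg (c, μ.1) μ.2 (Finset.mem_univ _)
  rw [if_pos ⟨h2, h3⟩] at this
  rw [← this]
  congr 1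
  apply Finset.filter_congr
  intro e _
  simp only [Prod.ext_iff, and_assoc]

lemma num_bound (m : ℕ) (hm : 1 ≤ m) :
    (m : ℝ) * (1 + 2 * (m * (m * (1 + m * (16 * m * (12 + 6 * m : ℕ))) + 16 * m * (12 + 6 * m : ℕ))) +
      m * (m + 1) * (1 + m * (16 * m * (12 + 6 * m : ℕ)))) ≤ (2048 * m ^ 6 : ℕ) := by
  have h1 : (1 : ℝ) ≤ m := Nat.one_le_cast.2 hm
  push_cast
  generalize (m : ℝ) = x at h1
  have h2 : x ≤ x ^ 6 := le_self_pow₀ h1 (by norm_num)
  have h3 : x ^ 2 ≤ x ^ 6 := pow_le_pow_right₀ h1 (by norm_num)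
  have h4 : x ^ 3 ≤ x ^ 6 := pow_le_pow_right₀ h1 (by norm_num)
  have h5 : x ^ 4 ≤ x ^ 6 := pow_le_pow_right₀ h1 (by norm_num)
  have h6 : x ^ 5 ≤ x ^ 6 := pow_le_pow_right₀ h1 (by norm_num)
  nlinarith

/-- Decomposition of a highly connected simple graph into injective copies of a rooted tree. -/
theorem exists_decomp {V ι : Type} [Fintype V] [DecidableEq V] [Fintype ι] [DecidableEq ι]
    [Nontrivial V] (s t : ι → V) (hloop : ∀ e, s e ≠ t e)
    (hsimple : ∀ e e' x y, Joins s t e x y → Joins s t e' x y → e = e') (m : ℕ) (hm : 1 ≤ m)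
    (par : ℕ → ℕ) (hpar : ∀ c, 1 ≤ c → par c < c)
    (hcut : ∀ A : Finset V, A.Nonempty → A ≠ Finset.univ →
      294912 * m ^ 9 ≤ cutN Finset.univ s t A)
    (hdvd : m ∣ Fintype.card ι) :
    ∃ (k : ℕ) (φ : Fin k → ℕ → V) (ε : Fin k → ℕ → ι),
      (∀ x c, 1 ≤ c → c ≤ m → Joins s t (ε x c) (φ x (par c)) (φ x c)) ∧
      (∀ x s1 s2, s1 < s2 → s2 ≤ m → φ x s1 ≠ φ x s2) ∧
      ∀ e, ∃! x, ∃ c, 1 ≤ c ∧ c ≤ m ∧ ε x c = e := by
  have hm6 : 1 ≤ m ^ 6 := Nat.one_le_pow _ _ hm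
  have hD : 0 < 2048 * m ^ 6 := by omega
  obtain ⟨up, dn, col, d, hj, hcol, hd, hdD⟩ := exists_colouring s t m (2048 * m ^ 6) hm (by omega)
    par hpar (fun A h1 h2 => le_trans (le_of_eq (by ring)) (hcut A h1 h2)) hdvd
  obtain ⟨cu, hcu1, hcu2⟩ := exists_clones col up m _ hD hcol (fun c => d (par c))
    (fun c h1 h2 v => ⟨(hd c h1 h2 v).1, hdD _ (by have := hpar c h1; omega) v⟩)
  obtain ⟨cd, hcd1, hcd2⟩ := exists_clones col dn m _ hD hcol d
    (fun c h1 h2 v => ⟨(hd c h1 h2 v).2, hdD _ h2 v⟩)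
  have hl : ∀ e, (cu e).1 ≠ (cd e).1 := by
    intro e h
    rw [hcu1, hcd1] at h
    rcases hj e with ⟨h1, h2⟩ | ⟨h1, h2⟩ <;> exact hloop e (by rw [h1, h2, h])
  obtain ⟨ν, ε, hst⟩ := exists_stage (H := {e // col e = 1}) (π := Prod.fst) (par := par)
    (col := col) (cu := cu) (cd := cd) (sz := fun c μ => szf (2048 * m ^ 6) (d c μ.1) μ.2)
    (j := 12 + 6 * m) (m := m) hD hpar hcu2 hcd2
    (fun c _ μ => ⟨(szf_bound hD _ _).1, (szf_bound hD _ _).2.trans (by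
      have h1 : m ^ 6 ≤ (2 ^ m) ^ 6 := Nat.pow_le_pow_left Nat.lt_two_pow_self.le 6
      rw [pow_add, mul_comm 6 m, pow_mul]
      omega)⟩)
    (fun e e' h1 h2 => hsimple e e' _ _ (hj e) (by
      rw [hcu1, hcu1] at h1
      rw [hcd1, hcd1] at h2
      rw [h1, h2]; exact hj e'))
    hl (fun x => cu x.1) Subtype.val (fun μ => by
      have h1 := hcu2 1 le_rfl hm μ
      have h2 : par 1 = 0 := by have := hpar 1 le_rfl; omega
      rw [h2] at h1
      rw [← h1]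
      apply Finset.card_bij (fun x _ => x.1)
      · intro x hx
        exact Finset.mem_filter.2 ⟨Finset.mem_univ _, x.2, (Finset.mem_filter.1 hx).2⟩
      · intro x _ y _ h
        exact Subtype.ext h
      · intro e he
        obtain ⟨-, h3, h4⟩ := Finset.mem_filter.1 he
        exact ⟨⟨e, h3⟩, Finset.mem_filter.2 ⟨Finset.mem_univ _, h4⟩, rfl⟩) m le_rfl
  obtain ⟨φ, ε', h1, h2⟩ := repair hpar hm hD (fun c _ μ => (szf_bound hD _ _).1) hl
    (num_bound m hm) hst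
  set q := (Fintype.equivFin {e // col e = 1}).symm
  refine ⟨_, fun x => φ (q x), fun x => ε' (q x), fun x c h3 h4 => ?_, fun x => h2 (q x),
    fun e => ?_⟩
  · obtain ⟨-, a1, a2⟩ := (h1 c h3 h4).1 (q x)
    simp only [hcu1, hcd1] at a1 a2
    simp only [← a1, ← a2]
    exact hj _
  · obtain ⟨x, hx⟩ := (h1 (col e) (hcol e).1 (hcol e).2).2.2 e rfl
    refine ⟨q.symm x, ⟨col e, (hcol e).1, (hcol e).2, by simpa using hx⟩, ?_⟩
    rintro y ⟨c, h3, h4, h5⟩
    have h6 : col e = c := by rw [← h5]; exact ((h1 c h3 h4).1 (q y)).1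
    subst h6
    have := (h1 (col e) h3 h4).2.1 (h5.trans hx.symm)
    rw [← this, Equiv.symm_apply_apply]

end Pool.Agent.Lib.MP_ae5681_co
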