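import Pool.Agent.Lib.MP_ae5681_co.Round

set_option autoImplicit false

namespace Pool.Agent.Lib.MP_ae5681_co

open Finset

/-- Counting form of the rounding of bijections. -/
lemma match_count {P Q T X B : Type} [Fintype P] [DecidableEq P] [DecidableEq Q] [Fintype T]
    [Fintype X] [DecidableEq X] [DecidableEq B] (QS : Finset Q) (key : T → P → Q → X)
    (cond : T → P → Q → Prop) [∀ τ p q, Decidable (cond τ p q)] (j : ℕ) (bp : P → B) (bq : Q → B)
    (h1 : ∀ β, (Finset.univ.filter (fun p => bp p = β)).card = (QS.filter (fun q => bq q = β)).card)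
    (h2 : ∀ β, (QS.filter (fun q => bq q = β)).card ≤ 2 ^ j) :
    ∃ f : P → Q, (∀ p, f p ∈ QS ∧ bq (f p) = bp p) ∧ Function.Injective f ∧
      (∀ q ∈ QS, ∃ p, f p = q) ∧
      ∀ τ x, ((Finset.univ.filter (fun p => key τ p (f p) = x ∧ cond τ p (f p))).card : ℝ) ≤
        ∑ p, ((QS.filter (fun q => bq q = bp p ∧ key τ p q = x ∧ cond τ p q)).card : ℝ) /
          (QS.filter (fun q => bq q = bp p)).card + 4 * Fintype.card T * j := by
  obtain ⟨f, hf1, hf2, hf3, hf4⟩ := match_round (K := T × X) QS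
    (fun κ p q => if key κ.1 p q = κ.2 ∧ cond κ.1 p q then 1 else 0)
    (fun κ p q => by split_ifs <;> norm_num) (Fintype.card T) (Nat.cast_nonneg _)
    (fun p q => by
      rw [Fintype.sum_prod_type]
      calc _ ≤ ∑ _τ : T, (1 : ℝ) := Finset.sum_le_sum fun τ _ => by
            rw [Finset.sum_boole]
            have : (Finset.univ.filter (fun x => key τ p q = x ∧ cond τ p q)).card ≤ 1 :=
              Finset.card_le_one.2 fun x hx y hy =>
                (Finset.mem_filter.1 hx).2.1.symm.trans (Finset.mem_filter.1 hy).2.1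
            exact_mod_cast this
        _ = _ := by simp) j B bp bq h1 h2
  refine ⟨f, hf1, hf2, hf3, fun τ x => ?_⟩
  have := hf4 (τ, x)
  simp only [Finset.sum_boole, Finset.filter_filter] at this
  exact this

lemma match_four {P Q X B : Type} [Fintype P] [DecidableEq P] [DecidableEq Q]
    [Fintype X] [DecidableEq X] [DecidableEq B] (QS : Finset Q) (n : ℕ) (hn : 1 ≤ n)
    (k1 k2 k3 : ℕ → P → Q → X) (k4 : P → Q → X) (c3 c4 : P → Q → Prop)
    [∀ p q, Decidable (c3 p q)] [∀ p q, Decidable (c4 p q)] (j : ℕ) (bp : P → B) (bq : Q → B)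
    (h1 : ∀ β, (Finset.univ.filter (fun p => bp p = β)).card = (QS.filter (fun q => bq q = β)).card)
    (h2 : ∀ β, (QS.filter (fun q => bq q = β)).card ≤ 2 ^ j) :
    ∃ f : P → Q, (∀ p, f p ∈ QS ∧ bq (f p) = bp p) ∧ Function.Injective f ∧
      (∀ q ∈ QS, ∃ p, f p = q) ∧
      (∀ s < n, ∀ x, ((Finset.univ.filter (fun p => k1 s p (f p) = x)).card : ℝ) ≤
        ∑ p, ((QS.filter (fun q => bq q = bp p ∧ k1 s p q = x)).card : ℝ) /
          (QS.filter (fun q => bq q = bp p)).card + 16 * n * j) ∧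
      (∀ s < n, ∀ x, ((Finset.univ.filter (fun p => k2 s p (f p) = x)).card : ℝ) ≤
        ∑ p, ((QS.filter (fun q => bq q = bp p ∧ k2 s p q = x)).card : ℝ) /
          (QS.filter (fun q => bq q = bp p)).card + 16 * n * j) ∧
      (∀ s < n, ∀ x, ((Finset.univ.filter (fun p => k3 s p (f p) = x ∧ c3 p (f p))).card : ℝ) ≤
        ∑ p, ((QS.filter (fun q => bq q = bp p ∧ k3 s p q = x ∧ c3 p q)).card : ℝ) /
          (QS.filter (fun q => bq q = bp p)).card + 16 * n * j) ∧
      (∀ x, ((Finset.univ.filter (fun p => k4 p (f p) = x ∧ c4 p (f p))).card : ℝ) ≤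
        ∑ p, ((QS.filter (fun q => bq q = bp p ∧ k4 p q = x ∧ c4 p q)).card : ℝ) /
          (QS.filter (fun q => bq q = bp p)).card + 16 * n * j) := by
  obtain ⟨f, hf1, hf2, hf3, hf4⟩ := @match_count P Q (Fin n ⊕ Fin n ⊕ Fin n ⊕ Unit) X B
    _ _ _ _ _ _ _ QS
    (Sum.elim (fun s => k1 s) (Sum.elim (fun s => k2 s) (Sum.elim (fun s => k3 s) (fun _ => k4))))
    (Sum.elim (fun _ _ _ => True) (Sum.elim (fun _ _ _ => True)
      (Sum.elim (fun _ => c3) (fun _ => c4))))
    (fun _ _ _ => Classical.propDecidable _) j bp bq h1 h2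
  have hT : (4 : ℝ) * Fintype.card (Fin n ⊕ Fin n ⊕ Fin n ⊕ Unit) * j ≤ 16 * n * j := by
    apply mul_le_mul_of_nonneg_right _ (Nat.cast_nonneg _)
    simp only [Fintype.card_sum, Fintype.card_fin, Fintype.card_unit]
    have : (1 : ℝ) ≤ n := Nat.one_le_cast.2 hn
    push_cast
    linarith
  refine ⟨f, hf1, hf2, hf3, fun s hs x => ?_, fun s hs x => ?_, fun s hs x => ?_, fun x => ?_⟩
  · have := (hf4 (Sum.inl ⟨s, hs⟩) x).trans (add_le_add le_rfl hT)
    simp only [Sum.elim_inl, and_true] at this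
    convert this
  · have := (hf4 (Sum.inr (Sum.inl ⟨s, hs⟩)) x).trans (add_le_add le_rfl hT)
    simp only [Sum.elim_inl, Sum.elim_inr, and_true] at this
    convert this
  · have := (hf4 (Sum.inr (Sum.inr (Sum.inl ⟨s, hs⟩))) x).trans (add_le_add le_rfl hT)
    simp only [Sum.elim_inl, Sum.elim_inr] at this
    convert this
  · have := (hf4 (Sum.inr (Sum.inr (Sum.inr ()))) x).trans (add_le_add le_rfl hT)
    simp only [Sum.elim_inr] at this
    convert this

lemma exp_row {P Q B : Type*} [Fintype P] [DecidableEq B] (QS : Finset Q) (bp : P → B) (bq : Q → B)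
    (R : P → Q → Prop) [∀ p q, Decidable (R p q)] (X : P → Prop) [DecidablePred X] (r D : ℕ)
    (hD : 0 < D) (hn : ∀ p, D ≤ (QS.filter (fun q => bq q = bp p)).card)
    (h1 : ∀ p q, R p q → X p) (h2 : ∀ p, (QS.filter (fun q => bq q = bp p ∧ R p q)).card ≤ r) :
    ∑ p, ((QS.filter (fun q => bq q = bp p ∧ R p q)).card : ℝ) /
      (QS.filter (fun q => bq q = bp p)).card ≤ (Finset.univ.filter X).card * (r / D) := by
  rw [← Finset.sum_boole, Finset.sum_mul]
  apply Finset.sum_le_sum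
  intro p _
  split_ifs with h
  · rw [one_mul]
    have hD' : (0 : ℝ) < D := Nat.cast_pos.2 hD
    exact div_le_div₀ (Nat.cast_nonneg _) (Nat.cast_le.2 (h2 p)) hD' (Nat.cast_le.2 (hn p))
  · rw [Finset.filter_eq_empty_iff.2 (fun q _ (h3 : bq q = bp p ∧ R p q) => h (h1 p q h3.2))]
    simp

lemma exp_col {P Q B : Type*} [Fintype P] [DecidableEq B] (QS : Finset Q) (bp : P → B) (bq : Q → B)
    (R : P → Q → Prop) [∀ p q, Decidable (R p q)] (Y : Q → Prop) [DecidablePred Y] (η : ℝ)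
    (hη : 0 ≤ η) (h1 : ∀ p q, R p q → Y q)
    (h2 : ∀ q ∈ QS, ((Finset.univ.filter (fun p => bp p = bq q ∧ R p q)).card : ℝ) ≤
      η * (QS.filter (fun q' => bq q' = bq q)).card) :
    ∑ p, ((QS.filter (fun q => bq q = bp p ∧ R p q)).card : ℝ) /
      (QS.filter (fun q => bq q = bp p)).card ≤ (QS.filter Y).card * η := by
  have h3 : ∀ p, ((QS.filter (fun q => bq q = bp p ∧ R p q)).card : ℝ) /
      (QS.filter (fun q => bq q = bp p)).card = ∑ q ∈ QS, (if bp p = bq q ∧ R p q then 1 else 0) /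
        ((QS.filter (fun q' => bq q' = bq q)).card : ℝ) := by
    intro p
    rw [← Finset.sum_boole, Finset.sum_div]
    apply Finset.sum_congr rfl
    intro q _
    by_cases h : bq q = bp p
    · simp only [h]
    · rw [if_neg (fun h' => h h'.1), if_neg (fun h' => h h'.1.symm), zero_div, zero_div]
  simp only [h3]
  rw [Finset.sum_comm, ← Finset.sum_boole, Finset.sum_mul]
  apply Finset.sum_le_sum
  intro q hq
  rw [← Finset.sum_div, Finset.sum_boole]
  split_ifs with h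
  · rw [one_mul]
    exact div_le_of_le_mul₀ (Nat.cast_nonneg _) hη (h2 q hq)
  · rw [Finset.filter_eq_empty_iff.2 (fun p _ (h3 : bp p = bq q ∧ R p q) => h (h1 p q h3.2))]
    simp

variable {H ι V C : Type} [Fintype H] [DecidableEq H] [Fintype ι] [DecidableEq ι] [Fintype V]
  [DecidableEq V] [Fintype C] [DecidableEq C]

/-- The copy `x` repeats a vertex among its first `i + 1` positions. -/
def Bad (φ : ℕ → V) (i : ℕ) : Prop := ∃ s2 ∈ Finset.range (i + 1), ∃ s1 ∈ Finset.range s2, φ s1 = φ s2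

instance (φ : ℕ → V) (i : ℕ) : Decidable (Bad φ i) := by unfold Bad; infer_instance

/-- Edge structure of the homomorphic copies on the first `i + 1` positions. -/
def Struct {Z : Type} (par : ℕ → ℕ) (col : ι → ℕ) (cu cd : ι → Z) (i : ℕ) (ν : H → ℕ → Z)
    (ε : H → ℕ → ι) : Prop :=
  ∀ c, 1 ≤ c → c ≤ i → (∀ h, col (ε h c) = c ∧ cu (ε h c) = ν h (par c) ∧ cd (ε h c) = ν h c) ∧
    Function.Injective (fun h => ε h c) ∧ ∀ e, col e = c → ∃ h, ε h c = e

/-- Invariants of the construction. -/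
structure Stage (π : C → V) (par : ℕ → ℕ) (col : ι → ℕ) (cu cd : ι → C) (sz : ℕ → C → ℕ)
    (D : ℕ) (E B : ℝ) (i : ℕ) (ν : H → ℕ → C) (ε : H → ℕ → ι) : Prop where
  size : ∀ s ≤ i, ∀ μ, (Finset.univ.filter (fun h => ν h s = μ)).card = sz s μ
  str : Struct par col cu cd i ν ε
  spread : ∀ s ≤ i, ∀ s' ≤ i, s ≠ s' → ∀ μ u,
    (D : ℝ) * (Finset.univ.filter (fun h => ν h s = μ ∧ π (ν h s') = u)).card ≤ E * sz s μ
  bad : ∀ s ≤ i, ∀ μ,
    (D : ℝ) * (Finset.univ.filter (fun h => ν h s = μ ∧ Bad (fun s => π (ν h s)) i)).card ≤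
      B * sz s μ

lemma scale_bound {D z x : ℕ} {η Λ F : ℝ} (hD : 0 < D) (hz : z = 0 ∨ D ≤ z) (hx : x ≤ z)
    (hΛ : 0 ≤ Λ) (h : (x : ℝ) ≤ z * (η / D) + Λ) (hF : η + Λ ≤ F) : (D : ℝ) * x ≤ F * z := by
  rcases hz with rfl | hz
  · have : x = 0 := by omega
    simp [this]
  · have hD' : (0 : ℝ) < D := Nat.cast_pos.2 hD
    have h1 : (D : ℝ) ≤ z := Nat.cast_le.2 hz
    have h2 : (D : ℝ) * x ≤ D * (z * (η / D) + Λ) := mul_le_mul_of_nonneg_left h hD'.le
    have h3 : (D : ℝ) * (z * (η / D) + Λ) = z * η + D * Λ := by field_simp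
    have h4 : (D : ℝ) * Λ ≤ z * Λ := mul_le_mul_of_nonneg_right h1 hΛ
    have h5 : (η + Λ) * z ≤ F * z := mul_le_mul_of_nonneg_right hF (Nat.cast_nonneg _)
    nlinarith

end Pool.Agent.Lib.MP_ae5681_co
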