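import Pool.Agent.Lib.MP_ae5681_co.Build1

set_option autoImplicit false

namespace Pool.Agent.Lib.MP_ae5681_co

open Finset

variable {H ι V C : Type} [Fintype H] [DecidableEq H] [Fintype ι] [DecidableEq ι] [Fintype V]
  [DecidableEq V] [Fintype C] [DecidableEq C]

/-- The vertex `w` is among the first `i + 1` positions. -/
def Hit (φ : ℕ → V) (i : ℕ) (w : V) : Prop := ∃ s ∈ Finset.range (i + 1), φ s = w

instance (φ : ℕ → V) (i : ℕ) (w : V) : Decidable (Hit φ i w) := by unfold Hit; infer_instance

/-- A repetition after adding `w`. -/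
def BadOr (φ : ℕ → V) (i : ℕ) (w : V) : Prop := Bad φ i ∨ Hit φ i w

instance (φ : ℕ → V) (i : ℕ) (w : V) : Decidable (BadOr φ i w) := by unfold BadOr; infer_instance

omit [Fintype V] [DecidableEq V] in
lemma bad_update {φ : ℕ → V} {i : ℕ} {w : V} (h : Bad (Function.update φ (i + 1) w) (i + 1)) :
    BadOr φ i w := by
  obtain ⟨s2, h2, s1, h1, h3⟩ := h
  rw [Finset.mem_range] at h1 h2
  rw [Function.update_of_ne (by omega)] at h3
  by_cases h4 : s2 = i + 1
  · subst h4
    rw [Function.update_self] at h3
    exact Or.inr ⟨s1, Finset.mem_range.2 h1, h3⟩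
  · rw [Function.update_of_ne h4] at h3
    exact Or.inl ⟨s2, Finset.mem_range.2 (by omega), s1, Finset.mem_range.2 h1, h3⟩

/-- Adding one more position. -/
lemma stage_step {π : C → V} {par : ℕ → ℕ} {col : ι → ℕ} {cu cd : ι → C} {sz : ℕ → C → ℕ}
    {D j i : ℕ} {E B : ℝ} (hD : 0 < D) (hE : 1 ≤ E) (hB : 0 ≤ B)
    (hpar : ∀ c, 1 ≤ c → par c < c)
    (hcu : ∀ μ, (Finset.univ.filter (fun e => col e = i + 1 ∧ cu e = μ)).card = sz (par (i + 1)) μ)
    (hcd : ∀ μ, (Finset.univ.filter (fun e => col e = i + 1 ∧ cd e = μ)).card = sz (i + 1) μ)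
    (hsz : ∀ s ≤ i + 1, ∀ μ, (sz s μ = 0 ∨ D ≤ sz s μ) ∧ sz s μ ≤ 2 ^ j)
    (hsimple : ∀ e e', π (cu e) = π (cu e') → π (cd e) = π (cd e') → e = e')
    (hloop : ∀ e, π (cu e) ≠ π (cd e)) {ν : H → ℕ → C} {ε : H → ℕ → ι}
    (h : Stage π par col cu cd sz D E B i ν ε) :
    ∃ (ν' : H → ℕ → C) (ε' : H → ℕ → ι), Stage π par col cu cd sz D (E + 16 * (i + 1 : ℕ) * j)
      (B + (i + 1 : ℕ) * E + 16 * (i + 1 : ℕ) * j) (i + 1) ν' ε' := by
  set t := par (i + 1) with ht
  have hti : t ≤ i := by have := hpar (i + 1) (by omega); omega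
  set QS := Finset.univ.filter (fun e => col e = i + 1) with hQS
  have hblk : ∀ μ, (QS.filter (fun e => cu e = μ)).card = sz t μ := by
    intro μ
    rw [hQS, Finset.filter_filter, hcu]
  have hblk2 : ∀ μ, (QS.filter (fun e => cd e = μ)).card = sz (i + 1) μ := by
    intro μ
    rw [hQS, Finset.filter_filter, hcd]
  obtain ⟨f, hf1, hf2, hf3, hf4, hf5, hf6, hf7⟩ := match_four (X := C × V) QS (i + 1) (by omega)
    (fun s x e => (ν x s, π (cd e))) (fun s x e => (cd e, π (ν x s)))
    (fun s x _ => (ν x s, π (ν x s))) (fun _ e => (cd e, π (cd e)))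
    (fun x e => Hit (fun s => π (ν x s)) i (π (cd e)))
    (fun x e => BadOr (fun s => π (ν x s)) i (π (cd e)))
    j (fun x => ν x t) cu
    (fun μ => by rw [hblk, h.size t hti]) (fun μ => by rw [hblk]; exact (hsz t (by omega) μ).2)
  set Λ : ℝ := 16 * (i + 1 : ℕ) * j with hΛ
  have hΛ0 : 0 ≤ Λ := by positivity
  have hD' : (0 : ℝ) < D := Nat.cast_pos.2 hD
  have hbig : ∀ x, D ≤ (QS.filter (fun e => cu e = ν x t)).card := by
    intro x
    rw [hblk]
    rcases (hsz t (by omega) (ν x t)).1 with h1 | h1
    · rw [← h.size t hti] at h1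
      have : 0 < (Finset.univ.filter (fun y => ν y t = ν x t)).card :=
        Finset.card_pos.2 ⟨x, by simp⟩
      omega
    · exact h1
  have hold : ∀ x s, s ≤ i → Function.update (ν x) (i + 1) (cd (f x)) s = ν x s :=
    fun x s hs => Function.update_of_ne (by omega) _ _
  have hnew : ∀ μ, (Finset.univ.filter (fun x => cd (f x) = μ)).card = sz (i + 1) μ := by
    intro μ
    rw [← hblk2]
    apply Finset.card_bij (fun x _ => f x)
    · intro x hx
      exact Finset.mem_filter.2 ⟨(hf1 x).1, (Finset.mem_filter.1 hx).2⟩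
    · intro x _ y _ hxy
      exact hf2 hxy
    · intro e he
      obtain ⟨x, rfl⟩ := hf3 e (Finset.mem_filter.1 he).1
      exact ⟨x, Finset.mem_filter.2 ⟨Finset.mem_univ _, (Finset.mem_filter.1 he).2⟩, rfl⟩
  have hle : ∀ (P : H → Prop) [DecidablePred P] (g : H → C) (μ : C),
      (Finset.univ.filter (fun x => g x = μ ∧ P x)).card ≤
        (Finset.univ.filter (fun x => g x = μ)).card := by
    intro P _ g μ
    apply Finset.card_le_card
    intro x hx
    exact Finset.mem_filter.2 ⟨Finset.mem_univ _, (Finset.mem_filter.1 hx).2.1⟩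
  have hi0 : (0 : ℝ) ≤ (i + 1 : ℕ) := Nat.cast_nonneg _
  have hiE : ((i + 1 : ℕ) : ℝ) ≤ (i + 1 : ℕ) * E := le_mul_of_one_le_right hi0 hE
  refine ⟨fun x => Function.update (ν x) (i + 1) (cd (f x)),
    fun x => Function.update (ε x) (i + 1) (f x), fun s hs μ => ?_, fun c hc1 hc2 => ?_,
    fun s hs s' hs' hne μ u => ?_, fun s hs μ => ?_⟩
  · by_cases h1 : s = i + 1
    · subst h1
      simp only [Function.update_self]
      exact hnew μ
    · simp only [hold _ s (by omega)]
      exact h.size s (by omega) μ
  · by_cases h1 : c = i + 1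
    · subst h1
      simp only [Function.update_self, ← ht, hold _ t hti]
      exact ⟨fun x => ⟨(Finset.mem_filter.1 (hf1 x).1).2, (hf1 x).2, trivial⟩, hf2,
        fun e he => hf3 e (Finset.mem_filter.2 ⟨Finset.mem_univ _, he⟩)⟩
    · have h2 := hpar c hc1
      simp only [Function.update_of_ne h1, hold _ (par c) (by omega)]
      exact h.str c hc1 (by omega)
  · by_cases h1 : s = i + 1
    · subst h1
      have h2 : s' ≤ i := by omega
      simp only [Function.update_self, hold _ s' h2]
      by_cases h3 : s' = t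
      · have h4 : (Finset.univ.filter (fun x => cd (f x) = μ ∧ π (ν x s') = u)).card ≤ 1 := by
          apply Finset.card_le_one.2
          intro x hx y hy
          obtain ⟨-, a1, a2⟩ := Finset.mem_filter.1 hx
          obtain ⟨-, a3, a4⟩ := Finset.mem_filter.1 hy
          apply hf2
          apply hsimple
          · rw [(hf1 x).2, (hf1 y).2, ← h3, a2, a4]
          · rw [a1, a3]
        rcases (hsz (i + 1) le_rfl μ).1 with h5 | h5
        · have := hle (fun x => π (ν x s') = u) (fun x => cd (f x)) μ
          rw [hnew, h5, Nat.le_zero] at this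
          rw [this, h5]; simp
        · have a1 : ((Finset.univ.filter (fun x => cd (f x) = μ ∧ π (ν x s') = u)).card : ℝ) ≤ 1 := by
            exact_mod_cast h4
          have a2 : (D : ℝ) ≤ sz (i + 1) μ := Nat.cast_le.2 h5
          nlinarith
      · have h4 := hf5 s' (by omega) (μ, u)
        have h5 := exp_col QS (fun x => ν x t) cu (fun x e => (cd e, π (ν x s')) = (μ, u))
          (fun e => cd e = μ) (E / D) (div_nonneg (by linarith) hD'.le)
          (fun x e h => congrArg Prod.fst h) (fun e _ => by
            rw [hblk, div_mul_eq_mul_div, le_div_iff₀ hD', mul_comm]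
            refine le_trans (mul_le_mul_of_nonneg_left (Nat.cast_le.2 (Finset.card_le_card ?_))
              hD'.le) (h.spread t hti s' h2 (Ne.symm h3) (cu e) u)
            intro x hx
            obtain ⟨-, a1, a2⟩ := Finset.mem_filter.1 hx
            exact Finset.mem_filter.2 ⟨Finset.mem_univ _, a1, congrArg Prod.snd a2⟩)
        rw [hblk2] at h5
        simp only [Prod.mk.injEq] at h4 h5
        exact scale_bound hD (hsz (i + 1) le_rfl μ).1 (by rw [← hnew]; exact hle _ _ _) hΛ0
          (h4.trans (add_le_add h5 le_rfl)) le_rfl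
    · have h2 : s ≤ i := by omega
      by_cases h3 : s' = i + 1
      · subst h3
        simp only [Function.update_self, hold _ s h2]
        have h4 := hf4 s (by omega) (μ, u)
        have h5 := exp_row QS (fun x => ν x t) cu (fun x e => (ν x s, π (cd e)) = (μ, u))
          (fun x => ν x s = μ) 1 D hD hbig (fun x e h => congrArg Prod.fst h) (fun x => by
            apply Finset.card_le_one.2
            intro e he e' he'
            obtain ⟨-, a1, a2⟩ := Finset.mem_filter.1 he
            obtain ⟨-, a3, a4⟩ := Finset.mem_filter.1 he'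
            exact hsimple e e' (by rw [a1, a3]) (congrArg Prod.snd (a2.trans a4.symm)))
        rw [h.size s h2] at h5
        simp only [Prod.mk.injEq] at h4 h5
        exact scale_bound hD (hsz s hs μ).1 (by rw [← h.size s h2]; exact hle _ _ _) hΛ0
          (h4.trans (add_le_add h5 le_rfl)) (by push_cast; linarith)
      · simp only [hold _ s h2, hold _ s' (by omega)]
        refine (h.spread s h2 s' (by omega) hne μ u).trans ?_
        exact mul_le_mul_of_nonneg_right (by linarith) (Nat.cast_nonneg _)
  · have hbad : ∀ x, Bad (fun s => π (Function.update (ν x) (i + 1) (cd (f x)) s)) (i + 1) →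
        BadOr (fun s => π (ν x s)) i (π (cd (f x))) := by
      intro x hx
      apply bad_update
      have : (fun s => π (Function.update (ν x) (i + 1) (cd (f x)) s)) =
          Function.update (fun s => π (ν x s)) (i + 1) (π (cd (f x))) :=
        Function.comp_update π (ν x) (i + 1) (cd (f x))
      rwa [this] at hx
    by_cases h1 : s = i + 1
    · subst h1
      simp only [Function.update_self]
      have h4 := hf7 (μ, π μ)
      have h5 := exp_col QS (fun x => ν x t) cu (fun x e => (cd e, π (cd e)) = (μ, π μ) ∧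
          BadOr (fun s => π (ν x s)) i (π (cd e)))
        (fun e => cd e = μ) ((B + (i + 1 : ℕ) * E) / D) (div_nonneg (by linarith) hD'.le)
        (fun x e h => congrArg Prod.fst h.1) (fun e _ => by
          rw [hblk, div_mul_eq_mul_div, le_div_iff₀ hD', mul_comm]
          have a1 : Finset.univ.filter (fun x => ν x t = cu e ∧ (cd e, π (cd e)) = (μ, π μ) ∧
              BadOr (fun s => π (ν x s)) i (π (cd e))) ⊆
              Finset.univ.filter (fun x => ν x t = cu e ∧ Bad (fun s => π (ν x s)) i) ∪
              ((Finset.range (i + 1)).erase t).biUnion (fun s => Finset.univ.filter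
                (fun x => ν x t = cu e ∧ π (ν x s) = π (cd e))) := by
            intro x hx
            obtain ⟨-, a1, -, a2 | ⟨s, hs, a2⟩⟩ := Finset.mem_filter.1 hx
            · exact Finset.mem_union_left _ (Finset.mem_filter.2 ⟨Finset.mem_univ _, a1, a2⟩)
            · refine Finset.mem_union_right _ (Finset.mem_biUnion.2 ⟨s, Finset.mem_erase.2
                ⟨?_, hs⟩, Finset.mem_filter.2 ⟨Finset.mem_univ _, a1, a2⟩⟩)
              rintro rfl
              exact hloop e (by rw [← a1]; exact a2)
          have a2 := (Finset.card_le_card a1).trans ((Finset.card_union_le _ _).trans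
            (Nat.add_le_add_left Finset.card_biUnion_le _))
          have a3 := mul_le_mul_of_nonneg_left ((Nat.cast_le (α := ℝ)).2 a2) hD'.le
          refine a3.trans ?_
          push_cast
          rw [mul_add, add_mul, Finset.mul_sum]
          apply add_le_add (h.bad t hti (cu e))
          calc _ ≤ ∑ _s ∈ (Finset.range (i + 1)).erase t, E * sz t (cu e) :=
                Finset.sum_le_sum fun s hs => h.spread t hti s
                  (by have := Finset.mem_range.1 (Finset.mem_of_mem_erase hs); omega)
                  (Finset.ne_of_mem_erase hs).symm _ _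
            _ ≤ _ := by
                rw [Finset.sum_const, nsmul_eq_mul, mul_assoc]
                apply mul_le_mul_of_nonneg_right _ (mul_nonneg (by linarith) (Nat.cast_nonneg _))
                have := Finset.card_erase_le (s := Finset.range (i + 1)) (a := t)
                rw [Finset.card_range] at this
                exact_mod_cast this)
      rw [hblk2] at h5
      refine scale_bound hD (hsz (i + 1) le_rfl μ).1 (by rw [← hnew]; exact hle _ _ _) hΛ0
        (le_trans (Nat.cast_le.2 (Finset.card_le_card ?_)) (h4.trans (add_le_add h5 le_rfl))) le_rfl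
      intro x hx
      obtain ⟨-, a1, a2⟩ := Finset.mem_filter.1 hx
      exact Finset.mem_filter.2 ⟨Finset.mem_univ _, by rw [a1], hbad x a2⟩
    · have h2 : s ≤ i := by omega
      simp only [hold _ s h2]
      have h4 := hf6 s (by omega) (μ, π μ)
      have h5 := exp_row QS (fun x => ν x t) cu (fun x e => (ν x s, π (ν x s)) = (μ, π μ) ∧
          Hit (fun s => π (ν x s)) i (π (cd e)))
        (fun x => ν x s = μ) (i + 1) D hD hbig (fun x e h => congrArg Prod.fst h.1) (fun x => by
          refine le_trans ?_ ((Finset.card_image_le (s := Finset.range (i + 1))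
            (f := fun s => π (ν x s))).trans (Finset.card_range _).le)
          apply Finset.card_le_card_of_injOn (fun e => π (cd e))
          · intro e he
            obtain ⟨-, -, -, s, hs, a1⟩ := Finset.mem_filter.1 he
            exact Finset.mem_coe.2 (Finset.mem_image.2 ⟨s, hs, a1⟩)
          · intro e he e' he' a1
            exact hsimple e e' (by
              rw [(Finset.mem_filter.1 he).2.1, (Finset.mem_filter.1 he').2.1]) a1)
      rw [h.size s h2] at h5
      have h6 := scale_bound (F := (i + 1 : ℕ) * E + Λ) hD (hsz s hs μ).1 (by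
        rw [← h.size s h2]
        apply Finset.card_le_card
        intro x hx
        exact Finset.mem_filter.2 ⟨Finset.mem_univ _,
          congrArg Prod.fst (Finset.mem_filter.1 hx).2.1⟩) hΛ0
        (h4.trans (add_le_add h5 le_rfl)) (by linarith)
      have h7 := h.bad s h2 μ
      have h8 : Finset.univ.filter (fun x => ν x s = μ ∧
          Bad (fun s => π (Function.update (ν x) (i + 1) (cd (f x)) s)) (i + 1)) ⊆
          Finset.univ.filter (fun x => ν x s = μ ∧ Bad (fun s => π (ν x s)) i) ∪
          Finset.univ.filter (fun x => (ν x s, π (ν x s)) = (μ, π μ) ∧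
            Hit (fun s => π (ν x s)) i (π (cd (f x)))) := by
        intro x hx
        obtain ⟨-, a1, a2⟩ := Finset.mem_filter.1 hx
        rcases hbad x a2 with a3 | a3
        · exact Finset.mem_union_left _ (Finset.mem_filter.2 ⟨Finset.mem_univ _, a1, a3⟩)
        · exact Finset.mem_union_right _ (Finset.mem_filter.2 ⟨Finset.mem_univ _, by rw [a1], a3⟩)
      have h9 := mul_le_mul_of_nonneg_left ((Nat.cast_le (α := ℝ)).2
        ((Finset.card_le_card h8).trans (Finset.card_union_le _ _))) hD'.le
      push_cast at h9 h6 ⊢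
      linarith

/-- Homomorphic copies of the whole tree with few repetitions. -/
theorem exists_stage {π : C → V} {par : ℕ → ℕ} {col : ι → ℕ} {cu cd : ι → C} {sz : ℕ → C → ℕ}
    {D j m : ℕ} (hD : 0 < D) (hpar : ∀ c, 1 ≤ c → par c < c)
    (hcu : ∀ c, 1 ≤ c → c ≤ m → ∀ μ,
      (Finset.univ.filter (fun e => col e = c ∧ cu e = μ)).card = sz (par c) μ)
    (hcd : ∀ c, 1 ≤ c → c ≤ m → ∀ μ,
      (Finset.univ.filter (fun e => col e = c ∧ cd e = μ)).card = sz c μ)
    (hsz : ∀ s ≤ m, ∀ μ, (sz s μ = 0 ∨ D ≤ sz s μ) ∧ sz s μ ≤ 2 ^ j)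
    (hsimple : ∀ e e', π (cu e) = π (cu e') → π (cd e) = π (cd e') → e = e')
    (hloop : ∀ e, π (cu e) ≠ π (cd e)) (ν0 : H → C) (ε0 : H → ι)
    (h0 : ∀ μ, (Finset.univ.filter (fun x => ν0 x = μ)).card = sz 0 μ) (i : ℕ) (hi : i ≤ m) :
    ∃ (ν : H → ℕ → C) (ε : H → ℕ → ι), Stage π par col cu cd sz D (1 + i * (16 * m * j))
      (i * (m * (1 + m * (16 * m * j)) + 16 * m * j)) i ν ε := by
  induction i with
  | zero =>
    refine ⟨fun x _ => ν0 x, fun x _ => ε0 x, fun s hs μ => ?_, fun c h1 h2 => by omega,
      fun s hs s' hs' hne => by omega, fun s hs μ => ?_⟩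
    · rw [Nat.le_zero.1 hs]; exact h0 μ
    · rw [Finset.filter_eq_empty_iff.2]
      · simp
      · rintro x - ⟨-, s2, h2, s1, h1, -⟩
        rw [Finset.mem_range] at h1 h2
        omega
  | succ i ih =>
    obtain ⟨ν, ε, h⟩ := ih (by omega)
    have hΛ : (0 : ℝ) ≤ 16 * m * j := by positivity
    obtain ⟨ν', ε', h'⟩ := stage_step (j := j) hD (le_add_of_nonneg_right (by positivity))
      (by positivity) hpar (hcu (i + 1) (by omega) hi) (hcd (i + 1) (by omega) hi)
      (fun s hs => hsz s (by omega)) hsimple hloop h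
    have h1 : ((i + 1 : ℕ) : ℝ) ≤ m := Nat.cast_le.2 hi
    have h2 : (16 : ℝ) * (i + 1 : ℕ) * j ≤ 16 * m * j := by gcongr
    have h3 : (i : ℝ) ≤ m := by push_cast at h1; linarith
    have h4 : ((i + 1 : ℕ) : ℝ) * (1 + i * (16 * m * j)) ≤ m * (1 + m * (16 * m * j)) := by gcongr
    refine ⟨ν', ε', h'.size, h'.str, fun s hs s' hs' hne μ u => (h'.spread s hs s' hs' hne μ u).trans
      (mul_le_mul_of_nonneg_right ?_ (Nat.cast_nonneg _)), fun s hs μ => (h'.bad s hs μ).trans
      (mul_le_mul_of_nonneg_right ?_ (Nat.cast_nonneg _))⟩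
    · push_cast at h2 ⊢; linarith
    · push_cast at h2 h4 ⊢; linarith

end Pool.Agent.Lib.MP_ae5681_co
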