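import Pool.Agent.Lib.MP_ae5681_co.Pair

set_option autoImplicit false

namespace Pool.Agent.Lib.MP_ae5681_co

open Finset

variable {V ι : Type*} [Fintype V] [DecidableEq V] [Fintype ι] [DecidableEq ι]

omit [DecidableEq ι] in
/-- The edges of a maximum cut keep half of every cut. -/
lemma exists_maxcut (s t : ι → V) : ∃ X : Finset V, ∀ A : Finset V,
    cutN Finset.univ s t A ≤
      2 * cutN (Finset.univ.filter (fun e => ¬ (s e ∈ X ↔ t e ∈ X))) s t A := by
  obtain ⟨X, -, hX⟩ := Finset.exists_max_image (Finset.univ : Finset (Finset V))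
    (fun X => cutN Finset.univ s t X) ⟨∅, Finset.mem_univ _⟩
  refine ⟨X, fun A => ?_⟩
  have h1 := hX ((X \ A) ∪ (A \ X)) (Finset.mem_univ _)
  unfold cutN at h1 ⊢
  rw [Finset.filter_filter]
  simp only [Finset.card_filter] at h1 ⊢
  rw [Finset.mul_sum]
  have h2 : ∑ e, (if ¬ (s e ∈ A ↔ t e ∈ A) then 1 else 0) +
      ∑ e, (if ¬ (s e ∈ X ↔ t e ∈ X) then 1 else 0) =
      ∑ e, 2 * (if ¬ (s e ∈ X ↔ t e ∈ X) ∧ ¬ (s e ∈ A ↔ t e ∈ A) then 1 else 0) +
      ∑ e, (if ¬ (s e ∈ (X \ A) ∪ (A \ X) ↔ t e ∈ (X \ A) ∪ (A \ X)) then 1 else 0) := by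
    rw [← Finset.sum_add_distrib, ← Finset.sum_add_distrib]
    apply Finset.sum_congr rfl
    intro e _
    by_cases a1 : s e ∈ A <;> by_cases a2 : t e ∈ A <;> by_cases a3 : s e ∈ X <;>
      by_cases a4 : t e ∈ X <;> simp [a1, a2, a3, a4]
  omega

omit [Fintype ι] [DecidableEq ι] in
lemma card_le_of_disjoint {J : Type*} (T : Finset J) (R : J → Finset ι) (S : Finset ι)
    (h : ∀ j ∈ T, ∃ e ∈ R j, e ∈ S) (hd : ∀ j ∈ T, ∀ j' ∈ T, ∀ e, e ∈ R j → e ∈ R j' → j = j') :
    T.card ≤ S.card := by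
  classical
  rcases T.eq_empty_or_nonempty with rfl | ⟨j0, hj0⟩
  · simp
  obtain ⟨e0, -, -⟩ := h j0 hj0
  have h1 : ∀ j, ∃ e, j ∈ T → e ∈ R j ∧ e ∈ S := by
    intro j
    by_cases hj : j ∈ T
    · obtain ⟨e, h2, h3⟩ := h j hj
      exact ⟨e, fun _ => ⟨h2, h3⟩⟩
    · exact ⟨e0, fun h => absurd h hj⟩
  choose f hf using h1
  apply Finset.card_le_card_of_injOn f (fun j hj => (hf j hj).2)
  intro j hj j' hj' hjj
  exact hd j hj j' hj' (f j) (hf j hj).1 (hjj ▸ (hf j' hj').1)

omit [Fintype V] [Fintype ι] [DecidableEq ι] in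
lemma cutN_joins {F : Finset ι} {s t tl hd : ι → V} (h : ∀ e, Joins s t e (tl e) (hd e))
    (A : Finset V) : cutN F tl hd A = cutN F s t A := by
  unfold cutN
  congr 1
  apply Finset.filter_congr
  intro e _
  rcases h e with ⟨h1, h2⟩ | ⟨h1, h2⟩ <;> rw [h1, h2]
  tauto

/-- An orientation with out-degrees divisible by `m` and two highly connected arc sets. -/
lemma exists_orient (s t : ι → V) (m N : ℕ) (hm : 1 ≤ m) (hN : 3 * m ≤ N)
    (hcut : ∀ A : Finset V, A.Nonempty → A ≠ Finset.univ → 12 * N ≤ cutN Finset.univ s t A)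
    (hdvd : m ∣ Fintype.card ι) :
    ∃ (side : V → Bool) (tl hd : ι → V) (F : Bool → Finset ι),
      (∀ e, Joins s t e (tl e) (hd e)) ∧
      (∀ v, m ∣ (Finset.univ.filter (fun e => tl e = v)).card) ∧
      (∀ σ, ∀ e ∈ F σ, side (tl e) = σ ∧ side (hd e) ≠ σ) ∧
      ∀ σ, ∀ A : Finset V, A.Nonempty → A ≠ Finset.univ → N ≤ cutN (F σ) tl hd A := by
  obtain ⟨X, hX⟩ := exists_maxcut s t
  obtain ⟨R, hR1, hR2⟩ := pack (J := Fin 3 × Fin N)
    (Finset.univ.filter (fun e => ¬ (s e ∈ X ↔ t e ∈ X))) s t id 1 one_pos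
    (fun g => Finset.card_le_one.2 fun a ha b hb =>
      (Finset.mem_filter.1 ha).2.trans (Finset.mem_filter.1 hb).2.symm)
    (fun A h1 h2 => by
      have := hcut A h1 h2
      have := hX A
      simp only [Fintype.card_prod, Fintype.card_fin]
      omega)
  set G : Fin 3 → Finset ι := fun i => Finset.univ.biUnion (fun r => R (i, r)) with hG
  have hGc : ∀ i, ∀ A : Finset V, A.Nonempty → A ≠ Finset.univ → N ≤ cutN (G i) s t A := by
    intro i A h1 h2
    have := card_le_of_disjoint (Finset.univ : Finset (Fin N)) (fun r => R (i, r))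
      ((G i).filter (fun e => ¬ (s e ∈ A ↔ t e ∈ A))) (fun r _ => by
        obtain ⟨e, he, hc⟩ := (hR1 (i, r)).2 A h1 h2
        exact ⟨e, he, Finset.mem_filter.2 ⟨Finset.mem_biUnion.2 ⟨r, Finset.mem_univ _, he⟩, hc⟩⟩)
      (fun r _ r' _ e he he' => congrArg Prod.snd (hR2 _ _ e e he he' rfl).2)
    simpa [cutN] using this
  have hGd : ∀ i i' e, e ∈ G i → e ∈ G i' → i = i' := by
    intro i i' e he he'
    obtain ⟨r, -, hr⟩ := Finset.mem_biUnion.1 he
    obtain ⟨r', -, hr'⟩ := Finset.mem_biUnion.1 he'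
    exact congrArg Prod.fst (hR2 _ _ e e hr hr' rfl).2
  have hGx : ∀ i, ∀ e ∈ G i, ¬ (s e ∈ X ↔ t e ∈ X) := by
    intro i e he
    obtain ⟨r, -, hr⟩ := Finset.mem_biUnion.1 he
    exact (Finset.mem_filter.1 ((hR1 _).1 hr)).2
  set o0 : ι → Bool := fun e => if e ∈ G 1 then decide (s e ∈ X) else decide (s e ∉ X) with ho0
  obtain ⟨o1, ho1⟩ := mod_orient hm Finset.univ (G 0) s t
    (fun _ _ => ⟨Finset.mem_univ _, Finset.mem_univ _⟩)
    (fun A _ h1 h2 => hN.trans (hGc 0 A h1 h2))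
    (fun v => -(((Finset.univ \ G 0).filter (fun e => (if o0 e then s e else t e) = v)).card : ℤ))
    (by
      rw [Finset.sum_neg_distrib, ← Nat.cast_sum, ← card_fib _ Finset.univ _
        (fun _ _ => Finset.mem_univ _)]
      have h1 := Finset.card_sdiff_add_card_eq_card (Finset.subset_univ (G 0))
      rw [Finset.card_univ] at h1
      have h2 : (m : ℤ) ∣ (Fintype.card ι : ℤ) := Int.natCast_dvd_natCast.2 hdvd
      refine dvd_eq ((dvd_neg).2 h2) ?_
      omega)
  set o : ι → Bool := fun e => if e ∈ G 0 then o1 e else o0 e with ho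
  have hj : ∀ e, Joins s t e (if o e then s e else t e) (if o e then t e else s e) := by
    intro e
    cases o e
    · exact Or.inr ⟨rfl, rfl⟩
    · exact Or.inl ⟨rfl, rfl⟩
  refine ⟨fun v => decide (v ∈ X), fun e => if o e then s e else t e,
    fun e => if o e then t e else s e, fun σ => if σ then G 1 else G 2, hj, fun v => ?_,
    fun σ e he => ?_, fun σ A h1 h2 => ?_⟩
  · have h1 := ho1 v (Finset.mem_univ _)
    have h2 : (Finset.univ.filter (fun e => (if o e then s e else t e) = v)).card =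
        ((G 0).filter (fun e => (if o1 e then s e else t e) = v)).card +
        ((Finset.univ \ G 0).filter (fun e => (if o0 e then s e else t e) = v)).card := by
      rw [← Finset.card_union_of_disjoint (Finset.disjoint_filter_filter Finset.disjoint_sdiff)]
      congr 1
      ext e
      by_cases he : e ∈ G 0 <;> simp [ho, he]
    rw [← Int.natCast_dvd_natCast, h2]
    refine dvd_eq h1 ?_
    push_cast
    ring
  · cases σ
    · have he : e ∈ G 2 := he
      have h0 : e ∉ G 0 := fun h => absurd (hGd _ _ e h he) (by decide)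
      have h1 : e ∉ G 1 := fun h => absurd (hGd _ _ e h he) (by decide)
      have h2 := hGx 2 e he
      by_cases a1 : s e ∈ X <;> by_cases a2 : t e ∈ X <;> simp [ho, ho0, h0, h1, a1, a2] at h2 ⊢
    · have he : e ∈ G 1 := he
      have h0 : e ∉ G 0 := fun h => absurd (hGd _ _ e h he) (by decide)
      have h2 := hGx 1 e he
      by_cases a1 : s e ∈ X <;> by_cases a2 : t e ∈ X <;> simp [ho, ho0, h0, he, a1, a2] at h2 ⊢
  · rw [cutN_joins hj]
    cases σ
    · exact hGc 2 A h1 h2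
    · exact hGc 1 A h1 h2

/-- Connected arc sets for all jobs that use few arcs at each tail. -/
lemma exists_jobs {Job : Type*} [Fintype Job] [DecidableEq Job] [Inhabited Job] (side : V → Bool)
    (tl hd : ι → V) (F : Bool → Finset ι) (M : ℕ) (hM : 0 < M)
    (hF : ∀ σ, ∀ e ∈ F σ, side (tl e) = σ ∧ side (hd e) ≠ σ)
    (hcut : ∀ σ, ∀ A : Finset V, A.Nonempty → A ≠ Finset.univ →
      2 * Fintype.card Job * M ≤ cutN (F σ) tl hd A) :
    ∃ (Us : Finset ι) (w : ι → Job), (∀ e ∈ Us, side (hd e) ≠ side (tl e)) ∧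
      (∀ σ jb, Conn (Us.filter (fun e => side (tl e) = σ ∧ w e = jb)) tl hd) ∧
      ∀ v, (Us.filter (fun e => tl e = v)).card ≤
        (Finset.univ.filter (fun e => tl e = v)).card / M + 1 := by
  obtain ⟨g, hg1, hg2, -⟩ := exists_groups (Finset.univ : Finset ι) tl M hM
  have h1 := fun σ => pack (J := Job) (F σ) tl hd (fun e => (tl e, g e)) M hM (fun x => by
    refine le_trans (Finset.card_le_card ?_) (hg1 x.1 x.2)
    intro e he
    have := (Finset.mem_filter.1 he).2
    exact Finset.mem_filter.2 ⟨Finset.mem_univ _, by rw [← this]; exact ⟨rfl, rfl⟩⟩) (hcut σ)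
  choose R hR1 hR2 using h1
  have h2 : ∀ e, ∃ jb, ∀ jb', e ∈ R (side (tl e)) jb' → jb = jb' := by
    intro e
    by_cases h : ∃ jb, e ∈ R (side (tl e)) jb
    · obtain ⟨jb, h⟩ := h
      exact ⟨jb, fun jb' h' => (hR2 _ _ _ e e h h' rfl).2⟩
    · exact ⟨default, fun jb' h' => absurd ⟨jb', h'⟩ h⟩
  choose w hw using h2
  refine ⟨Finset.univ.filter (fun e => e ∈ R (side (tl e)) (w e)), w, fun e he => ?_,
    fun σ jb => ?_, fun v => ?_⟩
  · have := (hF _ e ((hR1 _ _).1 (Finset.mem_filter.1 he).2)).2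
    exact this
  · apply (hR1 σ jb).2.mono
    intro e he
    have h3 := (hF _ e ((hR1 _ _).1 he)).1
    have h4 : w e = jb := hw e jb (h3 ▸ he)
    simp only [Finset.mem_filter, Finset.mem_univ, true_and]
    exact ⟨by rw [h3, h4]; exact he, h3, h4⟩
  · rw [← Finset.card_range ((Finset.univ.filter (fun e => tl e = v)).card / M + 1)]
    apply Finset.card_le_card_of_injOn g
    · intro e he
      have h3 := (Finset.mem_filter.1 he).2
      have h4 := hg2 e (Finset.mem_univ _)
      rw [h3] at h4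
      exact Finset.mem_coe.2 (Finset.mem_range.2 (by omega))
    · intro e he e' he' h
      obtain ⟨h3, h4⟩ := Finset.mem_filter.1 he
      obtain ⟨h5, h6⟩ := Finset.mem_filter.1 he'
      have h7 := (Finset.mem_filter.1 h3).2
      have h8 := (Finset.mem_filter.1 h5).2
      rw [h4] at h7
      rw [h6] at h8
      exact (hR2 _ _ _ e e' h7 h8 (by simp only [h4, h6, h])).1

end Pool.Agent.Lib.MP_ae5681_co
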