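import Pool.Agent.Lib.MP_ae5681_co.Colour1

set_option autoImplicit false

namespace Pool.Agent.Lib.MP_ae5681_co

open Finset

/-- An involution exchanging `B` with its partners. -/
lemma exists_invol {ι : Type*} [DecidableEq ι] (B : Finset ι) (ρ : ι → ι) (hinj : Set.InjOn ρ B)
    (hout : ∀ e ∈ B, ρ e ∉ B) :
    ∃ π : ι → ι, (∀ e, π (π e) = e) ∧ (∀ e ∈ B, π e = ρ e) ∧
      ∀ e, e ∉ B → e ∉ B.image ρ → π e = e := by
  have h1 : ∀ e, ∃ e', (e ∈ B.image ρ → e' ∈ B ∧ ρ e' = e) ∧ (e ∉ B.image ρ → e' = e) := by
    intro e
    by_cases h : e ∈ B.image ρ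
    · obtain ⟨e', h1, h2⟩ := Finset.mem_image.1 h
      exact ⟨e', fun _ => ⟨h1, h2⟩, fun h' => absurd h h'⟩
    · exact ⟨e, fun h' => absurd h' h, fun _ => rfl⟩
  choose inv hi1 hi2 using h1
  refine ⟨fun e => if e ∈ B then ρ e else inv e, fun e => ?_, fun e he => if_pos he,
    fun e h1 h2 => ?_⟩
  · by_cases he : e ∈ B
    · simp only [if_pos he, if_neg (hout e he)]
      obtain ⟨h2, h3⟩ := hi1 (ρ e) (Finset.mem_image_of_mem _ he)
      exact hinj h2 he h3
    · simp only [if_neg he]
      by_cases h2 : e ∈ B.image ρ
      · obtain ⟨h3, h4⟩ := hi1 e h2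
        rw [if_pos h3, h4]
      · rw [hi2 e h2, if_neg he, hi2 e h2]
  · simp only [if_neg h1]
    exact hi2 e h2

lemma card_filter_invol {ι : Type*} [Fintype ι] (π : ι → ι) (hπ : ∀ e, π (π e) = e)
    (P : ι → Prop) [DecidablePred P] :
    (Finset.univ.filter (fun e => P (π e))).card = (Finset.univ.filter P).card := by
  apply Finset.card_bij (fun e _ => π e)
  · intro e he
    exact Finset.mem_filter.2 ⟨Finset.mem_univ _, (Finset.mem_filter.1 he).2⟩
  · intro e _ e' _ h
    rw [← hπ e, h, hπ]
  · intro e he
    exact ⟨π e, Finset.mem_filter.2 ⟨Finset.mem_univ _, by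
      rw [hπ]; exact (Finset.mem_filter.1 he).2⟩, hπ e⟩

variable {V ι J : Type*} [Fintype V] [DecidableEq V] [Fintype ι] [DecidableEq ι] [Fintype J]
  [DecidableEq J]

omit [Fintype V] in
/-- Moving inside arcs to the slack class to fix the residues. -/
lemma fix_inside (side : V → Bool) (tl hd : ι → V) (b : J → ℕ) (l : J) (hl : b l = 1) (n : ℕ) :
    ∀ (cls : ι → J) (Sp : Finset ι), (∀ e ∈ Sp, cls e = l ∧ side (hd e) ≠ side (tl e)) →
      (∀ v, n ≤ (Sp.filter (fun e => tl e = v)).card) →
      ∑ x : Bool × J, (Finset.univ.filter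
        (fun e => cls e = x.2 ∧ side (tl e) = x.1 ∧ side (hd e) = x.1)).card % b x.2 ≤ n →
      ∃ cls' : ι → J, (∀ v j, (Finset.univ.filter (fun e => cls' e = j ∧ tl e = v)).card =
          (Finset.univ.filter (fun e => cls e = j ∧ tl e = v)).card) ∧
        (∀ σ j, b j ∣ (Finset.univ.filter
          (fun e => cls' e = j ∧ side (tl e) = σ ∧ side (hd e) = σ)).card) ∧
        ∀ e, e ∉ Sp → side (hd e) ≠ side (tl e) → cls' e = cls e := by
  induction n with
  | zero =>
    intro cls Sp _ _ h
    refine ⟨cls, fun _ _ => rfl, fun σ j => ?_, fun _ _ _ => rfl⟩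
    exact Nat.dvd_of_mod_eq_zero
      (Finset.sum_eq_zero_iff.1 (Nat.le_zero.1 h) (σ, j) (Finset.mem_univ _))
  | succ n ih =>
    intro cls Sp hSp hn h
    by_cases h0 : ∀ σ j, b j ∣ (Finset.univ.filter
        (fun e => cls e = j ∧ side (tl e) = σ ∧ side (hd e) = σ)).card
    · exact ⟨cls, fun _ _ => rfl, h0, fun _ _ _ => rfl⟩
    push Not at h0
    obtain ⟨σ, j, hj⟩ := h0
    have hjl : j ≠ l := by
      rintro rfl
      exact hj (by rw [hl]; exact one_dvd _)
    obtain ⟨e, he⟩ : (Finset.univ.filter
        (fun e => cls e = j ∧ side (tl e) = σ ∧ side (hd e) = σ)).Nonempty := by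
      rw [← Finset.card_pos]
      by_contra h1
      exact hj (by rw [Nat.eq_zero_of_not_pos h1]; exact dvd_zero _)
    obtain ⟨-, he1, he2, he3⟩ := Finset.mem_filter.1 he
    obtain ⟨e', he'⟩ : (Sp.filter (fun f => tl f = tl e)).Nonempty := by
      rw [← Finset.card_pos]
      have := hn (tl e)
      omega
    obtain ⟨he'1, he'2⟩ := Finset.mem_filter.1 he'
    obtain ⟨he'3, he'4⟩ := hSp e' he'1
    have hne : e ≠ e' := by
      rintro rfl
      exact he'4 (he3.trans he2.symm)
    have heSp : e ∉ Sp := fun h1 => (hSp e h1).2 (he3.trans he2.symm)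
    have hsw : ∀ f, tl (Equiv.swap e e' f) = tl f := by
      intro f
      by_cases a1 : f = e
      · rw [a1, Equiv.swap_apply_left, he'2]
      by_cases a2 : f = e'
      · rw [a2, Equiv.swap_apply_right, he'2]
      rw [Equiv.swap_apply_of_ne_of_ne a1 a2]
    have hset : ∀ σ' j', j' ≠ l → Finset.univ.filter (fun f => cls (Equiv.swap e e' f) = j' ∧
        side (tl f) = σ' ∧ side (hd f) = σ') = (Finset.univ.filter
          (fun f => cls f = j' ∧ side (tl f) = σ' ∧ side (hd f) = σ')).erase e := by
      intro σ' j' hj'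
      ext f
      simp only [Finset.mem_filter, Finset.mem_univ, true_and, Finset.mem_erase]
      by_cases a1 : f = e
      · rw [a1, Equiv.swap_apply_left, he'3]
        simp [hj'.symm]
      by_cases a2 : f = e'
      · rw [a2]
        constructor
        · rintro ⟨-, h2, h3⟩; exact absurd (h3.trans h2.symm) he'4
        · rintro ⟨-, -, h2, h3⟩; exact absurd (h3.trans h2.symm) he'4
      rw [Equiv.swap_apply_of_ne_of_ne a1 a2]
      simp [a1]
    obtain ⟨cls', h1, h2, h3⟩ := ih (fun f => cls (Equiv.swap e e' f)) (Sp.erase e')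
      (fun f hf => by
        obtain ⟨a1, a2⟩ := Finset.mem_erase.1 hf
        rw [Equiv.swap_apply_of_ne_of_ne (fun h : f = e => heSp (h ▸ a2)) a1]
        exact hSp f a2)
      (fun v => by
        rw [Finset.filter_erase]
        have := hn v
        have := Finset.pred_card_le_card_erase (s := Sp.filter (fun e => tl e = v)) (a := e')
        omega)
      (by
        refine Nat.le_of_lt_succ (lt_of_lt_of_le (Finset.sum_lt_sum (fun x _ => ?_)
          ⟨(σ, j), Finset.mem_univ _, ?_⟩) h)
        · by_cases a1 : x.2 = l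
          · rw [a1, hl, Nat.mod_one]; exact Nat.zero_le _
          rw [hset _ _ a1]
          by_cases a2 : e ∈ Finset.univ.filter
              (fun f => cls f = x.2 ∧ side (tl f) = x.1 ∧ side (hd f) = x.1)
          · obtain ⟨-, a3, a4, -⟩ := Finset.mem_filter.1 a2
            have a5 : x.2 = j := a3.symm.trans he1
            have a6 : x.1 = σ := a4.symm.trans he2
            rw [a5, a6, Finset.card_erase_of_mem he]
            have a7 := Nat.pos_of_ne_zero (fun h => hj (Nat.dvd_of_mod_eq_zero h))
            generalize (Finset.univ.filter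
              (fun e => cls e = j ∧ side (tl e) = σ ∧ side (hd e) = σ)).card = c at a7 ⊢
            have a8 := Nat.div_add_mod c (b j)
            have a9 : c - 1 = (c % b j - 1) + b j * (c / b j) := by omega
            rw [a9, Nat.add_mul_mod_self_left]
            exact (Nat.mod_le _ _).trans (Nat.sub_le _ _)
          · rw [Finset.erase_eq_of_notMem a2]
        · simp only
          rw [hset _ _ hjl, Finset.card_erase_of_mem he]
          have a7 := Nat.pos_of_ne_zero (fun h => hj (Nat.dvd_of_mod_eq_zero h))
          generalize (Finset.univ.filter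
            (fun e => cls e = j ∧ side (tl e) = σ ∧ side (hd e) = σ)).card = c at a7 ⊢
          have a8 := Nat.div_add_mod c (b j)
          have a9 : c - 1 = (c % b j - 1) + b j * (c / b j) := by omega
          rw [a9, Nat.add_mul_mod_self_left]
          exact lt_of_le_of_lt (Nat.mod_le _ _) (by omega))
    refine ⟨cls', fun v j' => ?_, h2, fun f hf1 hf2 => ?_⟩
    · rw [h1, ← card_filter_invol (Equiv.swap e e') (Equiv.swap_apply_self e e')
        (fun f => cls f = j' ∧ tl f = v)]
      simp only [hsw]
    · rw [h3 f (fun h => hf1 (Finset.mem_of_mem_erase h)) hf2,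
        Equiv.swap_apply_of_ne_of_ne (fun h : f = e => hf2 (by rw [h, he2, he3]))
          (fun h : f = e' => hf1 (h ▸ he'1))]

omit [Fintype J] in
/-- Swapping classes inside pairs to make all in-degrees divisible. -/
lemma fix_heads (side : V → Bool) (tl hd : ι → V) (b : J → ℕ) (hb : ∀ j, 1 ≤ b j) (l : J)
    (hl : b l = 1) (cls : ι → J)
    (hq : ∀ v j, b j ∣ (Finset.univ.filter (fun e => cls e = j ∧ tl e = v)).card)
    (hin : ∀ σ j, b j ∣ (Finset.univ.filter
      (fun e => cls e = j ∧ side (tl e) = σ ∧ side (hd e) = σ)).card)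
    (P : Finset ι) (mate : ι → ι) (hinj : Set.InjOn mate P)
    (hP : ∀ e ∈ P, cls e ≠ l ∧ cls (mate e) = l ∧ tl (mate e) = tl e ∧
      side (hd e) ≠ side (tl e) ∧ side (hd (mate e)) ≠ side (tl e))
    (hcut : ∀ σ j, j ≠ l → ∀ A ⊆ Finset.univ.filter (fun v => side v ≠ σ), A.Nonempty →
      A ≠ Finset.univ.filter (fun v => side v ≠ σ) →
        3 * b j ≤ cutN (P.filter (fun e => cls e = j ∧ side (tl e) = σ)) hd (fun e => hd (mate e)) A) :
    ∃ cls' : ι → J, (∀ v j, (Finset.univ.filter (fun e => cls' e = j ∧ tl e = v)).card =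
        (Finset.univ.filter (fun e => cls e = j ∧ tl e = v)).card) ∧
      (∀ v j, b j ∣ (Finset.univ.filter (fun e => cls' e = j ∧ hd e = v)).card) ∧
      ∀ e, e ∉ P → e ∉ P.image mate → cls' e = cls e := by
  have key : ∀ σ j, ∃ o : ι → Bool, j ≠ l → ∀ y, side y ≠ σ →
      (b j : ℤ) ∣ (((P.filter (fun e => cls e = j ∧ side (tl e) = σ)).filter
        (fun e => (if o e then hd e else hd (mate e)) = y)).card : ℤ) +
        (((Finset.univ \ P).filter (fun e => cls e = j ∧ hd e = y)).card : ℤ) := by
    intro σ j
    by_cases hj : j = l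
    · exact ⟨fun _ => true, fun h => absurd hj h⟩
    obtain ⟨o, ho⟩ := mod_orient (hb j) (Finset.univ.filter (fun v => side v ≠ σ))
      (P.filter (fun e => cls e = j ∧ side (tl e) = σ)) hd (fun e => hd (mate e))
      (fun e he => by
        obtain ⟨h1, -, h2⟩ := Finset.mem_filter.1 he
        obtain ⟨-, -, -, h3, h4⟩ := hP e h1
        simp only [Finset.mem_filter, Finset.mem_univ, true_and]
        exact ⟨h2 ▸ h3, h2 ▸ h4⟩)
      (hcut σ j hj)
      (fun y => -(((Finset.univ \ P).filter (fun e => cls e = j ∧ hd e = y)).card : ℤ))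
      (by
        have h1 : ∑ y ∈ Finset.univ.filter (fun v => side v ≠ σ),
            ((Finset.univ \ P).filter (fun e => cls e = j ∧ hd e = y)).card =
            ((Finset.univ \ P).filter (fun e => cls e = j ∧ side (hd e) ≠ σ)).card := by
          rw [card_fib ((Finset.univ \ P).filter (fun e => cls e = j ∧ side (hd e) ≠ σ))
            (Finset.univ.filter (fun v => side v ≠ σ)) hd (fun e he =>
              Finset.mem_filter.2 ⟨Finset.mem_univ _, (Finset.mem_filter.1 he).2.2⟩)]
          apply Finset.sum_congr rfl
          intro y hy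
          rw [Finset.filter_filter]
          congr 1
          apply Finset.filter_congr
          intro e _
          have := (Finset.mem_filter.1 hy).2
          constructor
          · rintro ⟨h2, h3⟩; exact ⟨⟨h2, h3 ▸ this⟩, h3⟩
          · rintro ⟨⟨h2, _⟩, h3⟩; exact ⟨h2, h3⟩
        have h2 : b j ∣ (Finset.univ.filter (fun e => cls e = j ∧ side (tl e) = σ)).card := by
          rw [card_fib _ (Finset.univ.filter (fun v => side v = σ)) tl (fun e he =>
              Finset.mem_filter.2 ⟨Finset.mem_univ _, (Finset.mem_filter.1 he).2.2⟩)]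
          apply Finset.dvd_sum
          intro v hv
          have := (Finset.mem_filter.1 hv).2
          rw [Finset.filter_filter, Finset.filter_congr (q := fun e => cls e = j ∧ tl e = v)]
          · exact hq v j
          · intro e _
            constructor
            · rintro ⟨⟨h2, _⟩, h3⟩; exact ⟨h2, h3⟩
            · rintro ⟨h2, h3⟩; exact ⟨⟨h2, h3 ▸ this⟩, h3⟩
        have h3 : ((Finset.univ \ P).filter (fun e => cls e = j ∧ side (hd e) ≠ σ)).card +
            (P.filter (fun e => cls e = j ∧ side (tl e) = σ)).card +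
            (Finset.univ.filter
              (fun e => cls e = j ∧ side (tl e) = σ ∧ side (hd e) = σ)).card =
            (Finset.univ.filter (fun e => cls e = j ∧ side (tl e) = σ)).card +
            (Finset.univ.filter
              (fun e => cls e = j ∧ side (tl e) = !σ ∧ side (hd e) = !σ)).card := by
          have e1 : (Finset.univ \ P).filter (fun e => cls e = j ∧ side (hd e) ≠ σ) =
              Finset.univ.filter (fun e => e ∉ P ∧ cls e = j ∧ side (hd e) ≠ σ) := by
            ext e; simp
          have e2 : P.filter (fun e => cls e = j ∧ side (tl e) = σ) =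
              Finset.univ.filter (fun e => e ∈ P ∧ cls e = j ∧ side (tl e) = σ) := by
            ext e; simp
          rw [e1, e2]
          simp only [Finset.card_filter]
          rw [← Finset.sum_add_distrib, ← Finset.sum_add_distrib, ← Finset.sum_add_distrib]
          apply Finset.sum_congr rfl
          intro e _
          by_cases a1 : e ∈ P
          · have a2 := (hP e a1).2.2.2.1
            by_cases a3 : cls e = j <;> cases σ <;> cases a4 : side (tl e) <;>
              cases a5 : side (hd e) <;> simp [a1, a3, a4, a5] at a2 ⊢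
          · by_cases a3 : cls e = j <;> cases σ <;> cases a4 : side (tl e) <;>
              cases a5 : side (hd e) <;> simp [a1, a3]
        rw [Finset.sum_neg_distrib, ← Nat.cast_sum, h1]
        have h4 := Int.natCast_dvd_natCast.2 h2
        have h5 := Int.natCast_dvd_natCast.2 (hin σ j)
        have h6 := Int.natCast_dvd_natCast.2 (hin (!σ) j)
        refine dvd_eq (dvd_sub (dvd_sub h5 h4) h6) ?_
        omega)
    refine ⟨o, fun _ y hy => ?_⟩
    have := ho y (Finset.mem_filter.2 ⟨Finset.mem_univ _, hy⟩)
    simpa using this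
  choose O hO using key
  set Sw := P.filter (fun e => O (side (tl e)) (cls e) e = false) with hSw
  have hSwP : Sw ⊆ P := Finset.filter_subset _ _
  obtain ⟨π, hπ1, hπ2, hπ3⟩ := exists_invol Sw mate (hinj.mono hSwP)
    (fun e he h => (hP _ (hSwP h)).1 (hP e (hSwP he)).2.1)
  have hπtl : ∀ e, tl (π e) = tl e := by
    intro e
    by_cases a1 : e ∈ Sw
    · rw [hπ2 e a1]; exact (hP e (hSwP a1)).2.2.1
    by_cases a2 : e ∈ Sw.image mate
    · obtain ⟨f, hf, rfl⟩ := Finset.mem_image.1 a2
      rw [← hπ2 f hf, hπ1, hπ2 f hf]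
      exact (hP f (hSwP hf)).2.2.1.symm
    · rw [hπ3 e a1 a2]
  refine ⟨fun e => cls (π e), fun v j => ?_, fun y j => ?_, fun e h1 h2 => ?_⟩
  · rw [← card_filter_invol π hπ1 (fun f => cls f = j ∧ tl f = v)]
    simp only [hπtl]
  · by_cases hj : j = l
    · rw [hj, hl]; exact one_dvd _
    have h1 := hO (!side y) j hj y (by simp)
    rw [← card_filter_invol π hπ1]
    simp only [hπ1]
    have h2 : Finset.univ.filter (fun e => cls e = j ∧ hd (π e) = y) =
        ((P.filter (fun e => cls e = j ∧ side (tl e) = !side y)).filter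
          (fun e => (if O (!side y) j e then hd e else hd (mate e)) = y)) ∪
        ((Finset.univ \ P).filter (fun e => cls e = j ∧ hd e = y)) := by
      ext e
      simp only [Finset.mem_filter, Finset.mem_univ, true_and, Finset.mem_union, Finset.mem_sdiff]
      by_cases a0 : cls e = j
      · have a2 : e ∉ Sw.image mate := by
          intro a2
          obtain ⟨f, hf, rfl⟩ := Finset.mem_image.1 a2
          exact hj (a0.symm.trans (hP f (hSwP hf)).2.1)
        by_cases a1 : e ∈ P
        · obtain ⟨-, -, -, a3, a4⟩ := hP e a1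
          have a5 : hd (π e) = if O (side (tl e)) j e then hd e else hd (mate e) := by
            by_cases a6 : e ∈ Sw
            · have := (Finset.mem_filter.1 a6).2
              rw [a0] at this
              rw [hπ2 e a6, this]; rfl
            · have : O (side (tl e)) j e = true := by
                by_contra a7
                exact a6 (Finset.mem_filter.2 ⟨a1, by rw [a0]; simpa using a7⟩)
              rw [hπ3 e a6 a2, this]; rfl
          simp only [a0, a1, true_and, not_true_eq_false, false_and, or_false]
          constructor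
          · intro a6
            have a7 : side (tl e) = !side y := by
              rw [← a6, a5]
              split_ifs
              · revert a3; cases side (tl e) <;> cases side (hd e) <;> simp
              · revert a4; cases side (tl e) <;> cases side (hd (mate e)) <;> simp
            exact ⟨a7, by rw [← a7, ← a5]; exact a6⟩
          · rintro ⟨a6, a7⟩
            rw [a5, a6]; exact a7
        · rw [hπ3 e (fun h => a1 (hSwP h)) a2]
          simp [a0, a1]
      · simp [a0]
    rw [h2, Finset.card_union_of_disjoint, ← Int.natCast_dvd_natCast]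
    · push_cast
      exact h1
    · exact Finset.disjoint_left.2 fun e he he' =>
        (Finset.mem_sdiff.1 (Finset.mem_filter.1 he').1).2
          (Finset.mem_filter.1 (Finset.mem_filter.1 he).1).1
  · simp only
    rw [hπ3 e (fun h => h1 (hSwP h)) (fun h => h2 (Finset.image_subset_image hSwP h))]

end Pool.Agent.Lib.MP_ae5681_co
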