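import Pool.Agent.Lib.MP_ae5681_co.Colour2

set_option autoImplicit false

namespace Pool.Agent.Lib.MP_ae5681_co

open Finset

variable {V ι J : Type*} [Fintype V] [DecidableEq V] [Fintype ι] [DecidableEq ι] [Fintype J]
  [DecidableEq J]

omit [Fintype J] in
/-- Global pairs from the jobs. -/
lemma exists_global_pairs {L : ℕ} (side : V → Bool) (tl hd : ι → V) (l : J) (Us : Finset ι)
    (w : ι → J × Fin 3 × Fin L) (hUs : ∀ e ∈ Us, side (hd e) ≠ side (tl e))
    (hc : ∀ σ jb, Conn (Us.filter (fun e => side (tl e) = σ ∧ w e = jb)) tl hd) :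
    ∃ (P : Finset ι) (mate : ι → ι), Set.InjOn mate P ∧
      (∀ e ∈ P, e ∈ Us ∧ (w e).1 ≠ l ∧ (w e).2.1 ≠ 0 ∧ mate e ∈ Us ∧ mate e ∉ P ∧
        (w (mate e)).1 ≠ l ∧ (w (mate e)).2.1 ≠ 0 ∧ tl (mate e) = tl e) ∧
      ∀ σ j, j ≠ l → ∀ A ⊆ Finset.univ.filter (fun v => side v ≠ σ), A.Nonempty →
        A ≠ Finset.univ.filter (fun v => side v ≠ σ) →
          L ≤ cutN (P.filter (fun e => (w e).1 = j ∧ side (tl e) = σ)) hd
            (fun e => hd (mate e)) A := by
  have h1 := fun (σ : Bool) (j : J) (r : Fin L) => exists_pairs (hc σ (j, 1, r)) (hc σ (j, 2, r))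
    (Finset.disjoint_left.2 fun e he he' => by
      have a1 := (Finset.mem_filter.1 he).2.2
      have a2 := (Finset.mem_filter.1 he').2.2
      rw [a1] at a2
      simp at a2)
    (Finset.univ.filter (fun v => side v ≠ σ)) (fun e he => by
      have : e ∈ Us ∧ side (tl e) = σ := by
        rcases Finset.mem_union.1 he with h | h <;>
          exact ⟨(Finset.mem_filter.1 h).1, (Finset.mem_filter.1 h).2.1⟩
      simp only [Finset.mem_filter, Finset.mem_univ, true_and, not_not]
      exact ⟨this.2, this.2 ▸ hUs e this.1⟩)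
  choose Pl mt hP1 hP2 hP3 hP4 using h1
  have hmem : ∀ σ j r e, e ∈ Us.filter (fun e => side (tl e) = σ ∧ w e = (j, 1, r)) ∪
      Us.filter (fun e => side (tl e) = σ ∧ w e = (j, 2, r)) →
      e ∈ Us ∧ side (tl e) = σ ∧ (w e).1 = j ∧ (w e).2.1 ≠ 0 ∧ (w e).2.2 = r := by
    intro σ j r e he
    rcases Finset.mem_union.1 he with h | h <;> obtain ⟨a1, a2, a3⟩ := Finset.mem_filter.1 h <;>
      rw [a3] <;> exact ⟨a1, a2, rfl, by simp, rfl⟩
  refine ⟨Finset.univ.filter (fun e => e ∈ Pl (side (tl e)) (w e).1 (w e).2.2 ∧ (w e).1 ≠ l),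
    fun e => mt (side (tl e)) (w e).1 (w e).2.2 e, fun e he e' he' h => ?_, fun e he => ?_,
    fun σ j hj A hA h2 h3 => ?_⟩
  · obtain ⟨-, a1, -⟩ := Finset.mem_filter.1 he
    obtain ⟨-, a2, -⟩ := Finset.mem_filter.1 he'
    obtain ⟨-, b1, b2, -, b3⟩ := hmem _ _ _ _ (hP2 _ _ _ e a1).1
    obtain ⟨-, c1, c2, -, c3⟩ := hmem _ _ _ _ (hP2 _ _ _ e' a2).1
    simp only at h
    rw [h] at b1 b2 b3
    have d1 := c1.symm.trans b1
    have d2 := c2.symm.trans b2
    have d3 := c3.symm.trans b3
    rw [d1, d2, d3] at a2 h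
    exact hP3 _ _ _ a1 a2 h
  · obtain ⟨-, a1, a2⟩ := Finset.mem_filter.1 he
    obtain ⟨b1, -, -, b2, -⟩ := hmem _ _ _ _ (hP1 _ _ _ a1)
    obtain ⟨c0, c1, c2⟩ := hP2 _ _ _ e a1
    obtain ⟨d0, d1, d2, d3, d4⟩ := hmem _ _ _ _ c0
    refine ⟨b1, a2, b2, d0, fun h => c1 ?_, by rw [d2]; exact a2, d3, c2⟩
    have := (Finset.mem_filter.1 h).2.1
    rwa [d1, d2, d4] at this
  · have := card_le_of_disjoint (Finset.univ : Finset (Fin L)) (fun r => Pl σ j r)
      (((Finset.univ.filter (fun e => e ∈ Pl (side (tl e)) (w e).1 (w e).2.2 ∧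
        (w e).1 ≠ l)).filter (fun e => (w e).1 = j ∧ side (tl e) = σ)).filter
          (fun e => ¬ (hd e ∈ A ↔ hd (mt (side (tl e)) (w e).1 (w e).2.2 e) ∈ A)))
      (fun r _ => by
        obtain ⟨e, he, h4⟩ := hP4 σ j r A hA h2 h3
        obtain ⟨-, b1, b2, -, b3⟩ := hmem _ _ _ _ (hP1 _ _ _ he)
        refine ⟨e, he, ?_⟩
        simp only [Finset.mem_filter, Finset.mem_univ, true_and, b1, b2, b3]
        exact ⟨⟨⟨he, hj⟩, trivial⟩, h4⟩)
      (fun r _ r' _ e he he' => by
        rw [← (hmem _ _ _ _ (hP1 _ _ _ he)).2.2.2.2, (hmem _ _ _ _ (hP1 _ _ _ he')).2.2.2.2])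
    simpa [cutN] using this

omit [Fintype ι] [DecidableEq ι] in
lemma Conn.at [Nontrivial V] {R : Finset ι} {tl hd : ι → V} (h : Conn R tl hd) (v : V) :
    ∃ e ∈ R, tl e = v ∨ hd e = v := by
  obtain ⟨e, he, h1⟩ := h {v} (by simp) (by
    obtain ⟨w, hw⟩ := exists_ne v
    intro h2
    have : w ∈ ({v} : Finset V) := by rw [h2]; exact Finset.mem_univ _
    exact hw (Finset.mem_singleton.1 this))
  refine ⟨e, he, ?_⟩
  simp only [Finset.mem_singleton] at h1
  tauto

/-- An orientation and a partition of the arcs into classes with equitable degrees. -/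
theorem exists_classes [Nontrivial V] (s t : ι → V) (b : J → ℕ) (hb : ∀ j, 1 ≤ b j) (l : J)
    (hl : b l = 1) (m D : ℕ) (hm : ∑ j, b j = m) (hD : 3 ≤ D)
    (hcut : ∀ A : Finset V, A.Nonempty → A ≠ Finset.univ →
      12 * (12 * D * m ^ 3) ≤ cutN Finset.univ s t A)
    (hdvd : m ∣ Fintype.card ι) :
    ∃ (tl hd : ι → V) (q : V → ℕ) (cls : ι → J), (∀ e, Joins s t e (tl e) (hd e)) ∧
      (∀ v, D ≤ q v) ∧
      (∀ v j, (Finset.univ.filter (fun e => cls e = j ∧ tl e = v)).card = b j * q v) ∧
      (∀ v j, b j ∣ (Finset.univ.filter (fun e => cls e = j ∧ hd e = v)).card) ∧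
      ∀ v j, D * b j ≤ (Finset.univ.filter (fun e => cls e = j ∧ hd e = v)).card := by
  have hbm : ∀ j, b j ≤ m := fun j =>
    hm ▸ Finset.single_le_sum (fun _ _ => Nat.zero_le _) (Finset.mem_univ j)
  have hm1 : 1 ≤ m := hl ▸ hbm l
  have hJ : Fintype.card J ≤ m := by
    rw [← hm, ← Finset.card_univ, Finset.card_eq_sum_ones]
    exact Finset.sum_le_sum fun j _ => hb j
  have hm3 : m ≤ m ^ 3 := Nat.le_self_pow (by norm_num) m
  have hN : D * m ≤ 12 * D * m ^ 3 := by nlinarith
  obtain ⟨side, tl, hd, F, hj, hout, hF, hFc⟩ := exists_orient s t m (12 * D * m ^ 3) hm1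
    (le_trans (Nat.mul_le_mul_right m hD) hN) hcut hdvd
  have hL : 0 < D * m := by positivity
  have : Inhabited (J × Fin 3 × Fin (D * m)) := ⟨(l, 0, ⟨0, hL⟩)⟩
  have : Inhabited J := ⟨l⟩
  obtain ⟨Us, w, hUs, hc, hfew⟩ := exists_jobs (Job := J × Fin 3 × Fin (D * m)) side tl hd F
    (2 * m) (by omega) hF (fun σ A h1 h2 => by
      refine le_trans ?_ (hFc σ A h1 h2)
      simp only [Fintype.card_prod, Fintype.card_fin]
      calc 2 * (Fintype.card J * (3 * (D * m))) * (2 * m) = Fintype.card J * (12 * D * m ^ 2) := by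
            ring
        _ ≤ m * (12 * D * m ^ 2) := Nat.mul_le_mul_right _ hJ
        _ = 12 * D * m ^ 3 := by ring)
  obtain ⟨P, mate, hinj, hP, hPc⟩ := exists_global_pairs side tl hd l Us w hUs hc
  choose q hq using hout
  have hqD : ∀ v, D ≤ q v := by
    intro v
    obtain ⟨u, hu⟩ := exists_ne v
    have h1 := hFc (side v) {v} (by simp) (by
      intro h2
      have : u ∈ ({v} : Finset V) := by rw [h2]; exact Finset.mem_univ _
      exact hu (Finset.mem_singleton.1 this))
    have h2 : cutN (F (side v)) tl hd {v} ≤ (Finset.univ.filter (fun e => tl e = v)).card := by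
      apply Finset.card_le_card
      intro e he
      obtain ⟨a1, a2⟩ := Finset.mem_filter.1 he
      have a3 := (hF _ e a1).2
      simp only [Finset.mem_singleton] at a2
      refine Finset.mem_filter.2 ⟨Finset.mem_univ _, ?_⟩
      by_contra a4
      exact a2 ⟨fun h => absurd h a4, fun h => absurd (congrArg side h) a3⟩
    rw [hq] at h2
    have h3 : m * D ≤ m * q v := by rw [mul_comm m D]; omega
    exact Nat.le_of_mul_le_mul_left h3 hm1
  set Fx := Us.filter (fun e => (w e).2.1 = 0) with hFx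
  set Sp := Us.filter (fun e => (w e).1 = l ∧ (w e).2.1 = 1) with hSp
  set Pre := Fx ∪ P ∪ P.image mate ∪ Sp with hPre
  set pre : ι → J := fun e => if e ∈ Fx ∪ P then (w e).1 else l with hpre
  have hPreUs : Pre ⊆ Us := by
    refine Finset.union_subset (Finset.union_subset (Finset.union_subset
      (Finset.filter_subset _ _) (fun e he => (hP e he).1)) ?_) (Finset.filter_subset _ _)
    intro e he
    obtain ⟨f, hf, rfl⟩ := Finset.mem_image.1 he
    exact (hP f hf).2.2.2.1
  have hsmall : ∀ v j, (Pre.filter (fun e => tl e = v ∧ pre e = j)).card ≤ b j * q v := by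
    intro v j
    have h1 := hfew v
    have h2 : (Pre.filter (fun e => tl e = v ∧ pre e = j)).card ≤
        (Us.filter (fun e => tl e = v)).card := by
      apply Finset.card_le_card
      intro e he
      exact Finset.mem_filter.2 ⟨hPreUs (Finset.mem_filter.1 he).1, (Finset.mem_filter.1 he).2.1⟩
    rw [hq, mul_comm 2 m, Nat.mul_div_mul_left _ _ hm1] at h1
    have h3 := hqD v
    have h4 : q v ≤ b j * q v := Nat.le_mul_of_pos_left _ (hb j)
    omega
  obtain ⟨g, -, hg⟩ := exists_quota (Finset.univ \ Pre) tl (Finset.univ : Finset J)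
    (fun v j => b j * q v - (Pre.filter (fun e => tl e = v ∧ pre e = j)).card) (fun v => by
      have h1 : ∑ j, (b j * q v - (Pre.filter (fun e => tl e = v ∧ pre e = j)).card) +
          ∑ j, (Pre.filter (fun e => tl e = v ∧ pre e = j)).card = m * q v := by
        rw [← Finset.sum_add_distrib, ← hm, Finset.sum_mul]
        exact Finset.sum_congr rfl fun j _ => Nat.sub_add_cancel (hsmall v j)
      have h2 := card_fib (Pre.filter (fun e => tl e = v)) Finset.univ pre
        (fun _ _ => Finset.mem_univ _)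
      simp only [Finset.filter_filter] at h2
      have h3 : ((Finset.univ \ Pre).filter (fun e => tl e = v)).card +
          (Pre.filter (fun e => tl e = v)).card = m * q v := by
        rw [← hq, ← Finset.card_union_of_disjoint
          (Finset.disjoint_filter_filter Finset.sdiff_disjoint), ← Finset.filter_union,
          Finset.sdiff_union_of_subset (Finset.subset_univ _)]
      omega)
  set cls0 : ι → J := fun e => if e ∈ Pre then pre e else g e with hcls0
  have hq0 : ∀ v j, (Finset.univ.filter (fun e => cls0 e = j ∧ tl e = v)).card = b j * q v := by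
    intro v j
    rw [← Nat.sub_add_cancel (hsmall v j), ← hg v j (Finset.mem_univ _),
      ← Finset.card_union_of_disjoint (Finset.disjoint_filter_filter Finset.sdiff_disjoint)]
    congr 1
    ext e
    by_cases he : e ∈ Pre <;> simp [hcls0, he, and_comm]
  have hcFx : ∀ e ∈ Fx ∪ P, cls0 e = (w e).1 := by
    intro e he
    have : e ∈ Pre := Finset.mem_union_left _ (Finset.mem_union_left _ he)
    simp only [hcls0, hpre, if_pos this, if_pos he]
  obtain ⟨cls1, h11, h12, h13⟩ := fix_inside side tl hd b l hl (2 * m) cls0 Sp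
    (fun e he => by
      obtain ⟨a1, a2, -⟩ := Finset.mem_filter.1 he
      refine ⟨?_, hUs e a1⟩
      have : e ∈ Pre := Finset.mem_union_right _ he
      simp only [hcls0, hpre, if_pos this, a2, ite_self])
    (fun v => by
      have := card_le_of_disjoint (Finset.univ : Finset (Fin (D * m)))
        (fun r => Us.filter (fun e => side (tl e) = side v ∧ w e = (l, 1, r)))
        (Sp.filter (fun e => tl e = v)) (fun r _ => by
          obtain ⟨e, he, h1⟩ := (hc (side v) (l, 1, r)).at v
          obtain ⟨a1, a2, a3⟩ := Finset.mem_filter.1 he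
          refine ⟨e, he, Finset.mem_filter.2 ⟨Finset.mem_filter.2 ⟨a1, by rw [a3]; simp⟩, ?_⟩⟩
          exact h1.resolve_right fun h => hUs e a1 (by rw [h, a2]))
        (fun r _ r' _ e he he' => by
          have a1 := (Finset.mem_filter.1 he).2.2
          have a2 := (Finset.mem_filter.1 he').2.2
          rw [a1] at a2
          simpa using a2)
      rw [Finset.card_univ, Fintype.card_fin] at this
      exact le_trans (Nat.mul_le_mul_right m (by omega)) this)
    (by
      calc _ ≤ ∑ x : Bool × J, b x.2 :=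
            Finset.sum_le_sum fun x _ => (Nat.mod_lt _ (hb x.2)).le
        _ = 2 * m := by
            rw [Fintype.sum_prod_type, Fintype.sum_bool, hm]; ring)
  have hcP : ∀ e ∈ P, cls1 e = (w e).1 := by
    intro e he
    rw [h13 e (fun h => (hP e he).2.1 (Finset.mem_filter.1 h).2.1) (hUs e (hP e he).1),
      hcFx e (Finset.mem_union_right _ he)]
  obtain ⟨cls2, h21, h22, h23⟩ := fix_heads side tl hd b hb l hl cls1
    (fun v j => by rw [h11, hq0]; exact Dvd.intro _ rfl) h12 P mate hinj
    (fun e he => by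
      obtain ⟨a1, a2, -, a4, a5, a6, a7, a8⟩ := hP e he
      refine ⟨by rw [hcP e he]; exact a2, ?_, a8, hUs e a1, a8 ▸ hUs _ a4⟩
      rw [h13 _ (fun h => a6 (Finset.mem_filter.1 h).2.1) (hUs _ a4)]
      have b1 : mate e ∈ Pre := Finset.mem_union_left _
        (Finset.mem_union_right _ (Finset.mem_image_of_mem _ he))
      have b2 : mate e ∉ Fx ∪ P := by
        intro h
        rcases Finset.mem_union.1 h with h | h
        · exact a7 (Finset.mem_filter.1 h).2
        · exact a5 h
      simp only [hcls0, hpre, if_pos b1, if_neg b2])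
    (fun σ j hj' A hA h1 h2 => by
      have h3 := hPc σ j hj' A hA h1 h2
      rw [Finset.filter_congr (p := fun e => cls1 e = j ∧ side (tl e) = σ)
        (q := fun e => (w e).1 = j ∧ side (tl e) = σ) (fun e he => by rw [hcP e he])]
      exact le_trans (Nat.mul_le_mul hD (hbm j)) h3)
  refine ⟨tl, hd, q, cls2, hj, hqD, fun v j => by rw [h21, h11, hq0], h22, fun y j => ?_⟩
  have := card_le_of_disjoint (Finset.univ : Finset (Fin (D * m)))
    (fun r => Us.filter (fun e => side (tl e) = !side y ∧ w e = (j, 0, r)))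
    (Finset.univ.filter (fun e => cls2 e = j ∧ hd e = y)) (fun r _ => by
      obtain ⟨e, he, h1⟩ := (hc (!side y) (j, 0, r)).at y
      obtain ⟨a1, a2, a3⟩ := Finset.mem_filter.1 he
      have a4 : e ∈ Fx := Finset.mem_filter.2 ⟨a1, by rw [a3]⟩
      refine ⟨e, he, Finset.mem_filter.2 ⟨Finset.mem_univ _, ?_, ?_⟩⟩
      · rw [h23 e (fun h => (hP e h).2.2.1 (by rw [a3])) (fun h => by
          obtain ⟨f, hf, rfl⟩ := Finset.mem_image.1 h
          exact (hP f hf).2.2.2.2.2.2.1 (by rw [a3])),
          h13 e (fun h => by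
            have := (Finset.mem_filter.1 h).2.2
            rw [a3] at this
            simp at this) (hUs e a1), hcFx e (Finset.mem_union_left _ a4), a3]
      · exact h1.resolve_left fun h => by rw [h] at a2; simp at a2)
    (fun r _ r' _ e he he' => by
      have a1 := (Finset.mem_filter.1 he).2.2
      have a2 := (Finset.mem_filter.1 he').2.2
      rw [a1] at a2
      simpa using a2)
  rw [Finset.card_univ, Fintype.card_fin] at this
  exact le_trans (Nat.mul_le_mul_left D (hbm j)) this

end Pool.Agent.Lib.MP_ae5681_co
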