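import Pool.Agent.Lib.MP_ae5681_co.Decomp
import Pool.Agent.Lib.MP_ae5681_co.Tree

set_option autoImplicit false

namespace Pool.Agent.Lib.MP_ae5681_co

/-- The decomposition theorem for vertex and edge types in arbitrary universes. -/
theorem exists_decomp_univ {V : Type*} {ι : Type*} [Fintype V] [DecidableEq V] [Fintype ι]
    [DecidableEq ι] [Nontrivial V] (s t : ι → V) (hloop : ∀ e, s e ≠ t e)
    (hsimple : ∀ e e' x y, Joins s t e x y → Joins s t e' x y → e = e') (m : ℕ) (hm : 1 ≤ m)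
    (par : ℕ → ℕ) (hpar : ∀ c, 1 ≤ c → par c < c)
    (hcut : ∀ A : Finset V, A.Nonempty → A ≠ Finset.univ →
      294912 * m ^ 9 ≤ cutN Finset.univ s t A)
    (hdvd : m ∣ Fintype.card ι) :
    ∃ (k : ℕ) (φ : Fin k → ℕ → V) (ε : Fin k → ℕ → ι),
      (∀ x c, 1 ≤ c → c ≤ m → Joins s t (ε x c) (φ x (par c)) (φ x c)) ∧
      (∀ x s1 s2, s1 < s2 → s2 ≤ m → φ x s1 ≠ φ x s2) ∧
      ∀ e, ∃! x, ∃ c, 1 ≤ c ∧ c ≤ m ∧ ε x c = e := by
  let a : V ≃ Fin (Fintype.card V) := Fintype.equivFin V
  let b : ι ≃ Fin (Fintype.card ι) := Fintype.equivFin ι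
  have : Nontrivial (Fin (Fintype.card V)) := a.symm.nontrivial
  have hJ : ∀ e x y, Joins (fun e => a (s (b.symm e))) (fun e => a (t (b.symm e))) e x y ↔
      Joins s t (b.symm e) (a.symm x) (a.symm y) := by
    intro e x y
    simp only [Joins, Equiv.eq_symm_apply]
  obtain ⟨k, φ, ε, h1, h2, h3⟩ := exists_decomp (fun e => a (s (b.symm e)))
    (fun e => a (t (b.symm e))) (fun e h => hloop _ (a.injective h))
    (fun e e' x y h h' => b.symm.injective (hsimple _ _ _ _ ((hJ _ _ _).1 h) ((hJ _ _ _).1 h')))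
    m hm par hpar
    (fun A hA1 hA2 => by
      refine (hcut (A.map a.symm.toEmbedding) (by simpa using hA1) (fun h => hA2 ?_)).trans
        (le_of_eq ?_)
      · refine Finset.eq_univ_of_forall fun x => ?_
        have : a.symm x ∈ A.map a.symm.toEmbedding := by rw [h]; exact Finset.mem_univ _
        simpa using this
      · unfold cutN
        refine Finset.card_equiv b fun e => ?_
        simp)
    (by simpa using hdvd)
  refine ⟨k, fun x c => a.symm (φ x c), fun x c => b.symm (ε x c),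
    fun x c c1 c2 => (hJ _ _ _).1 (h1 x c c1 c2),
    fun x s1 s2 c1 c2 h => h2 x s1 s2 c1 c2 (a.symm.injective h), fun e => ?_⟩
  simpa only [Equiv.symm_apply_eq] using h3 (b e)

end Pool.Agent.Lib.MP_ae5681_co
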