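import Pool.Agent.Lib.MP_ae5681_co.Decomp
import Pool.Agent.Lib.MP_ae5681_co.Tree

set_option autoImplicit false

namespace Pool.Agent.Lib.MP_ae5681_co

/-- Polynomial edge-connectivity forces decompositions into a given tree. -/
theorem tree_decomp (W : Type) [Fintype W] (T : SimpleGraph W) (hT : T.IsTree) (V : Type)
    [Fintype V] (G : SimpleGraph V)
    (hG : ∀ s : Set (Sym2 V), s.ncard < 294912 * T.edgeSet.ncard ^ 9 → (G.deleteEdges s).Connected)
    (hdvd : T.edgeSet.ncard ∣ G.edgeSet.ncard) :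
    ∃ (k : ℕ) (H : Fin k → G.Subgraph), (∀ i, Nonempty (T ≃g (H i).coe)) ∧
      ∀ e ∈ G.edgeSet, ∃! i, e ∈ (H i).edgeSet := by
  classical
  by_cases hE : G.edgeSet = ∅
  · exact ⟨0, fun i => i.elim0, fun i => i.elim0, fun e he => by rw [hE] at he; exact he.elim⟩
  obtain ⟨pos, par, hp1, hp2, hp3, hpar, hadj⟩ := exists_numbering T hT
  set m := T.edgeSet.ncard with hm
  have hm1 : 1 ≤ m := by
    by_contra h
    have h0 : m = 0 := by omega
    rw [h0, zero_dvd_iff, Set.ncard_eq_zero (Set.toFinite _)] at hdvd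
    exact hE hdvd
  have hends : ∀ e : G.edgeSet, ∃ x y, e.1 = s(x, y) := fun e =>
    Sym2.ind (fun x y => ⟨x, y, rfl⟩) e.1
  choose s t hst using hends
  have hj : ∀ e x y, Joins s t e x y → e.1 = s(x, y) := by
    intro e x y h
    rw [hst e]
    exact Sym2.eq_iff.2 h
  have hadjG : ∀ e x y, Joins s t e x y → G.Adj x y := by
    intro e x y h
    have := e.2
    rwa [hj e x y h] at this
  have hloop : ∀ e, s e ≠ t e := fun e => (hadjG e _ _ (Or.inl ⟨rfl, rfl⟩)).ne
  have : Nontrivial V := by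
    obtain ⟨e, he⟩ := Set.nonempty_iff_ne_empty.2 hE
    exact ⟨⟨_, _, hloop ⟨e, he⟩⟩⟩
  obtain ⟨k, φ, ε, h1, h2, h3⟩ := exists_decomp s t hloop
    (fun e e' x y h h' => Subtype.ext ((hj e x y h).trans (hj e' x y h').symm)) m hm1 par hpar
    (fun A hA1 hA2 => by
      by_contra hc
      have h4 := hG (Subtype.val '' ((Finset.univ.filter (fun e => ¬ (s e ∈ A ↔ t e ∈ A)) :
        Finset G.edgeSet) : Set G.edgeSet)) (by
          rw [Set.ncard_image_of_injective _ Subtype.val_injective, Set.ncard_coe_finset]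
          exact not_le.1 hc)
      obtain ⟨a, ha⟩ := hA1
      obtain ⟨b, hb⟩ : ∃ b, b ∉ A := by
        by_contra h5
        push Not at h5
        exact hA2 (Finset.eq_univ_of_forall h5)
      obtain ⟨p⟩ := h4.preconnected a b
      obtain ⟨d, -, hd1, hd2⟩ := p.exists_boundary_dart (A : Set V) ha hb
      obtain ⟨hd3, hd4⟩ := SimpleGraph.deleteEdges_adj.1 d.adj
      refine hd4 ⟨⟨s(d.fst, d.snd), hd3⟩, Finset.mem_coe.2 (Finset.mem_filter.2
        ⟨Finset.mem_univ _, ?_⟩), rfl⟩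
      rcases Sym2.eq_iff.1 (hst ⟨s(d.fst, d.snd), hd3⟩) with ⟨h5, h6⟩ | ⟨h5, h6⟩
      · rw [← h5, ← h6]; exact fun h => hd2 (h.1 hd1)
      · rw [← h5, ← h6]; exact fun h => hd2 (h.2 hd1))
    (by rwa [Set.ncard_eq_toFinset_card', Set.toFinset_card] at hdvd)
  let f : Fin k → T.Copy G := fun x =>
    { toHom := ⟨fun w => φ x (pos w), fun {u v} h => by
        rcases (hadj u v).1 h with ⟨a1, a2⟩ | ⟨a1, a2⟩
        · have := hadjG _ _ _ (h1 x _ a1 (hp1 v))
          rwa [a2] at this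
        · have := hadjG _ _ _ (h1 x _ a1 (hp1 u))
          rw [a2] at this
          exact this.symm⟩
      injective' := fun u v h => by
        apply hp2
        rcases lt_trichotomy (pos u) (pos v) with a1 | a1 | a1
        · exact absurd h (h2 x _ _ a1 (hp1 v))
        · exact a1
        · exact absurd h.symm (h2 x _ _ a1 (hp1 u)) }
  refine ⟨k, fun x => (f x).toSubgraph, fun x => ⟨(f x).isoToSubgraph⟩, fun e he => ?_⟩
  have key : ∀ x, e ∈ (f x).toSubgraph.edgeSet ↔ ∃ c, 1 ≤ c ∧ c ≤ m ∧ ε x c = ⟨e, he⟩ := by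
    intro x
    rw [SimpleGraph.Subgraph.edgeSet_map, SimpleGraph.Subgraph.edgeSet_top]
    constructor
    · rintro ⟨z, hz, h4⟩
      induction z using Sym2.ind with
      | _ u v =>
        have h5 : s(φ x (pos u), φ x (pos v)) = e := h4
        rcases (hadj u v).1 hz with ⟨a1, a2⟩ | ⟨a1, a2⟩
        · refine ⟨pos v, a1, hp1 v, Subtype.ext ?_⟩
          rw [hj _ _ _ (h1 x _ a1 (hp1 v)), a2]
          exact h5
        · refine ⟨pos u, a1, hp1 u, Subtype.ext ?_⟩
          rw [hj _ _ _ (h1 x _ a1 (hp1 u)), a2, Sym2.eq_swap]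
          exact h5
    · rintro ⟨c, a1, a2, a3⟩
      obtain ⟨v, rfl⟩ := hp3 c a2
      obtain ⟨u, hu⟩ := hp3 (par (pos v)) (by have := hpar _ a1; omega)
      refine ⟨s(u, v), (hadj u v).2 (Or.inl ⟨a1, hu.symm⟩), ?_⟩
      have h5 := hj _ _ _ (h1 x _ a1 a2)
      rw [a3, ← hu] at h5
      exact h5.symm
  simp only [key]
  exact h3 ⟨e, he⟩

end Pool.Agent.Lib.MP_ae5681_co
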