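import Mathlib

set_option autoImplicit false

namespace Pool.Agent.Lib.MP_ae5681_co

/-- Distance from `n` to the multiples of `2 * k`. -/
def nrm (k n : ℤ) : ℤ := min (n % (2 * k)) (2 * k - n % (2 * k))

lemma nrm_le {k n r : ℤ} (hk : 0 < k) (h : 2 * k ∣ n - r) : nrm k n ≤ |r| := by
  obtain ⟨q, hq⟩ := h
  have h0 : 0 ≤ n % (2 * k) := Int.emod_nonneg _ (by omega)
  have h1 : n % (2 * k) < 2 * k := Int.emod_lt_of_pos _ (by omega)
  have h2 := Int.emod_add_mul_ediv n (2 * k)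
  unfold nrm
  set u := n % (2 * k)
  set w := n / (2 * k)
  have h3 : r = u + 2 * k * (w - q) := by rw [mul_sub]; omega
  rcases le_or_gt 0 (w - q) with h4 | h4
  · have : 0 ≤ 2 * k * (w - q) := by positivity
    have : u ≤ r := by omega
    exact le_trans (min_le_left _ _) (le_trans this (le_abs_self r))
  · have h5 : 2 * k * (w - q) ≤ 2 * k * (-1) := by
      apply mul_le_mul_of_nonneg_left <;> omega
    have : 2 * k - u ≤ -r := by omega
    exact le_trans (min_le_right _ _) (le_trans this (neg_le_abs r))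

lemma nrm_spec {k : ℤ} (hk : 0 < k) (n : ℤ) :
    ∃ τ, 2 * k ∣ n - τ ∧ |τ| = nrm k n ∧ |τ| ≤ k := by
  have h0 : 0 ≤ n % (2 * k) := Int.emod_nonneg _ (by omega)
  have h1 : n % (2 * k) < 2 * k := Int.emod_lt_of_pos _ (by omega)
  have h2 := Int.emod_add_mul_ediv n (2 * k)
  unfold nrm
  set u := n % (2 * k)
  set w := n / (2 * k)
  rcases le_or_gt u k with h | h
  · refine ⟨u, ⟨w, by omega⟩, ?_, ?_⟩
    · rw [abs_of_nonneg h0, min_eq_left (by omega)]
    · rw [abs_of_nonneg h0]; exact h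
  · refine ⟨u - 2 * k, ⟨w + 1, by rw [mul_add]; omega⟩, ?_, ?_⟩
    · rw [abs_of_neg (by omega), min_eq_right (by omega)]; ring
    · rw [abs_of_neg (by omega)]; omega

lemma nrm_nonneg {k : ℤ} (hk : 0 < k) (n : ℤ) : 0 ≤ nrm k n := by
  obtain ⟨τ, -, h, -⟩ := nrm_spec hk n
  rw [← h]; exact abs_nonneg _

lemma nrm_le_k {k : ℤ} (hk : 0 < k) (n : ℤ) : nrm k n ≤ k := by
  obtain ⟨τ, -, h, h'⟩ := nrm_spec hk n
  rw [← h]; exact h'

lemma nrm_congr {k n n' : ℤ} (hk : 0 < k) (h : 2 * k ∣ n - n') : nrm k n = nrm k n' := by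
  apply le_antisymm
  · obtain ⟨τ, h1, h2, -⟩ := nrm_spec hk n'
    rw [← h2]
    apply nrm_le hk
    have := dvd_add h h1
    simpa using this
  · obtain ⟨τ, h1, h2, -⟩ := nrm_spec hk n
    rw [← h2]
    apply nrm_le hk
    have := dvd_sub h1 h
    have e : n - τ - (n - n') = n' - τ := by ring
    rwa [e] at this

lemma nrm_add_le {k : ℤ} (hk : 0 < k) (n n' : ℤ) : nrm k (n + n') ≤ nrm k n + nrm k n' := by
  obtain ⟨τ, h1, h2, -⟩ := nrm_spec hk n
  obtain ⟨τ', h1', h2', -⟩ := nrm_spec hk n'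
  rw [← h2, ← h2']
  refine le_trans (nrm_le (r := τ + τ') hk ?_) (abs_add_le _ _)
  have := dvd_add h1 h1'
  have e : n - τ + (n' - τ') = n + n' - (τ + τ') := by ring
  rwa [e] at this

lemma nrm_add_abs {k : ℤ} (hk : 0 < k) (n c : ℤ) : nrm k (n + c) ≤ nrm k n + |c| := by
  have h1 := nrm_add_le hk n c
  have h2 : nrm k c ≤ |c| := nrm_le hk (by simp)
  omega

lemma nrm_neg {k : ℤ} (hk : 0 < k) (n : ℤ) : nrm k (-n) = nrm k n := by
  have key : ∀ m : ℤ, nrm k (-m) ≤ nrm k m := by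
    intro m
    obtain ⟨τ, h1, h2, -⟩ := nrm_spec hk m
    rw [← h2, ← abs_neg τ]
    apply nrm_le hk
    have := (dvd_neg).2 h1
    have e : -(m - τ) = -m - -τ := by ring
    rwa [e] at this
  apply le_antisymm (key n)
  have := key (-n)
  rwa [neg_neg] at this

lemma nrm_par {k : ℤ} (hk : 0 < k) (n : ℤ) : 2 ∣ nrm k n - n := by
  obtain ⟨τ, ⟨q, h1⟩, h2, -⟩ := nrm_spec hk n
  rw [← h2]
  rw [mul_assoc] at h1
  rcases abs_cases τ with h | h <;> omega

lemma nrm_of_le {k r : ℤ} (hk : 0 < k) (h0 : 0 ≤ r) (h1 : r ≤ k) : nrm k r = r := by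
  unfold nrm
  rw [Int.emod_eq_of_lt h0 (by omega)]
  exact min_eq_left (by omega)

lemma dvd_of_nrm_eq_zero {k n : ℤ} (hk : 0 < k) (h : nrm k n = 0) : 2 * k ∣ n := by
  obtain ⟨τ, h1, h2, -⟩ := nrm_spec hk n
  rw [h, abs_eq_zero] at h2
  simpa [h2] using h1

lemma nrm_down_or_up {k n : ℤ} (hk : 0 < k) (h : ¬ 2 * k ∣ n) :
    nrm k (n + -1) ≤ nrm k n - 1 ∨ nrm k (n + 1) ≤ nrm k n - 1 := by
  obtain ⟨τ, h1, h2, -⟩ := nrm_spec hk n
  have h3 : τ ≠ 0 := by
    rintro rfl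
    exact h (by simpa using h1)
  rw [← h2]
  rcases lt_or_gt_of_ne h3 with h4 | h4
  · right
    have := nrm_le (n := n + 1) (r := τ + 1) hk (by simpa using h1)
    rw [abs_of_nonpos (by omega)] at this
    rw [abs_of_neg h4]; omega
  · left
    have := nrm_le (n := n + -1) (r := τ + -1) hk (by simpa using h1)
    rw [abs_of_nonneg (by omega)] at this
    rw [abs_of_pos h4]; omega

lemma nrm_shift {k n : ℤ} (hk : 0 < k) (h : ¬ 2 * k ∣ n)
    (hu : ¬ nrm k (n + 1) ≤ nrm k n - 1) : nrm k (n + (k + 1)) ≤ nrm k n + k - 3 := by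
  obtain ⟨τ, h1, h2, h2'⟩ := nrm_spec hk n
  have h3 : τ ≠ 0 := by
    rintro rfl
    exact h (by simpa using h1)
  rw [← h2] at hu ⊢
  have h4 : 0 < τ := by
    by_contra h4
    apply hu
    have := nrm_le (n := n + 1) (r := τ + 1) hk (by simpa using h1)
    rw [abs_of_nonpos (by omega)] at this
    rw [abs_of_neg (by omega)]; omega
  rw [abs_of_pos h4] at hu h2' ⊢
  have h5 : τ ≠ k := by
    rintro rfl
    apply hu
    have := nrm_le (n := n + 1) (r := 1 - τ) hk (by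
      have := dvd_add h1 (dvd_refl (2 * τ))
      have e : n - τ + 2 * τ = n + 1 - (1 - τ) := by ring
      rwa [e] at this)
    rw [abs_of_nonpos (by omega)] at this
    omega
  have := nrm_le (n := n + (k + 1)) (r := τ + 1 - k) hk (by
    have := dvd_add h1 (dvd_refl (2 * k))
    have e : n - τ + 2 * k = n + (k + 1) - (τ + 1 - k) := by ring
    rwa [e] at this)
  rw [abs_of_nonpos (by omega)] at this
  omega

lemma nrm_shift_zero {k n : ℤ} (hk : 0 < k) (h : nrm k n = 0) :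
    nrm k (n + (k + 1)) ≤ k - 1 := by
  have h1 := dvd_of_nrm_eq_zero hk h
  have := nrm_le (n := n + (k + 1)) (r := 1 - k) hk (by
    have := dvd_add h1 (dvd_refl (2 * k))
    have e : n + 2 * k = n + (k + 1) - (1 - k) := by ring
    rwa [e] at this)
  rw [abs_of_nonpos (by omega)] at this
  omega

end Pool.Agent.Lib.MP_ae5681_co
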