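import Pool.Agent.Lib.MP_ae5681_co.Nrm

set_option autoImplicit false

namespace Pool.Agent.Lib.MP_ae5681_co

open Finset

variable {α ι : Type*} [DecidableEq α] [DecidableEq ι]

/-- Indicator of membership. -/
def ind (A : Finset α) (x : α) : ℤ := if x ∈ A then 1 else 0

/-- Kronecker delta. -/
def dl (x y : α) : ℤ := if x = y then 1 else 0

/-- Number of edges of `F` with exactly one end in `A`. -/
def zcut (F : Finset ι) (s t : ι → α) (A : Finset α) : ℤ :=
  ∑ e ∈ F, |ind A (s e) - ind A (t e)|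

/-- Out-degree minus in-degree under the signs `σ`. -/
def bd (F : Finset ι) (s t : ι → α) (σ : ι → ℤ) (x : α) : ℤ :=
  ∑ e ∈ F, σ e * (dl (s e) x - dl (t e) x)

/-- There is an orientation with boundary congruent to `γ` modulo `2 * k`. -/
def Solv (k : ℤ) (U : Finset α) (F : Finset ι) (s t : ι → α) (γ : α → ℤ) : Prop :=
  ∃ σ : ι → ℤ, (∀ e, σ e = 1 ∨ σ e = -1) ∧ ∀ x ∈ U, 2 * k ∣ bd F s t σ x - γ x

/-- The edge `e` has ends `x` and `y`. -/
def Joins (s t : ι → α) (e : ι) (x y : α) : Prop :=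
  (s e = x ∧ t e = y) ∨ (s e = y ∧ t e = x)

lemma ind_mem {A : Finset α} {x : α} (h : x ∈ A) : ind A x = 1 := if_pos h

lemma ind_not {A : Finset α} {x : α} (h : x ∉ A) : ind A x = 0 := if_neg h

lemma dl_self (x : α) : dl x x = 1 := if_pos rfl

lemma dl_ne {x y : α} (h : x ≠ y) : dl x y = 0 := if_neg h

lemma dl_nonneg (x y : α) : 0 ≤ dl x y := by unfold dl; split_ifs <;> simp

lemma sum_dl (A : Finset α) (x : α) : ∑ y ∈ A, dl x y = ind A x := by
  unfold dl ind
  rw [Finset.sum_ite_eq]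

omit [DecidableEq α] [DecidableEq ι] in
lemma Joins.symm {s t : ι → α} {e : ι} {x y : α} (h : Joins s t e x y) : Joins s t e y x :=
  Or.symm h

omit [DecidableEq ι] in
lemma Joins.abs_ind {s t : ι → α} {e : ι} {x y : α} (h : Joins s t e x y) (A : Finset α) :
    |ind A (s e) - ind A (t e)| = |ind A x - ind A y| := by
  rcases h with ⟨rfl, rfl⟩ | ⟨rfl, rfl⟩
  · rfl
  · exact abs_sub_comm _ _

omit [DecidableEq ι] in
lemma zcut_nonneg (F : Finset ι) (s t : ι → α) (A : Finset α) : 0 ≤ zcut F s t A :=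
  Finset.sum_nonneg fun _ _ => abs_nonneg _

lemma zcut_erase {F : Finset ι} {s t : ι → α} {e : ι} {x y : α} (he : e ∈ F)
    (h : Joins s t e x y) (A : Finset α) :
    zcut (F.erase e) s t A = zcut F s t A - |ind A x - ind A y| := by
  unfold zcut
  rw [← Finset.sum_erase_add _ _ he, h.abs_ind]
  ring

omit [DecidableEq ι] in
lemma zcut_univ {U : Finset α} {F : Finset ι} {s t : ι → α}
    (h : ∀ e ∈ F, s e ∈ U ∧ t e ∈ U) : zcut F s t U = 0 := by
  unfold zcut
  apply Finset.sum_eq_zero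
  intro e he
  rw [ind_mem (h e he).1, ind_mem (h e he).2]; simp

omit [DecidableEq ι] in
lemma zcut_compl {U : Finset α} {F : Finset ι} {s t : ι → α}
    (h : ∀ e ∈ F, s e ∈ U ∧ t e ∈ U) (A : Finset α) : zcut F s t (U \ A) = zcut F s t A := by
  unfold zcut
  apply Finset.sum_congr rfl
  intro e he
  obtain ⟨h1, h2⟩ := h e he
  unfold ind
  by_cases a1 : s e ∈ A <;> by_cases a2 : t e ∈ A <;> simp [a1, a2, h1, h2]

omit [DecidableEq ι] in
lemma exists_cross {F : Finset ι} {s t : ι → α} {A : Finset α} (h : zcut F s t A ≠ 0) :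
    ∃ e ∈ F, ∃ x y, Joins s t e x y ∧ x ∈ A ∧ y ∉ A := by
  obtain ⟨e, he, h1⟩ := Finset.exists_ne_zero_of_sum_ne_zero h
  refine ⟨e, he, ?_⟩
  by_cases a1 : s e ∈ A <;> by_cases a2 : t e ∈ A
  · simp [ind, a1, a2] at h1
  · exact ⟨s e, t e, Or.inl ⟨rfl, rfl⟩, a1, a2⟩
  · exact ⟨t e, s e, Or.inr ⟨rfl, rfl⟩, a2, a1⟩
  · simp [ind, a1, a2] at h1

omit [DecidableEq ι] in
lemma sum_bd (F : Finset ι) (s t : ι → α) (σ : ι → ℤ) (A : Finset α) :
    ∑ x ∈ A, bd F s t σ x = ∑ e ∈ F, σ e * (ind A (s e) - ind A (t e)) := by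
  unfold bd
  rw [Finset.sum_comm]
  apply Finset.sum_congr rfl
  intro e _
  rw [← Finset.mul_sum, Finset.sum_sub_distrib, sum_dl, sum_dl]

omit [DecidableEq ι] in
lemma Solv.congr {k : ℤ} {U : Finset α} {F : Finset ι} {s t : ι → α} {γ γ' : α → ℤ}
    (h : Solv k U F s t γ) (hγ : ∀ x ∈ U, 2 * k ∣ γ x - γ' x) : Solv k U F s t γ' := by
  obtain ⟨σ, h1, h2⟩ := h
  refine ⟨σ, h1, fun x hx => ?_⟩
  have := dvd_add (h2 x hx) (hγ x hx)
  simpa using this

omit [DecidableEq ι] in
lemma Solv.congr_ends {k : ℤ} {U : Finset α} {F : Finset ι} {s t s' t' : ι → α} {γ : α → ℤ}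
    (h : Solv k U F s t γ) (hs : ∀ e ∈ F, s e = s' e ∧ t e = t' e) : Solv k U F s' t' γ := by
  obtain ⟨σ, h1, h2⟩ := h
  refine ⟨σ, h1, fun x hx => ?_⟩
  have : bd F s' t' σ x = bd F s t σ x := by
    unfold bd
    apply Finset.sum_congr rfl
    intro e he
    rw [(hs e he).1, (hs e he).2]
  rw [this]
  exact h2 x hx

omit [DecidableEq ι] in
lemma Solv.neg {k : ℤ} {U : Finset α} {F : Finset ι} {s t : ι → α} {γ : α → ℤ}
    (h : Solv k U F s t γ) : Solv k U F s t (fun x => -γ x) := by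
  obtain ⟨σ, h1, h2⟩ := h
  refine ⟨fun e => -σ e, fun e => by rcases h1 e with h | h <;> simp [h], fun x hx => ?_⟩
  have : bd F s t (fun e => -σ e) x = -bd F s t σ x := by
    unfold bd
    rw [← Finset.sum_neg_distrib]
    apply Finset.sum_congr rfl
    intro e _
    ring
  rw [this]
  have h3 := (dvd_neg).2 (h2 x hx)
  have e : -(bd F s t σ x - γ x) = -bd F s t σ x - -γ x := by ring
  rwa [e] at h3

/-- Orient `e` from `x` to `y` and put it back. -/
lemma Solv.del {k : ℤ} {U : Finset α} {F : Finset ι} {s t : ι → α} {γ : α → ℤ} {e : ι}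
    {x y : α} (he : e ∈ F) (hj : Joins s t e x y)
    (h : Solv k U (F.erase e) s t (fun z => γ z - dl x z + dl y z)) : Solv k U F s t γ := by
  obtain ⟨σ, h1, h2⟩ := h
  have key : ∀ η : ℤ, (η = 1 ∨ η = -1) →
      (∀ z, η * (dl (s e) z - dl (t e) z) = dl x z - dl y z) → Solv k U F s t γ := by
    intro η hη hz
    refine ⟨Function.update σ e η, fun f => ?_, fun z hz' => ?_⟩
    · by_cases hf : f = e
      · subst hf; simpa using hη
      · rw [Function.update_of_ne hf]; exact h1 f
    · have : bd F s t (Function.update σ e η) z = bd (F.erase e) s t σ z + (dl x z - dl y z) := by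
        unfold bd
        rw [← Finset.sum_erase_add _ _ he, Function.update_self, hz]
        congr 1
        apply Finset.sum_congr rfl
        intro f hf
        rw [Function.update_of_ne (Finset.ne_of_mem_erase hf)]
      rw [this]
      have h3 := h2 z hz'
      have e1 : bd (F.erase e) s t σ z - (γ z - dl x z + dl y z) =
          bd (F.erase e) s t σ z + (dl x z - dl y z) - γ z := by ring
      rwa [e1] at h3
  rcases hj with ⟨rfl, rfl⟩ | ⟨rfl, rfl⟩
  · exact key 1 (Or.inl rfl) (fun z => by ring)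
  · exact key (-1) (Or.inr rfl) (fun z => by ring)

lemma Solv.undel {k : ℤ} {U : Finset α} {F : Finset ι} {s t : ι → α} {γ : α → ℤ} {e : ι}
    (he : e ∈ F) (h : Solv k U F s t γ) :
    Solv k U (F.erase e) s t (fun z => γ z - dl (s e) z + dl (t e) z) ∨
    Solv k U (F.erase e) s t (fun z => γ z - dl (t e) z + dl (s e) z) := by
  obtain ⟨σ, h1, h2⟩ := h
  have key : ∀ z, bd F s t σ z = bd (F.erase e) s t σ z + σ e * (dl (s e) z - dl (t e) z) := by
    intro z
    unfold bd
    rw [← Finset.sum_erase_add _ _ he]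
  rcases h1 e with h | h
  · left
    refine ⟨σ, h1, fun z hz => ?_⟩
    have h3 := h2 z hz
    rw [key, h] at h3
    convert h3 using 1; ring
  · right
    refine ⟨σ, h1, fun z hz => ?_⟩
    have h3 := h2 z hz
    rw [key, h] at h3
    convert h3 using 1; ring

/-- Lifting two edges at `v`. -/
lemma Solv.lift {k : ℤ} {U : Finset α} {F : Finset ι} {s t : ι → α} {γ : α → ℤ} {e1 e2 : ι}
    {v x y : α} (he1 : e1 ∈ F) (he2 : e2 ∈ F) (hne : e1 ≠ e2) (hj1 : Joins s t e1 v x)
    (hj2 : Joins s t e2 v y)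
    (h : Solv k U (F.erase e2) (Function.update s e1 x) (Function.update t e1 y) γ) :
    Solv k U F s t γ := by
  have he1' : e1 ∈ F.erase e2 := Finset.mem_erase.2 ⟨hne, he1⟩
  have hc : ∀ e ∈ (F.erase e2).erase e1, Function.update s e1 x e = s e ∧
      Function.update t e1 y e = t e := by
    intro e he
    have := Finset.ne_of_mem_erase he
    rw [Function.update_of_ne this, Function.update_of_ne this]
    exact ⟨rfl, rfl⟩
  rcases h.undel he1' with h | h
  · have h := h.congr_ends hc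
    simp only [Function.update_self] at h
    apply Solv.del he2 hj2
    apply Solv.del he1' hj1.symm
    exact h.congr fun z _ => ⟨0, by ring⟩
  · have h := h.congr_ends hc
    simp only [Function.update_self] at h
    apply Solv.del he2 hj2.symm
    apply Solv.del he1' hj1
    exact h.congr fun z _ => ⟨0, by ring⟩

/-- An even number of parallel edges can be put back. -/
lemma Solv.half {k : ℤ} {U : Finset α} {s t : ι → α} {γ : α → ℤ} {v x : α} (n : ℕ) :
    ∀ (F S : Finset ι), S ⊆ F → S.card = 2 * n → (∀ e ∈ S, Joins s t e v x) →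
      Solv k U (F \ S) s t γ → Solv k U F s t γ := by
  induction n with
  | zero =>
    intro F S _ hS _ h
    rw [mul_zero, Finset.card_eq_zero] at hS
    subst hS
    simpa using h
  | succ n ih =>
    intro F S hSF hS hj h
    obtain ⟨e1, he1, e2, he2, hne⟩ := Finset.one_lt_card.1 (show 1 < S.card by omega)
    have he1' : e1 ∈ F.erase e2 := Finset.mem_erase.2 ⟨hne, hSF he1⟩
    apply Solv.del (hSF he2) (hj e2 he2)
    apply Solv.del he1' (hj e1 he1).symm
    have h1 := ih ((F.erase e2).erase e1) ((S.erase e2).erase e1)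
      (Finset.erase_subset_erase _ (Finset.erase_subset_erase _ hSF))
      (by rw [Finset.card_erase_of_mem (Finset.mem_erase.2 ⟨hne, he1⟩),
        Finset.card_erase_of_mem he2]; omega)
      (fun e he => hj e (Finset.mem_of_mem_erase (Finset.mem_of_mem_erase he)))
      (by
        have : ((F.erase e2).erase e1) \ ((S.erase e2).erase e1) = F \ S := by
          ext e
          simp only [Finset.mem_sdiff, Finset.mem_erase]
          constructor
          · rintro ⟨⟨h1, h2, h3⟩, h4⟩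
            exact ⟨h3, fun h5 => h4 ⟨h1, h2, h5⟩⟩
          · rintro ⟨h1, h2⟩
            refine ⟨⟨?_, ?_, h1⟩, fun h3 => h2 h3.2.2⟩
            · rintro rfl; exact h2 he1
            · rintro rfl; exact h2 he2
        rw [this]; exact h)
    exact h1.congr fun z _ => ⟨0, by ring⟩

/-- Hypotheses of the orientation theorem. -/
structure Good (k : ℤ) (U : Finset α) (F : Finset ι) (s t : ι → α) (a b β : α → ℤ) (v0 : α) :
    Prop where
  ends : ∀ e ∈ F, s e ∈ U ∧ t e ∈ U
  a0 : ∀ x, 0 ≤ a x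
  b0 : ∀ x, 0 ≤ b x
  par : ∀ A ⊆ U, (2 : ℤ) ∣ zcut F s t A + ∑ x ∈ A, a x + ∑ x ∈ A, b x - ∑ x ∈ A, β x
  tot : 2 * k ∣ ∑ x ∈ U, β x - ∑ x ∈ U, b x + ∑ x ∈ U, a x
  zz : ∑ x ∈ U, a x + ∑ x ∈ U, b x ≤ 2 * k - 2 + nrm k (∑ x ∈ U, β x)
  cut : ∀ A ⊆ U, A.Nonempty → A ≠ U →
    2 * k - 2 + nrm k (∑ x ∈ A, β x) ≤ zcut F s t A + ∑ x ∈ A, a x + ∑ x ∈ A, b x ∨
      (A = {v0} ∧ 2 * k ∣ β v0)

omit [DecidableEq ι] in
lemma Good.neg {k : ℤ} (hk : 0 < k) {U : Finset α} {F : Finset ι} {s t : ι → α} {a b β : α → ℤ}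
    {v0 : α} (h : Good k U F s t a b β v0) : Good k U F s t b a (fun x => -β x) v0 where
  ends := h.ends
  a0 := h.b0
  b0 := h.a0
  par := fun A hA => by
    have := h.par A hA
    rw [Finset.sum_neg_distrib]
    omega
  tot := by
    have := (dvd_neg).2 h.tot
    rw [Finset.sum_neg_distrib]
    have e : -(∑ x ∈ U, β x - ∑ x ∈ U, b x + ∑ x ∈ U, a x) =
        -∑ x ∈ U, β x - ∑ x ∈ U, a x + ∑ x ∈ U, b x := by ring
    rwa [e] at this
  zz := by
    rw [Finset.sum_neg_distrib, nrm_neg hk]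
    have := h.zz
    omega
  cut := fun A hA h1 h2 => by
    rw [Finset.sum_neg_distrib, nrm_neg hk]
    rcases h.cut A hA h1 h2 with h3 | h3
    · left; omega
    · right; exact ⟨h3.1, (dvd_neg).2 h3.2⟩

/-- Push a function forward along `ρ`. -/
def push (U : Finset α) (ρ : α → α) (f : α → ℤ) (y : α) : ℤ := ∑ x ∈ U.filter (fun x => ρ x = y), f x

lemma sum_push (U : Finset α) (ρ : α → α) (f : α → ℤ) (A : Finset α) :
    ∑ y ∈ A, push U ρ f y = ∑ x ∈ U.filter (fun x => ρ x ∈ A), f x := by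
  unfold push
  rw [← Finset.sum_fiberwise_of_maps_to (s := U.filter (fun x => ρ x ∈ A)) (t := A) (g := ρ)
    (fun x hx => (Finset.mem_filter.1 hx).2)]
  apply Finset.sum_congr rfl
  intro y hy
  apply Finset.sum_congr _ (fun _ _ => rfl)
  ext x
  simp only [Finset.mem_filter]
  constructor
  · rintro ⟨h1, h2⟩; exact ⟨⟨h1, h2 ▸ hy⟩, h2⟩
  · rintro ⟨⟨h1, _⟩, h2⟩; exact ⟨h1, h2⟩

omit [DecidableEq ι] in
lemma zcut_comp {U : Finset α} {F : Finset ι} {s t : ι → α} (ρ : α → α)
    (h : ∀ e ∈ F, s e ∈ U ∧ t e ∈ U) (A : Finset α) :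
    zcut F (fun e => ρ (s e)) (fun e => ρ (t e)) A = zcut F s t (U.filter (fun x => ρ x ∈ A)) := by
  unfold zcut
  apply Finset.sum_congr rfl
  intro e he
  simp [ind, (h e he).1, (h e he).2]

omit [DecidableEq ι] in
lemma Good.contract {k : ℤ} {U : Finset α} {F : Finset ι} {s t : ι → α} {a b β : α → ℤ}
    {v0 : α} (h : Good k U F s t a b β v0) (ρ : α → α) :
    Good k (U.image ρ) F (fun e => ρ (s e)) (fun e => ρ (t e)) (push U ρ a) (push U ρ b)
      (push U ρ β) (ρ v0) := by
  have hU : U.filter (fun x => ρ x ∈ U.image ρ) = U := by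
    apply Finset.filter_true_of_mem
    intro x hx
    exact Finset.mem_image_of_mem _ hx
  refine ⟨fun e he => ⟨Finset.mem_image_of_mem _ (h.ends e he).1,
    Finset.mem_image_of_mem _ (h.ends e he).2⟩,
    fun y => Finset.sum_nonneg fun x _ => h.a0 x, fun y => Finset.sum_nonneg fun x _ => h.b0 x,
    fun A _ => ?_, ?_, ?_, fun A hA h1 h2 => ?_⟩
  · rw [sum_push, sum_push, sum_push, zcut_comp ρ h.ends]
    exact h.par _ (Finset.filter_subset _ _)
  · rw [sum_push, sum_push, sum_push, hU]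
    exact h.tot
  · rw [sum_push, sum_push, sum_push, hU]
    exact h.zz
  · rw [sum_push, sum_push, sum_push, zcut_comp ρ h.ends]
    have h3 : (U.filter (fun x => ρ x ∈ A)).Nonempty := by
      obtain ⟨y, hy⟩ := h1
      obtain ⟨x, hx, rfl⟩ := Finset.mem_image.1 (hA hy)
      exact ⟨x, Finset.mem_filter.2 ⟨hx, hy⟩⟩
    have h4 : U.filter (fun x => ρ x ∈ A) ≠ U := by
      intro h5
      apply h2
      apply Finset.Subset.antisymm hA
      intro y hy
      obtain ⟨x, hx, rfl⟩ := Finset.mem_image.1 hy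
      rw [← h5] at hx
      exact (Finset.mem_filter.1 hx).2
    rcases h.cut _ (Finset.filter_subset _ _) h3 h4 with h5 | ⟨h5, h6⟩
    · exact Or.inl h5
    · right
      have h7 : v0 ∈ U.filter (fun x => ρ x ∈ A) := by rw [h5]; simp
      have h8 : A = {ρ v0} := by
        apply Finset.eq_singleton_iff_unique_mem.2 ⟨(Finset.mem_filter.1 h7).2, ?_⟩
        intro y hy
        obtain ⟨x, hx, rfl⟩ := Finset.mem_image.1 (hA hy)
        have : x ∈ U.filter (fun x => ρ x ∈ A) := Finset.mem_filter.2 ⟨hx, hy⟩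
        rw [h5, Finset.mem_singleton] at this
        rw [this]
      refine ⟨h8, ?_⟩
      have h9 := sum_push U ρ β A
      rw [h5, h8, Finset.sum_singleton, Finset.sum_singleton] at h9
      rw [h9]; exact h6

/-- Induction hypothesis on the number of vertices and edges. -/
def IH1 (α ι : Type*) [DecidableEq α] (k : ℤ) (n : ℕ) : Prop :=
  ∀ (U : Finset α) (F : Finset ι) (s t : ι → α) (a b β : α → ℤ) (v0 : α),
    U.card + F.card < n → Good k U F s t a b β v0 → Solv k U F s t (fun x => β x - b x + a x)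

omit [DecidableEq ι] in
lemma contract_set {k : ℤ} {U : Finset α} {F : Finset ι} {s t : ι → α} {a b β : α → ℤ}
    {v0 : α} (ih : IH1 α ι k (U.card + F.card)) (h : Good k U F s t a b β v0) {A : Finset α}
    (hA : A ⊆ U) (h2 : 2 ≤ A.card) :
    ∃ σ : ι → ℤ, (∀ e, σ e = 1 ∨ σ e = -1) ∧
      (∀ x ∈ U, x ∉ A → 2 * k ∣ bd F s t σ x - (β x - b x + a x)) ∧
      2 * k ∣ ∑ e ∈ F, σ e * (ind A (s e) - ind A (t e)) -
        (∑ x ∈ A, β x - ∑ x ∈ A, b x + ∑ x ∈ A, a x) := by
  obtain ⟨a0, ha0, a1, ha1, hne⟩ := Finset.one_lt_card.1 (show 1 < A.card by omega)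
  set ρ : α → α := fun x => if x ∈ A then a0 else x with hρ
  have hlt : (U.image ρ).card < U.card := by
    have : U.image ρ ⊆ U.erase a1 := by
      intro y hy
      obtain ⟨x, hx, rfl⟩ := Finset.mem_image.1 hy
      by_cases hxA : x ∈ A
      · simp only [hρ, if_pos hxA]
        exact Finset.mem_erase.2 ⟨hne, hA ha0⟩
      · simp only [hρ, if_neg hxA]
        exact Finset.mem_erase.2 ⟨fun h => hxA (h ▸ ha1), hx⟩
    have h1 := Finset.card_le_card this
    rw [Finset.card_erase_of_mem (hA ha1)] at h1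
    have : 0 < U.card := Finset.card_pos.2 ⟨a1, hA ha1⟩
    omega
  obtain ⟨σ, h1, h3⟩ := ih _ _ _ _ _ _ _ _ (by omega) (h.contract ρ)
  refine ⟨σ, h1, fun x hx hxA => ?_, ?_⟩
  · have hx' : x ∈ U.image ρ := Finset.mem_image.2 ⟨x, hx, by simp [hρ, hxA]⟩
    have h4 := h3 x hx'
    have hf : ∀ z, ρ z = x ↔ z = x := by
      intro z
      by_cases hz : z ∈ A
      · simp only [hρ, if_pos hz]
        constructor
        · intro h; exact absurd (h ▸ ha0) hxA
        · intro h; exact absurd (h ▸ hz) hxA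
      · simp only [hρ, if_neg hz]
    have hp : ∀ f : α → ℤ, push U ρ f x = f x := by
      intro f
      unfold push
      have : U.filter (fun z => ρ z = x) = {x} := by
        ext z
        simp only [Finset.mem_filter, Finset.mem_singleton, hf]
        constructor
        · exact fun h => h.2
        · rintro rfl; exact ⟨hx, rfl⟩
      rw [this, Finset.sum_singleton]
    have hb : bd F (fun e => ρ (s e)) (fun e => ρ (t e)) σ x = bd F s t σ x := by
      unfold bd dl
      simp only [hf]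
    simp only [hp, hb] at h4
    exact h4
  · have hx' : a0 ∈ U.image ρ := Finset.mem_image.2 ⟨a0, hA ha0, by simp [hρ]⟩
    have h4 := h3 a0 hx'
    have hf : ∀ z, ρ z = a0 ↔ z ∈ A := by
      intro z
      by_cases hz : z ∈ A
      · simp [hρ, hz]
      · simp only [hρ, if_neg hz]
        constructor
        · intro h; exact absurd (h ▸ ha0) hz
        · intro h; exact absurd h hz
    have hp : ∀ f : α → ℤ, push U ρ f a0 = ∑ x ∈ A, f x := by
      intro f
      unfold push
      have : U.filter (fun z => ρ z = a0) = A := by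
        ext z
        simp only [Finset.mem_filter, hf]
        exact ⟨fun h => h.2, fun h => ⟨hA h, h⟩⟩
      rw [this]
    have hb : bd F (fun e => ρ (s e)) (fun e => ρ (t e)) σ a0 =
        ∑ e ∈ F, σ e * (ind A (s e) - ind A (t e)) := by
      unfold bd dl ind
      simp only [hf]
    simp only [hp, hb] at h4
    exact h4

end Pool.Agent.Lib.MP_ae5681_co
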