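import Pool.Agent.Lib.MP_ae5681_co.Orient1

set_option autoImplicit false

namespace Pool.Agent.Lib.MP_ae5681_co

open Finset

variable {α ι : Type*} [DecidableEq α] [DecidableEq ι]

lemma sum_abs_dl {A B : Finset α} (hB : B ⊆ A) {x y : α} (h : ¬ (x ∈ A ∧ y ∈ A)) :
    ∑ z ∈ B, |dl x z - dl y z| = |ind B x - ind B y| := by
  by_cases hx : x ∈ A
  · have hy : y ∉ A := fun hy => h ⟨hx, hy⟩
    have hy' : y ∉ B := fun h => hy (hB h)
    rw [ind_not hy', sub_zero, ← sum_dl, abs_of_nonneg (Finset.sum_nonneg fun z _ => dl_nonneg _ _)]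
    apply Finset.sum_congr rfl
    intro z hz
    rw [dl_ne (x := y) (fun h => hy' (h ▸ hz)), sub_zero, abs_of_nonneg (dl_nonneg _ _)]
  · have hx' : x ∉ B := fun h => hx (hB h)
    rw [ind_not hx', zero_sub, abs_neg, ← sum_dl,
      abs_of_nonneg (Finset.sum_nonneg fun z _ => dl_nonneg _ _)]
    apply Finset.sum_congr rfl
    intro z hz
    rw [dl_ne (x := x) (fun h => hx' (h ▸ hz)), zero_sub, abs_neg, abs_of_nonneg (dl_nonneg _ _)]

omit [DecidableEq ι] in
/-- A tight set can be contracted, and the orientation then extended inside it. -/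
lemma solv_of_tight {k : ℤ} {U : Finset α} {F : Finset ι} {s t : ι → α} {a b β : α → ℤ}
    {v0 : α} (ih : IH1 α ι k (U.card + F.card)) (h : Good k U F s t a b β v0) {A : Finset α}
    (hA : A ⊆ U) (h2 : 2 ≤ A.card) (hne : A ≠ U)
    (ht : zcut F s t A + ∑ x ∈ A, a x + ∑ x ∈ A, b x ≤ 2 * k - 2 + nrm k (∑ x ∈ A, β x)) :
    Solv k U F s t (fun x => β x - b x + a x) := by
  obtain ⟨σ1, hσ1, hout, hin⟩ := contract_set ih h hA h2
  set F2 := F.filter (fun e => s e ∈ A ∧ t e ∈ A) with hF2
  set F3 := F.filter (fun e => ¬ (s e ∈ A ∧ t e ∈ A)) with hF3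
  set c : ι → α → ℤ := fun e x => σ1 e * (dl (s e) x - dl (t e) x) with hc
  set a2 : α → ℤ := fun x => a x + ∑ e ∈ F3, max (-c e x) 0 with ha2
  set b2 : α → ℤ := fun x => b x + ∑ e ∈ F3, max (c e x) 0 with hb2
  have hd : ∀ B ⊆ A, zcut F2 s t B + ∑ x ∈ B, a2 x + ∑ x ∈ B, b2 x =
      zcut F s t B + ∑ x ∈ B, a x + ∑ x ∈ B, b x := by
    intro B hB
    have h1 : zcut F s t B = zcut F2 s t B + zcut F3 s t B := by
      unfold zcut
      rw [hF2, hF3, Finset.sum_filter_add_sum_filter_not]
    have h3 : ∑ x ∈ B, ∑ e ∈ F3, max (-c e x) 0 + ∑ x ∈ B, ∑ e ∈ F3, max (c e x) 0 =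
        zcut F3 s t B := by
      rw [← Finset.sum_add_distrib]
      simp only [← Finset.sum_add_distrib]
      rw [Finset.sum_comm]
      unfold zcut
      apply Finset.sum_congr rfl
      intro e he
      rw [← sum_abs_dl hB (Finset.mem_filter.1 he).2]
      apply Finset.sum_congr rfl
      intro x _
      have : |c e x| = |dl (s e) x - dl (t e) x| := by
        simp only [hc, abs_mul]
        rcases hσ1 e with h | h <;> simp [h]
      rw [← this]
      rcases abs_cases (c e x) with h | h <;> omega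
    simp only [ha2, hb2, Finset.sum_add_distrib]
    omega
  have hdiff : ∀ x, b2 x - a2 x = b x - a x + ∑ e ∈ F3, c e x := by
    intro x
    simp only [ha2, hb2]
    have : ∑ e ∈ F3, max (c e x) 0 - ∑ e ∈ F3, max (-c e x) 0 = ∑ e ∈ F3, c e x := by
      rw [← Finset.sum_sub_distrib]
      apply Finset.sum_congr rfl
      intro e _
      omega
    omega
  have hends : ∀ e ∈ F2, s e ∈ A ∧ t e ∈ A := fun e he => (Finset.mem_filter.1 he).2
  have hg : Good k A F2 s t a2 b2 β v0 := by
    refine ⟨hends, fun x => ?_, fun x => ?_, fun B hB => ?_, ?_, ?_, fun B hB h3 h4 => ?_⟩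
    · exact add_nonneg (h.a0 x) (Finset.sum_nonneg fun e _ => le_max_right _ _)
    · exact add_nonneg (h.b0 x) (Finset.sum_nonneg fun e _ => le_max_right _ _)
    · rw [hd B hB]; exact h.par B (hB.trans hA)
    · have h5 : ∑ x ∈ A, b2 x - ∑ x ∈ A, a2 x =
          ∑ x ∈ A, b x - ∑ x ∈ A, a x + ∑ e ∈ F, σ1 e * (ind A (s e) - ind A (t e)) := by
        rw [← Finset.sum_sub_distrib, Finset.sum_congr rfl (fun x _ => hdiff x),
          Finset.sum_add_distrib, Finset.sum_sub_distrib]
        congr 1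
        have h6 := sum_bd F3 s t σ1 A
        unfold bd at h6
        simp only [hc]
        rw [h6, ← Finset.sum_filter_add_sum_filter_not F (fun e => s e ∈ A ∧ t e ∈ A)]
        rw [Finset.sum_eq_zero (s := F.filter (fun e => s e ∈ A ∧ t e ∈ A)), zero_add]
        intro e he
        rw [ind_mem (hends e he).1, ind_mem (hends e he).2]; simp
      have h7 := (dvd_neg).2 hin
      have e : -(∑ e ∈ F, σ1 e * (ind A (s e) - ind A (t e)) -
          (∑ x ∈ A, β x - ∑ x ∈ A, b x + ∑ x ∈ A, a x)) =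
          ∑ x ∈ A, β x - ∑ x ∈ A, b2 x + ∑ x ∈ A, a2 x := by omega
      rwa [e] at h7
    · have h5 := hd A (Finset.Subset.refl _)
      rw [zcut_univ hends] at h5
      omega
    · rw [hd B hB]
      apply h.cut B (hB.trans hA) h3
      rintro rfl
      exact hne (Finset.Subset.antisymm hA hB)
  have hlt : A.card + F2.card < U.card + F.card := by
    have h3 : A.card < U.card := Finset.card_lt_card (Finset.ssubset_iff_subset_ne.2 ⟨hA, hne⟩)
    have h4 : F2.card ≤ F.card := Finset.card_filter_le _ _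
    omega
  obtain ⟨σ2, hσ2, h5⟩ := ih _ _ _ _ _ _ _ _ hlt hg
  refine ⟨fun e => if s e ∈ A ∧ t e ∈ A then σ2 e else σ1 e, fun e => ?_, fun x hx => ?_⟩
  · dsimp only
    split_ifs
    · exact hσ2 e
    · exact hσ1 e
  · have h6 : bd F s t (fun e => if s e ∈ A ∧ t e ∈ A then σ2 e else σ1 e) x =
        bd F2 s t σ2 x + ∑ e ∈ F3, c e x := by
      unfold bd
      rw [← Finset.sum_filter_add_sum_filter_not F (fun e => s e ∈ A ∧ t e ∈ A)]
      congr 1
      · apply Finset.sum_congr rfl
        intro e he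
        simp only [if_pos (Finset.mem_filter.1 he).2]
      · apply Finset.sum_congr rfl
        intro e he
        simp only [if_neg (Finset.mem_filter.1 he).2, hc]
    rw [h6]
    by_cases hxA : x ∈ A
    · have h7 := h5 x hxA
      have h8 := hdiff x
      have e : bd F2 s t σ2 x - (β x - b2 x + a2 x) =
          bd F2 s t σ2 x + ∑ e ∈ F3, c e x - (β x - b x + a x) := by omega
      rwa [e] at h7
    · have h7 := hout x hx hxA
      have h8 : ∀ σ : ι → ℤ, bd F2 s t σ x = 0 := by
        intro σ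
        apply Finset.sum_eq_zero
        intro e he
        rw [dl_ne (x := s e) (y := x) (fun h => hxA (h ▸ (hends e he).1)),
          dl_ne (x := t e) (y := x) (fun h => hxA (h ▸ (hends e he).2))]
        simp
      have h9 : bd F s t σ1 x = bd F2 s t σ1 x + ∑ e ∈ F3, c e x := by
        unfold bd
        rw [← Finset.sum_filter_add_sum_filter_not F (fun e => s e ∈ A ∧ t e ∈ A)]
      rw [h9, h8] at h7
      rw [h8]
      exact h7

lemma sum_add_dl (A : Finset α) (f : α → ℤ) (c1 c2 : ℤ) (x y : α) :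
    ∑ z ∈ A, (f z + c1 * dl x z + c2 * dl y z) = ∑ z ∈ A, f z + c1 * ind A x + c2 * ind A y := by
  rw [Finset.sum_add_distrib, Finset.sum_add_distrib, ← Finset.mul_sum, ← Finset.mul_sum,
    sum_dl, sum_dl]

/-- Orient an edge from `x` to `y`, delete it and change the virtual arcs at its ends. -/
lemma step_del {k : ℤ} {U : Finset α} {F : Finset ι} {s t : ι → α} {a b β : α → ℤ}
    {v0 : α} (ih : IH1 α ι k (U.card + F.card)) (h : Good k U F s t a b β v0) {e : ι}
    (he : e ∈ F) {x y : α} (hj : Joins s t e x y) (hxy : x ≠ y) (a1 b1 a2 b2 c1 c2 : ℤ)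
    (hc1 : c1 = -1 + b1 - a1) (hc2 : c2 = 1 + b2 - a2)
    (ha1 : 0 ≤ a x + a1) (hb1 : 0 ≤ b x + b1) (ha2 : 0 ≤ a y + a2) (hb2 : 0 ≤ b y + b2)
    (hz : ∑ z ∈ U, a z + ∑ z ∈ U, b z + a1 + b1 + a2 + b2 ≤
      2 * k - 2 + nrm k (∑ z ∈ U, β z + (c1 + c2)))
    (hx : ∀ A ⊆ U, A ≠ U → x ∈ A → y ∉ A →
      2 * k - 2 + nrm k (∑ z ∈ A, β z + c1) ≤
        zcut F s t A + ∑ z ∈ A, a z + ∑ z ∈ A, b z - 1 + a1 + b1 ∨ (A = {v0} ∧ 2 * k ∣ β v0 + c1))
    (hy : ∀ A ⊆ U, A ≠ U → x ∉ A → y ∈ A →
      2 * k - 2 + nrm k (∑ z ∈ A, β z + c2) ≤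
        zcut F s t A + ∑ z ∈ A, a z + ∑ z ∈ A, b z - 1 + a2 + b2 ∨ (A = {v0} ∧ 2 * k ∣ β v0 + c2))
    (hxy' : ∀ A ⊆ U, A ≠ U → x ∈ A → y ∈ A →
      2 * k - 2 + nrm k (∑ z ∈ A, β z + (c1 + c2)) ≤
        zcut F s t A + ∑ z ∈ A, a z + ∑ z ∈ A, b z + a1 + b1 + a2 + b2) :
    Solv k U F s t (fun z => β z - b z + a z) := by
  have hxU : x ∈ U := by
    rcases hj with ⟨rfl, _⟩ | ⟨_, rfl⟩
    · exact (h.ends e he).1
    · exact (h.ends e he).2
  have hyU : y ∈ U := by
    rcases hj with ⟨_, rfl⟩ | ⟨rfl, _⟩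
    · exact (h.ends e he).2
    · exact (h.ends e he).1
  have hnn : ∀ (f : α → ℤ) (p q : ℤ), (∀ z, 0 ≤ f z) → 0 ≤ f x + p → 0 ≤ f y + q →
      ∀ z, 0 ≤ f z + p * dl x z + q * dl y z := by
    intro f p q h1 h2 h3 z
    by_cases hz1 : x = z
    · subst hz1
      rw [dl_self, dl_ne hxy.symm]; omega
    · by_cases hz2 : y = z
      · subst hz2
        rw [dl_self, dl_ne hxy]; omega
      · rw [dl_ne hz1, dl_ne hz2]; have := h1 z; omega
  have hg : Good k U (F.erase e) s t (fun z => a z + a1 * dl x z + a2 * dl y z)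
      (fun z => b z + b1 * dl x z + b2 * dl y z) (fun z => β z + c1 * dl x z + c2 * dl y z) v0 := by
    refine ⟨fun f hf => h.ends f (Finset.mem_of_mem_erase hf), hnn a a1 a2 h.a0 ha1 ha2,
      hnn b b1 b2 h.b0 hb1 hb2, fun A hA => ?_, ?_, ?_, fun A hA h3 h4 => ?_⟩
    · rw [sum_add_dl, sum_add_dl, sum_add_dl, zcut_erase he hj]
      have := h.par A hA
      by_cases h1 : x ∈ A <;> by_cases h2 : y ∈ A <;>
        simp only [ind, h1, h2, if_true, if_false, mul_one, mul_zero, sub_self, abs_zero, sub_zero,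
          zero_sub, abs_neg, abs_one, add_zero] <;> omega
    · rw [sum_add_dl, sum_add_dl, sum_add_dl, ind_mem hxU, ind_mem hyU]
      have := h.tot
      convert this using 1
      omega
    · rw [sum_add_dl, sum_add_dl, sum_add_dl, ind_mem hxU, ind_mem hyU]
      simp only [mul_one, add_assoc] at hz ⊢
      omega
    · rw [sum_add_dl, sum_add_dl, sum_add_dl, zcut_erase he hj]
      by_cases h1 : x ∈ A <;> by_cases h2 : y ∈ A <;>
        simp only [ind, h1, h2, if_true, if_false, mul_one, mul_zero, sub_self, abs_zero, sub_zero,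
          zero_sub, abs_neg, abs_one, add_zero]
      · left
        have := hxy' A hA h4 h1 h2
        rw [add_assoc (∑ z ∈ A, β z)]
        omega
      · rcases hx A hA h4 h1 h2 with h5 | ⟨h5, h6⟩
        · left; omega
        · right
          refine ⟨h5, ?_⟩
          rw [h5, Finset.mem_singleton] at h1
          subst h1
          rw [dl_self, dl_ne hxy.symm]
          simpa using h6
      · rcases hy A hA h4 h1 h2 with h5 | ⟨h5, h6⟩
        · left; omega
        · right
          refine ⟨h5, ?_⟩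
          rw [h5, Finset.mem_singleton] at h2
          subst h2
          rw [dl_self, dl_ne hxy]
          simpa using h6
      · rcases h.cut A hA h3 h4 with h5 | ⟨h5, h6⟩
        · left; omega
        · right
          refine ⟨h5, ?_⟩
          rw [h5, Finset.mem_singleton] at h1 h2
          rw [dl_ne h1, dl_ne h2]
          simpa using h6
  have hlt : U.card + (F.erase e).card < U.card + F.card := by
    rw [Finset.card_erase_of_mem he]
    have : 0 < F.card := Finset.card_pos.2 ⟨e, he⟩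
    omega
  apply Solv.del he hj
  refine (ih _ _ _ _ _ _ _ _ hlt hg).congr fun z _ => ⟨0, ?_⟩
  rw [hc1, hc2]; ring

/-- Large sets have slack. -/
def Slack (k : ℤ) (U : Finset α) (F : Finset ι) (s t : ι → α) (a b β : α → ℤ) : Prop :=
  ∀ A ⊆ U, A ≠ U → 2 ≤ A.card →
    2 * k + nrm k (∑ x ∈ A, β x) ≤ zcut F s t A + ∑ x ∈ A, a x + ∑ x ∈ A, b x

omit [DecidableEq ι] in
lemma slack_of_not_solv {k : ℤ} (hk : 0 < k) {U : Finset α} {F : Finset ι} {s t : ι → α}
    {a b β : α → ℤ} {v0 : α} (ih : IH1 α ι k (U.card + F.card)) (h : Good k U F s t a b β v0)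
    (hn : ¬ Solv k U F s t (fun x => β x - b x + a x)) : Slack k U F s t a b β := by
  intro A hA hne h2
  by_contra hc
  apply hn
  apply solv_of_tight ih h hA h2 hne
  have h1 := h.par A hA
  have h3 := nrm_par hk (∑ x ∈ A, β x)
  omega

lemma single_or_two {A : Finset α} {x : α} (hx : x ∈ A) : A = {x} ∨ 2 ≤ A.card := by
  by_cases h : 2 ≤ A.card
  · exact Or.inr h
  · left
    apply Finset.eq_singleton_iff_unique_mem.2 ⟨hx, fun y hy => ?_⟩
    by_contra hne
    exact h (Finset.one_lt_card.2 ⟨y, hy, x, hx, hne⟩)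

/-- Lifting at the exceptional vertex. -/
lemma step_lift {k : ℤ} {U : Finset α} {F : Finset ι} {s t : ι → α} {a b β : α → ℤ}
    {v : α} (ih : IH1 α ι k (U.card + F.card)) (h : Good k U F s t a b β v)
    (hs : Slack k U F s t a b β) (hv : 2 * k ∣ β v) {e1 e2 : ι} (he1 : e1 ∈ F) (he2 : e2 ∈ F)
    {x y : α} (hj1 : Joins s t e1 v x) (hj2 : Joins s t e2 v y) (hx : x ≠ v) (hxy : x ≠ y) :
    Solv k U F s t (fun z => β z - b z + a z) := by
  have hne : e1 ≠ e2 := by
    rintro rfl
    rcases hj1 with ⟨h1, h2⟩ | ⟨h1, h2⟩ <;> rcases hj2 with ⟨h3, h4⟩ | ⟨h3, h4⟩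
    · exact hxy (h2.symm.trans h4)
    · exact hx (h2.symm.trans h4)
    · exact hx (h1.symm.trans h3)
    · exact hxy (h1.symm.trans h3)
  have he1' : e1 ∈ F.erase e2 := Finset.mem_erase.2 ⟨hne, he1⟩
  have hxU : x ∈ U := by
    rcases hj1 with ⟨_, rfl⟩ | ⟨rfl, _⟩
    · exact (h.ends e1 he1).2
    · exact (h.ends e1 he1).1
  have hyU : y ∈ U := by
    rcases hj2 with ⟨_, rfl⟩ | ⟨rfl, _⟩
    · exact (h.ends e2 he2).2
    · exact (h.ends e2 he2).1
  have hcut : ∀ A : Finset α,
      zcut (F.erase e2) (Function.update s e1 x) (Function.update t e1 y) A =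
        zcut F s t A - |ind A v - ind A x| - |ind A v - ind A y| + |ind A x - ind A y| := by
    intro A
    have h1 := zcut_erase (s := Function.update s e1 x) (t := Function.update t e1 y) he1'
      (x := x) (y := y) (Or.inl ⟨by simp, by simp⟩) A
    have h2 := zcut_erase he1' hj1 A
    have h3 := zcut_erase he2 hj2 A
    have h4 : zcut ((F.erase e2).erase e1) (Function.update s e1 x) (Function.update t e1 y) A =
        zcut ((F.erase e2).erase e1) s t A := by
      unfold zcut
      apply Finset.sum_congr rfl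
      intro e he
      have := Finset.ne_of_mem_erase he
      rw [Function.update_of_ne this, Function.update_of_ne this]
    omega
  have hg : Good k U (F.erase e2) (Function.update s e1 x) (Function.update t e1 y) a b β v := by
    refine ⟨fun f hf => ?_, h.a0, h.b0, fun A hA => ?_, h.tot, h.zz, fun A hA h3 h4 => ?_⟩
    · by_cases hf1 : f = e1
      · subst hf1; simp [hxU, hyU]
      · rw [Function.update_of_ne hf1, Function.update_of_ne hf1]
        exact h.ends f (Finset.mem_of_mem_erase hf)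
    · rw [hcut]
      have := h.par A hA
      by_cases h0 : v ∈ A <;> by_cases h1 : x ∈ A <;> by_cases h2 : y ∈ A <;>
        simp only [ind, h0, h1, h2, if_true, if_false, sub_self, abs_zero, sub_zero,
          zero_sub, abs_neg, abs_one, add_zero] <;> omega
    · rw [hcut]
      obtain ⟨w, hw⟩ := h3
      rcases single_or_two hw with h5 | h5
      · by_cases hwv : w = v
        · right; exact ⟨hwv ▸ h5, hv⟩
        · rcases h.cut A hA ⟨w, hw⟩ h4 with h6 | h6
          · left
            have h0 : v ∉ A := by rw [h5, Finset.mem_singleton]; exact fun h => hwv h.symm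
            have h12 : ¬ (x ∈ A ∧ y ∈ A) := by
              rw [h5, Finset.mem_singleton, Finset.mem_singleton]
              rintro ⟨h7, h8⟩
              exact hxy (h7.trans h8.symm)
            by_cases h1 : x ∈ A <;> by_cases h2 : y ∈ A <;>
              simp only [ind, h0, h1, h2, if_true, if_false, sub_self, abs_zero, sub_zero,
                zero_sub, abs_neg, abs_one, add_zero] <;> first | omega | exact absurd ⟨h1, h2⟩ h12
          · exact Or.inr h6
      · left
        have := hs A hA h4 h5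
        by_cases h0 : v ∈ A <;> by_cases h1 : x ∈ A <;> by_cases h2 : y ∈ A <;>
          simp only [ind, h0, h1, h2, if_true, if_false, sub_self, abs_zero, sub_zero,
            zero_sub, abs_neg, abs_one, add_zero] <;> omega
  have hlt : U.card + (F.erase e2).card < U.card + F.card := by
    rw [Finset.card_erase_of_mem he2]
    have : 0 < F.card := Finset.card_pos.2 ⟨e2, he2⟩
    omega
  exact Solv.lift he1 he2 hne hj1 hj2 (ih _ _ _ _ _ _ _ _ hlt hg)

end Pool.Agent.Lib.MP_ae5681_co
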