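import Pool.Agent.Lib.MP_ae5681_co.Orient2

set_option autoImplicit false

namespace Pool.Agent.Lib.MP_ae5681_co

open Finset

variable {α ι : Type*} [DecidableEq α] [DecidableEq ι]

lemma dvd_eq {a b c : ℤ} (h : a ∣ b) (e : b = c) : a ∣ c := e ▸ h

omit [DecidableEq ι] in
lemma zcut_single (F : Finset ι) (s t : ι → α) (v : α) :
    zcut F s t {v} = ((F.filter (fun e => ¬ (s e = v ↔ t e = v))).card : ℤ) := by
  unfold zcut
  rw [Finset.card_filter, Nat.cast_sum]
  apply Finset.sum_congr rfl
  intro e _
  by_cases h1 : s e = v <;> by_cases h2 : t e = v <;> simp [ind, h1, h2]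

omit [DecidableEq α] [DecidableEq ι] in
lemma joins_of_cross {s t : ι → α} {e : ι} {v : α} (h : ¬ (s e = v ↔ t e = v)) :
    ∃ x, x ≠ v ∧ Joins s t e v x := by
  by_cases h1 : s e = v
  · exact ⟨t e, fun h2 => h ⟨fun _ => h2, fun _ => h1⟩, Or.inl ⟨h1, rfl⟩⟩
  · have h2 : t e = v := by
      by_contra h2
      exact h ⟨fun h3 => absurd h3 h1, fun h3 => absurd h3 h2⟩
    exact ⟨s e, h1, Or.inr ⟨rfl, h2⟩⟩

omit [DecidableEq α] [DecidableEq ι] in
lemma Joins.mem {U : Finset α} {s t : ι → α} {e : ι} {x y : α} (hj : Joins s t e x y)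
    (h : s e ∈ U ∧ t e ∈ U) : x ∈ U ∧ y ∈ U := by
  rcases hj with ⟨rfl, rfl⟩ | ⟨rfl, rfl⟩
  · exact h
  · exact h.symm

lemma step_pendant {k : ℤ} {U : Finset α} {F : Finset ι} {s t : ι → α} {a b β : α → ℤ}
    {v0 v : α} (ih : IH1 α ι k (U.card + F.card)) (h : Good k U F s t a b β v0)
    (hvU : v ∈ U) (hv : 2 * k ∣ β v) (ha : a v = 0) (hb : b v = 0) {x : α} (hxU : x ∈ U)
    (hx : x ≠ v) (hS : ∀ e ∈ F, ¬ (s e = v ↔ t e = v) → Joins s t e v x) :
    Solv k U F s t (fun z => β z - b z + a z) := by
  set S := F.filter (fun e => ¬ (s e = v ↔ t e = v)) with hSdef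
  have hA : ({v, x} : Finset α) ⊆ U := by
    intro z hz
    rcases Finset.mem_insert.1 hz with rfl | hz
    · exact hvU
    · rw [Finset.mem_singleton.1 hz]; exact hxU
  obtain ⟨σ, hσ, hout, hin⟩ := contract_set ih h hA (by rw [Finset.card_pair hx.symm])
  have hSF : S ⊆ F := Finset.filter_subset _ _
  have hSj : ∀ e ∈ S, Joins s t e v x := fun e he =>
    hS e (Finset.mem_filter.1 he).1 (Finset.mem_filter.1 he).2
  have hnS : ∀ e ∈ F \ S, dl (s e) v = dl (t e) v := by
    intro e he
    obtain ⟨h1, h2⟩ := Finset.mem_sdiff.1 he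
    have h3 : s e = v ↔ t e = v := by
      by_contra h3
      exact h2 (Finset.mem_filter.2 ⟨h1, h3⟩)
    unfold dl
    simp only [h3]
  have hpar := h.par {v} (by simpa using hvU)
  rw [zcut_single] at hpar
  simp only [Finset.sum_singleton, ha, hb] at hpar
  have heven : ∃ n, S.card = 2 * n := by
    obtain ⟨q, hq⟩ := hv
    rw [mul_assoc] at hq
    refine ⟨S.card / 2, ?_⟩
    rw [← hSdef] at hpar
    omega
  obtain ⟨n, hn⟩ := heven
  apply Solv.half n F S hSF hn hSj
  refine ⟨σ, hσ, fun z hz => ?_⟩
  by_cases hzv : z = v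
  · subst hzv
    have : bd (F \ S) s t σ z = 0 := by
      apply Finset.sum_eq_zero
      intro e he
      rw [hnS e he]; simp
    rw [this]
    simp only [ha, hb]
    simpa using hv
  · by_cases hzx : z = x
    · subst hzx
      have h1 : bd (F \ S) s t σ z = ∑ e ∈ F, σ e * (ind {v, z} (s e) - ind {v, z} (t e)) := by
        rw [← Finset.sum_sdiff hSF, Finset.sum_eq_zero (s := S), add_zero]
        · apply Finset.sum_congr rfl
          intro e he
          have h2 := hnS e he
          rw [← sum_dl, ← sum_dl, Finset.sum_pair hx.symm, Finset.sum_pair hx.symm, h2]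
          ring
        · intro e he
          obtain ⟨h2, h3⟩ := Joins.mem (U := {v, z}) (s := fun _ : Unit => v) (t := fun _ => z)
            (e := ()) (x := s e) (y := t e) (by
              rcases hSj e he with ⟨h4, h5⟩ | ⟨h4, h5⟩
              · exact Or.inl ⟨h4.symm, h5.symm⟩
              · exact Or.inr ⟨h5.symm, h4.symm⟩) (by simp)
          rw [ind_mem h2, ind_mem h3]; simp
      rw [h1]
      rw [Finset.sum_pair hx.symm, Finset.sum_pair hx.symm, Finset.sum_pair hx.symm, ha, hb] at hin
      have h2 := dvd_add hin hv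
      exact dvd_eq h2 (by ring)
    · have h1 : bd (F \ S) s t σ z = bd F s t σ z := by
        unfold bd
        rw [← Finset.sum_sdiff hSF, Finset.sum_eq_zero (s := S), add_zero]
        intro e he
        rcases hSj e he with ⟨h4, h5⟩ | ⟨h4, h5⟩ <;>
          rw [h4, h5, dl_ne (Ne.symm hzv), dl_ne (Ne.symm hzx)] <;> simp
      rw [h1]
      exact hout z hz (by simp [hzv, hzx])

/-- The case of a vertex whose boundary is a multiple of `2 * k`. -/
lemma solv_of_zero {k : ℤ} (hk : 0 < k) {U : Finset α} {F : Finset ι} {s t : ι → α}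
    {a b β : α → ℤ} {v : α} (ih : IH1 α ι k (U.card + F.card)) (h : Good k U F s t a b β v)
    (hs : Slack k U F s t a b β) (hU : 2 ≤ U.card) (hvU : v ∈ U) (hv : 2 * k ∣ β v) :
    Solv k U F s t (fun z => β z - b z + a z) := by
  by_cases hS : ∃ e ∈ F, ¬ (s e = v ↔ t e = v)
  · obtain ⟨e, he, hc⟩ := hS
    obtain ⟨x, hx, hj⟩ := joins_of_cross hc
    have hxU : x ∈ U := (hj.mem (h.ends e he)).2
    by_cases ha : 1 ≤ a v
    · apply step_del ih h he hj hx.symm (-1) 0 1 0 0 0 (by ring) (by ring) (by omega)
        (by simpa using h.b0 v) (by have := h.a0 x; omega) (by simpa using h.b0 x)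
      · have := h.zz
        simp only [add_zero]; omega
      · intro A hA hne h1 _
        rcases single_or_two h1 with h3 | h3
        · right; exact ⟨h3, by simpa using hv⟩
        · left; have := hs A hA hne h3; simp only [add_zero]; omega
      · intro A hA hne h1 h2
        rcases h.cut A hA ⟨x, h2⟩ hne with h3 | h3
        · left; simp only [add_zero]; omega
        · right; simpa using h3
      · intro A hA hne h1 h2
        have := hs A hA hne (Finset.one_lt_card.2 ⟨v, h1, x, h2, hx.symm⟩)
        simp only [add_zero]; omega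
    · by_cases hb : 1 ≤ b v
      · apply step_del ih h he hj.symm hx 0 1 0 (-1) 0 0 (by ring) (by ring)
          (by simpa using h.a0 x) (by have := h.b0 x; omega) (by simpa using h.a0 v) (by omega)
        · have := h.zz
          simp only [add_zero]; omega
        · intro A hA hne h1 _
          rcases h.cut A hA ⟨x, h1⟩ hne with h3 | h3
          · left; simp only [add_zero]; omega
          · right; simpa using h3
        · intro A hA hne _ h2
          rcases single_or_two h2 with h3 | h3
          · right; exact ⟨h3, by simpa using hv⟩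
          · left; have := hs A hA hne h3; simp only [add_zero]; omega
        · intro A hA hne h1 h2
          have := hs A hA hne (Finset.one_lt_card.2 ⟨v, h2, x, h1, hx.symm⟩)
          simp only [add_zero]; omega
      · have ha0 : a v = 0 := by have := h.a0 v; omega
        have hb0 : b v = 0 := by have := h.b0 v; omega
        by_cases hall : ∀ f ∈ F, ¬ (s f = v ↔ t f = v) → Joins s t f v x
        · exact step_pendant ih h hvU hv ha0 hb0 hxU hx hall
        · push Not at hall
          obtain ⟨f, hf, hfc, hfj⟩ := hall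
          obtain ⟨y, _, hj2⟩ := joins_of_cross (s := s) (t := t) (e := f) (v := v) (by tauto)
          exact step_lift ih h hs hv he hf hj hj2 hx (fun hxy => hfj (hxy ▸ hj2))
  · obtain ⟨x, hxU, hx⟩ := Finset.exists_mem_ne (show 1 < U.card by omega) v
    have h0 : zcut F s t {v} = 0 := by
      rw [zcut_single, Finset.filter_eq_empty_iff.2 (fun e he hc => hS ⟨e, he, hc⟩)]
      simp
    have h1 := zcut_compl h.ends {v}
    have hsub : ({v} : Finset α) ⊆ U := by simpa using hvU
    have hsum : ∀ f : α → ℤ, ∑ z ∈ U \ {v}, f z = ∑ z ∈ U, f z - f v := by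
      intro f
      rw [← Finset.sum_sdiff hsub, Finset.sum_singleton]; ring
    have h2 := h.cut (U \ {v}) Finset.sdiff_subset ⟨x, by simp [hxU, hx]⟩ (by
      intro h3
      have : v ∈ U \ {v} := by rw [h3]; exact hvU
      simp at this)
    have h3 : nrm k (∑ z ∈ U, β z - β v) = nrm k (∑ z ∈ U, β z) := by
      apply nrm_congr hk
      have := (dvd_neg).2 hv
      exact dvd_eq this (by ring)
    have h4 := h.zz
    have h5 := h.a0 v
    have h6 := h.b0 v
    rcases h2 with h2 | ⟨h2, _⟩
    · rw [hsum, hsum, hsum, h3, h1, h0] at h2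
      exact step_pendant ih h hvU hv (by omega) (by omega) hxU hx
        (fun e he hc => absurd ⟨e, he, hc⟩ hS)
    · have : v ∈ U \ {v} := by rw [h2]; simp
      simp at this

omit [DecidableEq ι] in
lemma Good.cut' {k : ℤ} {U : Finset α} {F : Finset ι} {s t : ι → α} {a b β : α → ℤ} {v0 : α}
    (h : Good k U F s t a b β v0) (hnz : ∀ v ∈ U, ¬ 2 * k ∣ β v) {A : Finset α} (hA : A ⊆ U)
    (h1 : A.Nonempty) (h2 : A ≠ U) :
    2 * k - 2 + nrm k (∑ x ∈ A, β x) ≤ zcut F s t A + ∑ x ∈ A, a x + ∑ x ∈ A, b x := by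
  rcases h.cut A hA h1 h2 with h3 | ⟨h3, h4⟩
  · exact h3
  · exact absurd h4 (hnz v0 (hA (by rw [h3]; simp)))

omit [DecidableEq ι] in
lemma Good.conn {k : ℤ} (hk : 2 ≤ k) {U : Finset α} {F : Finset ι} {s t : ι → α}
    {a b β : α → ℤ} {v0 : α} (h : Good k U F s t a b β v0) (hnz : ∀ v ∈ U, ¬ 2 * k ∣ β v)
    {A : Finset α} (hA : A ⊆ U) (h1 : A.Nonempty) (h2 : A ≠ U) :
    ∃ e ∈ F, ∃ x y, Joins s t e x y ∧ x ∈ A ∧ y ∉ A := by
  apply exists_cross
  intro h0
  have h3 := h.cut' hnz hA h1 h2
  have h4 := h.cut' hnz (A := U \ A) Finset.sdiff_subset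
    (Finset.sdiff_nonempty.2 fun h5 => h2 (Finset.Subset.antisymm hA h5)) (by
      intro h5
      obtain ⟨x, hx⟩ := h1
      have : x ∈ U \ A := by rw [h5]; exact hA hx
      exact (Finset.mem_sdiff.1 this).2 hx)
  rw [zcut_compl h.ends] at h4
  have h5 := h.zz
  have h6 := nrm_add_le (show 0 < k by omega) (∑ x ∈ U \ A, β x) (∑ x ∈ A, β x)
  rw [Finset.sum_sdiff hA] at h6
  have h7 := Finset.sum_sdiff hA (f := a)
  have h8 := Finset.sum_sdiff hA (f := b)
  omega

/-- An edge from a vertex that can lose one to a vertex that can gain one. -/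
lemma step_good {k : ℤ} (hk : 0 < k) {U : Finset α} {F : Finset ι} {s t : ι → α}
    {a b β : α → ℤ} {v0 : α} (ih : IH1 α ι k (U.card + F.card)) (h : Good k U F s t a b β v0)
    (hs : Slack k U F s t a b β) (hnz : ∀ v ∈ U, ¬ 2 * k ∣ β v) {e : ι} (he : e ∈ F) {x y : α}
    (hj : Joins s t e x y) (hxy : x ≠ y) (hx : nrm k (β x + -1) ≤ nrm k (β x) - 1)
    (hy : nrm k (β y + 1) ≤ nrm k (β y) - 1) : Solv k U F s t (fun z => β z - b z + a z) := by
  apply step_del ih h he hj hxy 0 0 0 0 (-1) 1 (by ring) (by ring)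
    (by simpa using h.a0 x) (by simpa using h.b0 x) (by simpa using h.a0 y) (by simpa using h.b0 y)
  · have := h.zz
    simp only [add_zero, neg_add_cancel]; omega
  · intro A hA hne h1 _
    left
    rcases single_or_two h1 with h3 | h3
    · have := h.cut' hnz hA ⟨x, h1⟩ hne
      subst h3
      simp only [Finset.sum_singleton] at this ⊢
      omega
    · have := hs A hA hne h3
      have h4 := nrm_add_abs hk (∑ z ∈ A, β z) (-1)
      simp only [abs_neg, abs_one] at h4
      omega
  · intro A hA hne _ h2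
    left
    rcases single_or_two h2 with h3 | h3
    · have := h.cut' hnz hA ⟨y, h2⟩ hne
      subst h3
      simp only [Finset.sum_singleton] at this ⊢
      omega
    · have := hs A hA hne h3
      have h4 := nrm_add_abs hk (∑ z ∈ A, β z) 1
      simp only [abs_one] at h4
      omega
  · intro A hA hne h1 _
    have := h.cut' hnz hA ⟨x, h1⟩ hne
    simp only [add_zero, neg_add_cancel]; omega

/-- The last case: no vertex can gain one. -/
lemma solv_final {k : ℤ} (hk : 2 ≤ k) {U : Finset α} {F : Finset ι} {s t : ι → α}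
    {a b β : α → ℤ} {v0 : α} (ih : IH1 α ι k (U.card + F.card))
    (ih2 : ∀ (a' b' β' : α → ℤ), Good k U F s t a' b' β' v0 →
      ∑ x ∈ U, a' x + ∑ x ∈ U, b' x < ∑ x ∈ U, a x + ∑ x ∈ U, b x →
        Solv k U F s t (fun z => β' z - b' z + a' z))
    (h : Good k U F s t a b β v0) (hs : Slack k U F s t a b β) (hU : 2 ≤ U.card)
    (hnz : ∀ v ∈ U, ¬ 2 * k ∣ β v) (hup : ∀ v ∈ U, ¬ nrm k (β v + 1) ≤ nrm k (β v) - 1) :
    Solv k U F s t (fun z => β z - b z + a z) := by
  have hk0 : 0 < k := by omega
  have hdn : ∀ v ∈ U, nrm k (β v + -1) ≤ nrm k (β v) - 1 := fun v hv =>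
    (nrm_down_or_up hk0 (hnz v hv)).resolve_right (hup v hv)
  by_cases hb : ∃ x ∈ U, 1 ≤ b x
  · obtain ⟨x, hxU, hx⟩ := hb
    have hsum : ∀ (f : α → ℤ) (A : Finset α), ∑ z ∈ A, (f z - dl x z) = ∑ z ∈ A, f z - ind A x := by
      intro f A
      rw [Finset.sum_sub_distrib, sum_dl]
    have hg : Good k U F s t a (fun z => b z - dl x z) (fun z => β z - dl x z) v0 := by
      refine ⟨h.ends, h.a0, fun z => ?_, fun A hA => ?_, ?_, ?_, fun A hA h1 h2 => ?_⟩
      · by_cases hz : x = z
        · subst hz; rw [dl_self]; omega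
        · rw [dl_ne hz]; simpa using h.b0 z
      · rw [hsum, hsum]; have := h.par A hA; omega
      · rw [hsum, hsum]
        have := h.tot
        exact dvd_eq this (by ring)
      · rw [hsum, hsum, ind_mem hxU]
        have h1 := h.zz
        have h2 := nrm_add_abs hk0 (∑ z ∈ U, β z - 1) 1
        simp only [abs_one, sub_add_cancel] at h2
        omega
      · left
        rw [hsum, hsum]
        by_cases hxA : x ∈ A
        · rw [ind_mem hxA, sub_eq_add_neg (∑ z ∈ A, β z)]
          rcases single_or_two hxA with h3 | h3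
          · have := h.cut' hnz hA h1 h2
            have h4 := hdn x hxU
            subst h3
            simp only [Finset.sum_singleton] at this ⊢
            omega
          · have := hs A hA h2 h3
            have h4 := nrm_add_abs hk0 (∑ z ∈ A, β z) (-1)
            simp only [abs_neg, abs_one] at h4
            omega
        · rw [ind_not hxA, sub_zero, sub_zero]
          exact h.cut' hnz hA h1 h2
    have := ih2 _ _ _ hg (by rw [hsum, ind_mem hxU]; omega)
    exact this.congr fun z _ => ⟨0, by ring⟩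
  · have hb0 : ∀ x ∈ U, b x = 0 := by
      intro x hx
      have h1 := h.b0 x
      by_contra h2
      exact hb ⟨x, hx, by omega⟩
    have hbU : ∑ x ∈ U, b x = 0 := Finset.sum_eq_zero hb0
    have ha0 : 0 ≤ ∑ x ∈ U, a x := Finset.sum_nonneg fun x _ => h.a0 x
    have htot := h.tot
    have hzz := h.zz
    rw [hbU] at htot hzz
    have hk1 := nrm_le_k hk0 (∑ x ∈ U, β x)
    have hedge : ∀ x ∈ U, ∃ e ∈ F, ∃ y, Joins s t e x y ∧ y ≠ x := by
      intro x hx
      obtain ⟨e, he, x', y, hj, h1, h2⟩ := h.conn hk hnz (A := {x}) (by simpa using hx) (by simp)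
        (by intro h3; rw [← h3] at hU; simp at hU)
      rw [Finset.mem_singleton] at h1 h2
      exact ⟨e, he, y, h1 ▸ hj, h2⟩
    by_cases hα : ∑ x ∈ U, a x ≤ k
    · obtain ⟨x, hx⟩ := Finset.card_pos.1 (show 0 < U.card by omega)
      obtain ⟨e, he, y, hj, hy⟩ := hedge x hx
      have h1 : nrm k (∑ x ∈ U, β x) = ∑ x ∈ U, a x := by
        rw [← nrm_of_le hk0 ha0 hα, ← nrm_neg hk0 (∑ x ∈ U, a x)]
        apply nrm_congr hk0
        exact dvd_eq htot (by ring)
      apply step_del ih h he hj hy.symm 0 1 1 0 0 0 (by ring) (by ring)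
        (by simpa using h.a0 x) (by have := h.b0 x; omega) (by have := h.a0 y; omega)
        (by simpa using h.b0 y)
      · simp only [add_zero]; omega
      · intro A hA hne h2 _
        left
        have := h.cut' hnz hA ⟨x, h2⟩ hne
        simp only [add_zero]; omega
      · intro A hA hne _ h2
        left
        have := h.cut' hnz hA ⟨y, h2⟩ hne
        simp only [add_zero]; omega
      · intro A hA hne h2 _
        have := h.cut' hnz hA ⟨x, h2⟩ hne
        simp only [add_zero]; omega
    · have hα2 : ∑ x ∈ U, a x ≤ 2 * k - 1 := by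
        by_contra hc
        have h1 := nrm_le (n := ∑ x ∈ U, β x) (r := 2 * k - ∑ x ∈ U, a x) hk0 (by
          have := dvd_sub htot (dvd_refl (2 * k))
          exact dvd_eq this (by ring))
        rw [abs_of_nonpos (by omega)] at h1
        omega
      have hex : ∃ x ∈ U, 1 ≤ a x := by
        by_contra hc
        have : ∑ x ∈ U, a x ≤ 0 := Finset.sum_nonpos fun x hx => by
          by_contra h2
          exact hc ⟨x, hx, by omega⟩
        omega
      obtain ⟨x, hx, hax⟩ := hex
      obtain ⟨e, he, y, hj, hy⟩ := hedge x hx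
      have hyU : y ∈ U := (hj.mem (h.ends e he)).2
      have h1 : nrm k (∑ x ∈ U, β x + (-1 + (k + 1))) = ∑ x ∈ U, a x - k := by
        rw [← nrm_of_le hk0 (r := ∑ x ∈ U, a x - k) (by omega) (by omega),
          ← nrm_neg hk0 (∑ x ∈ U, a x - k)]
        apply nrm_congr hk0
        exact dvd_eq htot (by ring)
      apply step_del ih h he hj.symm hy 0 0 (-1) (k - 1) (-1) (k + 1) (by ring) (by ring)
        (by simpa using h.a0 y) (by simpa using h.b0 y) (by omega) (by have := h.b0 x; omega)
      · omega
      · intro A hA hne h2 _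
        left
        rcases single_or_two h2 with h3 | h3
        · have := h.cut' hnz hA ⟨y, h2⟩ hne
          have h4 := hdn y hyU
          subst h3
          simp only [Finset.sum_singleton] at this ⊢
          omega
        · have := hs A hA hne h3
          have h4 := nrm_add_abs hk0 (∑ z ∈ A, β z) (-1)
          simp only [abs_neg, abs_one] at h4
          omega
      · intro A hA hne _ h2
        left
        rcases single_or_two h2 with h3 | h3
        · have := h.cut' hnz hA ⟨x, h2⟩ hne
          have h4 := nrm_shift hk0 (hnz x hx) (hup x hx)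
          subst h3
          simp only [Finset.sum_singleton] at this ⊢
          omega
        · have := hs A hA hne h3
          have h4 := nrm_le_k hk0 (∑ z ∈ A, β z + (k + 1))
          have h5 := nrm_nonneg hk0 (∑ z ∈ A, β z)
          by_cases h6 : nrm k (∑ z ∈ A, β z) = 0
          · have := nrm_shift_zero hk0 h6
            omega
          · omega
      · intro A hA hne h2 h3
        have := hs A hA hne (Finset.one_lt_card.2 ⟨y, h2, x, h3, hy⟩)
        have h4 := nrm_le_k hk0 (∑ z ∈ A, β z + (-1 + (k + 1)))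
        have h5 := nrm_nonneg hk0 (∑ z ∈ A, β z)
        omega

end Pool.Agent.Lib.MP_ae5681_co
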