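import Pool.Agent.Lib.MP_ae5681_co.Orient3

set_option autoImplicit false

namespace Pool.Agent.Lib.MP_ae5681_co

open Finset

variable {α ι : Type*} [DecidableEq α] [DecidableEq ι]

omit [DecidableEq ι] in
lemma Good.change {k : ℤ} {U : Finset α} {F : Finset ι} {s t : ι → α} {a b β : α → ℤ} {v0 : α}
    (h : Good k U F s t a b β v0) (hv : ¬ (v0 ∈ U ∧ 2 * k ∣ β v0)) (v : α) :
    Good k U F s t a b β v := by
  refine ⟨h.ends, h.a0, h.b0, h.par, h.tot, h.zz, fun A hA h1 h2 => ?_⟩
  rcases h.cut A hA h1 h2 with h3 | ⟨h3, h4⟩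
  · exact Or.inl h3
  · exact absurd ⟨hA (by rw [h3]; simp), h4⟩ hv

omit [DecidableEq ι] in
lemma solv_small {k : ℤ} {U : Finset α} {F : Finset ι} {s t : ι → α} {a b β : α → ℤ} {v0 : α}
    (h : Good k U F s t a b β v0) (hU : U.card ≤ 1) :
    Solv k U F s t (fun z => β z - b z + a z) := by
  refine ⟨fun _ => 1, fun _ => Or.inl rfl, fun x hx => ?_⟩
  have hUx : U = {x} := by
    apply Finset.eq_singleton_iff_unique_mem.2 ⟨hx, fun y hy => Finset.card_le_one.1 hU y hy x hx⟩
  have h1 : bd F s t (fun _ => 1) x = 0 := by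
    apply Finset.sum_eq_zero
    intro e he
    obtain ⟨h2, h3⟩ := h.ends e he
    rw [hUx, Finset.mem_singleton] at h2 h3
    rw [h2, h3]; simp
  have h2 := h.tot
  rw [hUx] at h2
  simp only [Finset.sum_singleton] at h2
  rw [h1]
  exact dvd_eq ((dvd_neg).2 h2) (by ring)

lemma solv_step {k : ℤ} (hk : 2 ≤ k) {U : Finset α} {F : Finset ι} {s t : ι → α}
    (ih : IH1 α ι k (U.card + F.card)) (N : ℕ) :
    ∀ (a b β : α → ℤ) (v0 : α), Good k U F s t a b β v0 →
      ∑ x ∈ U, a x + ∑ x ∈ U, b x < N → Solv k U F s t (fun z => β z - b z + a z) := by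
  have hk0 : 0 < k := by omega
  induction N with
  | zero =>
    intro a b β v0 h hN
    have h1 : 0 ≤ ∑ x ∈ U, a x := Finset.sum_nonneg fun x _ => h.a0 x
    have h2 : 0 ≤ ∑ x ∈ U, b x := Finset.sum_nonneg fun x _ => h.b0 x
    simp only [Nat.cast_zero] at hN
    omega
  | succ N ihN =>
    intro a b β v0 h hN
    by_cases hU : U.card ≤ 1
    · exact solv_small h hU
    have hU2 : 2 ≤ U.card := by omega
    by_contra hn
    have hs := slack_of_not_solv hk0 ih h hn
    have hnz : ∀ v ∈ U, ¬ 2 * k ∣ β v := by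
      intro v hvU hv
      by_cases h0 : v0 ∈ U ∧ 2 * k ∣ β v0
      · exact hn (solv_of_zero hk0 ih h hs hU2 h0.1 h0.2)
      · exact hn (solv_of_zero hk0 ih (h.change h0 v) hs hU2 hvU hv)
    have hgood : ∀ e ∈ F, ∀ x y, Joins s t e x y → x ≠ y → nrm k (β x + -1) ≤ nrm k (β x) - 1 →
        ¬ nrm k (β y + 1) ≤ nrm k (β y) - 1 := fun e he x y hj hxy hx hy =>
      hn (step_good hk0 ih h hs hnz he hj hxy hx hy)
    push_cast at hN
    set A := U.filter (fun x => nrm k (β x + -1) ≤ nrm k (β x) - 1) with hA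
    by_cases hA0 : A.Nonempty
    · have hAU : A = U := by
        by_contra hAU
        obtain ⟨e, he, x, y, hj, hx, hy⟩ := h.conn hk hnz (Finset.filter_subset _ _) hA0 hAU
        have hyU : y ∈ U := (hj.mem (h.ends e he)).2
        have h1 : ¬ nrm k (β y + -1) ≤ nrm k (β y) - 1 := fun h2 =>
          hy (Finset.mem_filter.2 ⟨hyU, h2⟩)
        exact hgood e he x y hj (fun h2 => hy (h2 ▸ hx)) (Finset.mem_filter.1 hx).2
          ((nrm_down_or_up hk0 (hnz y hyU)).resolve_left h1)
      apply hn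
      apply solv_final hk ih (fun a' b' β' hg hlt => ihN a' b' β' v0 hg (by omega)) h hs hU2 hnz
      intro y hyU
      obtain ⟨e, he, y', x, hj, h1, h2⟩ := h.conn hk hnz (A := {y}) (by simpa using hyU) (by simp)
        (by intro h3; rw [← h3] at hU2; simp at hU2)
      rw [Finset.mem_singleton] at h1 h2
      subst h1
      have hxU : x ∈ U := (hj.mem (h.ends e he)).2
      rw [← hAU] at hxU
      exact hgood e he x y' hj.symm h2 (Finset.mem_filter.1 hxU).2
    · have h' := h.neg hk0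
      have hn' : ¬ Solv k U F s t (fun z => -β z - a z + b z) := by
        intro h1
        exact hn (h1.neg.congr fun z _ => ⟨0, by ring⟩)
      apply hn'
      apply solv_final hk ih (fun a' b' β' hg hlt => ihN a' b' β' v0 hg (by omega)) h'
        (slack_of_not_solv hk0 ih h' hn') hU2 (fun v hv h1 => hnz v hv ((dvd_neg).1 h1))
      intro y hyU h1
      apply hA0
      refine ⟨y, Finset.mem_filter.2 ⟨hyU, ?_⟩⟩
      rw [nrm_neg hk0, ← nrm_neg hk0 (-β y + 1)] at h1
      have e : -(-β y + 1) = β y + -1 := by ring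
      rwa [e] at h1

theorem solv_of_good {k : ℤ} (hk : 2 ≤ k) (n : ℕ) : IH1 α ι k n := by
  induction n with
  | zero => intro U F s t a b β v0 h; omega
  | succ n ihn =>
    intro U F s t a b β v0 hlt h
    have ih : IH1 α ι k (U.card + F.card) := fun U' F' s' t' a' b' β' v' h1 h2 =>
      ihn U' F' s' t' a' b' β' v' (by omega) h2
    exact solv_step hk ih ((∑ x ∈ U, a x + ∑ x ∈ U, b x).toNat + 1) a b β v0 h (by
      push_cast; omega)

/-- The edges of `F` with exactly one end in `A`. -/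
def cutN (F : Finset ι) (s t : ι → α) (A : Finset α) : ℕ :=
  (F.filter (fun e => ¬ (s e ∈ A ↔ t e ∈ A))).card

omit [DecidableEq ι] in
lemma zcut_eq_cutN (F : Finset ι) (s t : ι → α) (A : Finset α) :
    zcut F s t A = cutN F s t A := by
  unfold zcut cutN
  rw [Finset.card_filter, Nat.cast_sum]
  apply Finset.sum_congr rfl
  intro e _
  by_cases h1 : s e ∈ A <;> by_cases h2 : t e ∈ A <;> simp [ind, h1, h2]

/-- Orientations with prescribed out-degrees modulo `k`. -/
theorem mod_orient {k : ℕ} (hk : 1 ≤ k) (U : Finset α) (F : Finset ι) (s t : ι → α)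
    (hends : ∀ e ∈ F, s e ∈ U ∧ t e ∈ U)
    (hcut : ∀ A ⊆ U, A.Nonempty → A ≠ U → 3 * k ≤ cutN F s t A)
    (p : α → ℤ) (hp : (k : ℤ) ∣ ∑ x ∈ U, p x - F.card) :
    ∃ o : ι → Bool, ∀ x ∈ U,
      (k : ℤ) ∣ ((F.filter (fun e => (if o e then s e else t e) = x)).card : ℤ) - p x := by
  by_cases hk1 : k = 1
  · subst hk1
    exact ⟨fun _ => true, fun x _ => by simp⟩
  rcases U.eq_empty_or_nonempty with rfl | ⟨v0, -⟩
  · exact ⟨fun _ => true, fun x hx => by simp at hx⟩
  have hk2 : (2 : ℤ) ≤ k := by omega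
  have hk0 : (0 : ℤ) < k := by omega
  set deg : α → ℤ := fun x => ∑ e ∈ F, (dl (s e) x + dl (t e) x) with hdeg
  have hdegA : ∀ A : Finset α, ∑ x ∈ A, deg x = ∑ e ∈ F, (ind A (s e) + ind A (t e)) := by
    intro A
    simp only [hdeg]
    rw [Finset.sum_comm]
    apply Finset.sum_congr rfl
    intro e _
    rw [Finset.sum_add_distrib, sum_dl, sum_dl]
  have hβ : ∀ A : Finset α, ∑ x ∈ A, (2 * p x - deg x) =
      2 * ∑ x ∈ A, p x - ∑ e ∈ F, (ind A (s e) + ind A (t e)) := by
    intro A
    rw [Finset.sum_sub_distrib, hdegA, Finset.mul_sum]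
  have hg : Good (k : ℤ) U F s t (fun _ => 0) (fun _ => 0) (fun x => 2 * p x - deg x) v0 := by
    refine ⟨hends, fun _ => le_rfl, fun _ => le_rfl, fun A _ => ?_, ?_, ?_, fun A hA h1 h2 => ?_⟩
    · rw [hβ]
      have : (2 : ℤ) ∣ zcut F s t A + ∑ e ∈ F, (ind A (s e) + ind A (t e)) := by
        unfold zcut
        rw [← Finset.sum_add_distrib]
        apply Finset.dvd_sum
        intro e _
        by_cases h1 : s e ∈ A <;> by_cases h2 : t e ∈ A <;> simp [ind, h1, h2]
      simp only [Finset.sum_const_zero]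
      omega
    · rw [hβ]
      have : ∑ e ∈ F, (ind U (s e) + ind U (t e)) = 2 * F.card := by
        rw [Finset.sum_congr rfl (g := fun _ => (2 : ℤ))]
        · simp [mul_comm]
        · intro e he
          rw [ind_mem (hends e he).1, ind_mem (hends e he).2]; rfl
      rw [this]
      simp only [Finset.sum_const_zero]
      exact dvd_eq (mul_dvd_mul_left 2 hp) (by ring)
    · have := nrm_nonneg hk0 (∑ x ∈ U, (2 * p x - deg x))
      simp only [Finset.sum_const_zero]
      omega
    · left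
      have h3 := hcut A hA h1 h2
      have h4 := nrm_le_k hk0 (∑ x ∈ A, (2 * p x - deg x))
      rw [zcut_eq_cutN]
      simp only [Finset.sum_const_zero]
      omega
  obtain ⟨σ, hσ, h1⟩ := solv_of_good hk2 _ _ _ _ _ _ _ _ _ (Nat.lt_succ_self _) hg
  refine ⟨fun e => decide (σ e = 1), fun x hx => ?_⟩
  have h2 := h1 x hx
  have h3 : bd F s t σ x + deg x =
      2 * ((F.filter (fun e => (if decide (σ e = 1) then s e else t e) = x)).card : ℤ) := by
    unfold bd
    simp only [hdeg]
    rw [← Finset.sum_add_distrib, Finset.card_filter, Nat.cast_sum, Finset.mul_sum]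
    apply Finset.sum_congr rfl
    intro e _
    rcases hσ e with h | h <;> by_cases h4 : s e = x <;> by_cases h5 : t e = x <;>
      simp [dl, h, h4, h5]
  have h4 : (2 : ℤ) * k ∣ 2 * (((F.filter (fun e =>
      (if decide (σ e = 1) then s e else t e) = x)).card : ℤ) - p x) := by
    refine dvd_eq h2 ?_
    rw [mul_sub, ← h3]
    ring
  exact (mul_dvd_mul_iff_left (by norm_num)).1 h4

end Pool.Agent.Lib.MP_ae5681_co
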