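import Mathlib

set_option autoImplicit false

namespace Pool.Agent.Lib.MP_ae5681_co

open Finset

variable {ι β : Type*} [DecidableEq ι] [DecidableEq β]

omit [DecidableEq ι] in
lemma card_fib (s : Finset ι) (t : Finset β) (f : ι → β) (H : ∀ x ∈ s, f x ∈ t) :
    s.card = ∑ b ∈ t, (s.filter (fun a => f a = b)).card :=
  Finset.card_eq_sum_card_fiberwise H

omit [DecidableEq ι] in
/-- Split a finite set into classes of prescribed sizes. -/
lemma exists_quota1 {J : Type*} [DecidableEq J] [Inhabited J] (T : Finset ι) (C : Finset J)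
    (q : J → ℕ) (h : ∑ j ∈ C, q j = T.card) :
    ∃ g : ι → J, (∀ e ∈ T, g e ∈ C) ∧ ∀ j ∈ C, (T.filter (fun e => g e = j)).card = q j := by
  classical
  induction C using Finset.induction_on generalizing T with
  | empty =>
    rw [Finset.sum_empty, eq_comm, Finset.card_eq_zero] at h
    subst h
    exact ⟨fun _ => default, by simp, by simp⟩
  | insert a C ha ih =>
    rw [Finset.sum_insert ha] at h
    obtain ⟨T1, hT1, hc⟩ := Finset.exists_subset_card_eq (s := T) (n := q a) (by omega)
    obtain ⟨g, hg1, hg2⟩ := ih (T \ T1) (by rw [Finset.card_sdiff_of_subset hT1]; omega)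
    refine ⟨fun e => if e ∈ T1 then a else g e, fun e he => ?_, fun j hj => ?_⟩
    · dsimp only
      split_ifs with h1
      · exact Finset.mem_insert_self _ _
      · exact Finset.mem_insert_of_mem (hg1 e (Finset.mem_sdiff.2 ⟨he, h1⟩))
    · rcases Finset.mem_insert.1 hj with rfl | hj
      · rw [← hc]
        congr 1
        ext e
        simp only [Finset.mem_filter]
        constructor
        · rintro ⟨h1, h2⟩
          by_contra h3
          rw [if_neg h3] at h2
          exact ha (h2 ▸ hg1 e (Finset.mem_sdiff.2 ⟨h1, h3⟩))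
        · intro h1
          exact ⟨hT1 h1, if_pos h1⟩
      · rw [← hg2 j hj]
        congr 1
        ext e
        simp only [Finset.mem_filter, Finset.mem_sdiff]
        constructor
        · rintro ⟨h1, h2⟩
          by_cases h3 : e ∈ T1
          · rw [if_pos h3] at h2
            exact absurd (h2 ▸ hj) ha
          · rw [if_neg h3] at h2
            exact ⟨⟨h1, h3⟩, h2⟩
        · rintro ⟨⟨h1, h2⟩, h3⟩
          exact ⟨h1, by rw [if_neg h2]; exact h3⟩

omit [DecidableEq ι] in
/-- Split every fibre into classes of prescribed sizes. -/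
lemma exists_quota {J : Type*} [DecidableEq J] [Inhabited J] (S : Finset ι) (f : ι → β)
    (C : Finset J) (q : β → J → ℕ)
    (h : ∀ v, ∑ j ∈ C, q v j = (S.filter (fun e => f e = v)).card) :
    ∃ g : ι → J, (∀ e ∈ S, g e ∈ C) ∧
      ∀ v, ∀ j ∈ C, (S.filter (fun e => f e = v ∧ g e = j)).card = q v j := by
  choose G hG1 hG2 using fun v => exists_quota1 (S.filter (fun e => f e = v)) C (q v) (h v)
  refine ⟨fun e => G (f e) e, fun e he => hG1 _ e (Finset.mem_filter.2 ⟨he, rfl⟩), fun v j hj => ?_⟩
  rw [← hG2 v j hj, Finset.filter_filter]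
  congr 1
  apply Finset.filter_congr
  intro e _
  constructor
  · rintro ⟨rfl, h2⟩; exact ⟨rfl, h2⟩
  · rintro ⟨rfl, h2⟩; exact ⟨rfl, h2⟩

lemma sum_blocks (M d n : ℕ) (hn : d / M < n) :
    ∑ r ∈ Finset.range n, (if r < d / M then M else if r = d / M then d % M else 0) = d := by
  have h1 : ∀ r, (if r < d / M then M else if r = d / M then d % M else 0) =
      (if r < d / M then M else 0) + (if r = d / M then d % M else 0) := by
    intro r
    split_ifs <;> omega
  simp only [h1]
  rw [Finset.sum_add_distrib, Finset.sum_ite_eq', if_pos (Finset.mem_range.2 hn),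
    ← Finset.sum_filter, Finset.sum_const, smul_eq_mul]
  have : (Finset.range n).filter (fun r => r < d / M) = Finset.range (d / M) := by
    ext r
    simp only [Finset.mem_filter, Finset.mem_range]
    omega
  rw [this, Finset.card_range, mul_comm]
  exact Nat.div_add_mod d M

omit [DecidableEq ι] in
/-- Cut every fibre into groups of size `M` and one smaller group. -/
lemma exists_groups (S : Finset ι) (f : ι → β) (M : ℕ) (hM : 0 < M) :
    ∃ γ : ι → ℕ, (∀ v r, (S.filter (fun e => f e = v ∧ γ e = r)).card ≤ M) ∧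
      (∀ e ∈ S, γ e ≤ (S.filter (fun e' => f e' = f e)).card / M) ∧
      ∀ e ∈ S, M ∣ (S.filter (fun e' => f e' = f e)).card →
        (S.filter (fun e' => f e' = f e ∧ γ e' = γ e)).card = M := by
  set d : β → ℕ := fun v => (S.filter (fun e => f e = v)).card with hd
  obtain ⟨g, hg1, hg2⟩ := exists_quota S f (Finset.range (S.card + 1))
    (fun v r => if r < d v / M then M else if r = d v / M then d v % M else 0)
    (fun v => sum_blocks M (d v) _ (by
      have h1 : d v ≤ S.card := Finset.card_filter_le _ _
      have h2 : d v / M ≤ d v := Nat.div_le_self _ _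
      omega))
  have hpos : ∀ e ∈ S, 0 < (S.filter (fun e' => f e' = f e ∧ g e' = g e)).card :=
    fun e he => Finset.card_pos.2 ⟨e, Finset.mem_filter.2 ⟨he, rfl, rfl⟩⟩
  refine ⟨g, fun v r => ?_, fun e he => ?_, fun e he hdvd => ?_⟩
  · by_cases hr : r ∈ Finset.range (S.card + 1)
    · rw [hg2 v r hr]
      have := Nat.mod_lt (d v) hM
      split_ifs <;> omega
    · rw [Finset.filter_eq_empty_iff.2 (fun e he (h : f e = v ∧ g e = r) => hr (h.2 ▸ hg1 e he))]
      simp
  · have h1 := hpos e he
    rw [hg2 _ _ (hg1 e he)] at h1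
    change g e ≤ d (f e) / M
    split_ifs at h1 <;> omega
  · have h1 := hpos e he
    rw [hg2 _ _ (hg1 e he)] at h1 ⊢
    have h2 : d (f e) % M = 0 := Nat.mod_eq_zero_of_dvd hdvd
    split_ifs at h1 ⊢ <;> omega

/-- A regular bipartite multigraph splits into perfect matchings. -/
lemma konig {L R κ : Type*} [DecidableEq L] [DecidableEq R] [DecidableEq κ] [Inhabited κ]
    (l : ι → L) (r : ι → R) (L0 : Finset L) (R0 : Finset R) (C : Finset κ) :
    ∀ S : Finset ι, (∀ e ∈ S, l e ∈ L0 ∧ r e ∈ R0) →
      (∀ x ∈ L0, (S.filter (fun e => l e = x)).card = C.card) →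
      (∀ y ∈ R0, (S.filter (fun e => r e = y)).card = C.card) →
      ∃ g : ι → κ, (∀ e ∈ S, g e ∈ C) ∧
        (∀ c ∈ C, ∀ x ∈ L0, (S.filter (fun e => l e = x ∧ g e = c)).card = 1) ∧
        (∀ c ∈ C, ∀ y ∈ R0, (S.filter (fun e => r e = y ∧ g e = c)).card = 1) := by
  induction C using Finset.induction_on with
  | empty =>
    intro S hS hl _
    refine ⟨fun _ => default, fun e he => ?_, by simp, by simp⟩
    have := hl _ (hS e he).1
    rw [Finset.card_empty, Finset.card_eq_zero] at this
    have h1 : e ∈ S.filter (fun e' => l e' = l e) := Finset.mem_filter.2 ⟨he, rfl⟩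
    rw [this] at h1
    simp at h1
  | insert a C ha ih =>
    intro S hS hl hr
    rw [Finset.card_insert_of_notMem ha] at hl hr
    have hLR : L0.card = R0.card := by
      have h1 := Finset.card_eq_sum_card_fiberwise (f := l) (s := S) (t := L0)
        (fun e he => (hS e he).1)
      have h2 := Finset.card_eq_sum_card_fiberwise (f := r) (s := S) (t := R0)
        (fun e he => (hS e he).2)
      rw [Finset.sum_congr rfl hl, Finset.sum_const, smul_eq_mul] at h1
      rw [Finset.sum_congr rfl hr, Finset.sum_const, smul_eq_mul] at h2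
      exact Nat.eq_of_mul_eq_mul_right (Nat.succ_pos _) (h1.symm.trans h2)
    obtain ⟨f, hf1, hf2⟩ := (Finset.all_card_le_biUnion_card_iff_exists_injective
      (fun x : L0 => (S.filter (fun e => l e = x.1)).image r)).1 (fun s => by
        have h1 : (S.filter (fun e => l e ∈ s.image Subtype.val)).card = s.card * (C.card + 1) := by
          rw [card_fib (S.filter (fun e => l e ∈ s.image Subtype.val)) (s.image Subtype.val) l
            (fun e he => (Finset.mem_filter.1 he).2), Finset.sum_image (fun _ _ _ _ h => Subtype.ext h),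
            ← smul_eq_mul, ← Finset.sum_const]
          apply Finset.sum_congr rfl
          intro x hx
          rw [← hl x.1 x.2, Finset.filter_filter]
          congr 1
          apply Finset.filter_congr
          intro e _
          exact ⟨fun h => h.2, fun h => ⟨h ▸ Finset.mem_image_of_mem _ hx, h⟩⟩
        have h2 : (S.filter (fun e => l e ∈ s.image Subtype.val)).card ≤ (C.card + 1) *
            (s.biUnion (fun x : L0 => (S.filter (fun e => l e = x.1)).image r)).card := by
          apply Finset.card_le_mul_card_image_of_maps_to (f := r)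
          · intro e he
            obtain ⟨he1, he2⟩ := Finset.mem_filter.1 he
            obtain ⟨x, hx, hx2⟩ := Finset.mem_image.1 he2
            exact Finset.mem_biUnion.2 ⟨x, hx, Finset.mem_image_of_mem _
              (Finset.mem_filter.2 ⟨he1, hx2.symm⟩)⟩
          · intro y hy
            obtain ⟨x, _, hx2⟩ := Finset.mem_biUnion.1 hy
            obtain ⟨e, he, rfl⟩ := Finset.mem_image.1 hx2
            rw [← hr _ (hS e (Finset.mem_filter.1 he).1).2]
            exact Finset.card_le_card (Finset.filter_subset_filter _ (Finset.filter_subset _ _))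
        rw [h1, mul_comm] at h2
        exact Nat.le_of_mul_le_mul_left h2 (Nat.succ_pos _))
    choose m hm1 hm2 using fun x : L0 => Finset.mem_image.1 (hf2 x)
    set Mt := (Finset.univ : Finset L0).image m with hMt
    have hMS : Mt ⊆ S := by
      intro e he
      obtain ⟨x, -, rfl⟩ := Finset.mem_image.1 he
      exact (Finset.mem_filter.1 (hm1 x)).1
    have hlm : ∀ x : L0, l (m x) = x.1 := fun x => (Finset.mem_filter.1 (hm1 x)).2
    have hM1 : ∀ x ∈ L0, (Mt.filter (fun e => l e = x)).card = 1 := by
      intro x hx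
      rw [Finset.card_eq_one]
      refine ⟨m ⟨x, hx⟩, Finset.eq_singleton_iff_unique_mem.2 ⟨Finset.mem_filter.2
        ⟨Finset.mem_image_of_mem _ (Finset.mem_univ _), hlm _⟩, fun e he => ?_⟩⟩
      obtain ⟨he1, he2⟩ := Finset.mem_filter.1 he
      obtain ⟨x', -, rfl⟩ := Finset.mem_image.1 he1
      rw [hlm] at he2
      congr 1
      exact Subtype.ext he2
    have hM2 : ∀ y ∈ R0, (Mt.filter (fun e => r e = y)).card = 1 := by
      intro y hy
      have h1 : (Finset.univ : Finset L0).image f = R0 := by
        apply Finset.eq_of_subset_of_card_le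
        · intro z hz
          obtain ⟨x, -, rfl⟩ := Finset.mem_image.1 hz
          rw [← hm2 x]
          exact (hS _ (Finset.mem_filter.1 (hm1 x)).1).2
        · rw [Finset.card_image_of_injective _ hf1]
          simp [hLR]
      rw [← h1] at hy
      obtain ⟨x, -, rfl⟩ := Finset.mem_image.1 hy
      rw [Finset.card_eq_one]
      refine ⟨m x, Finset.eq_singleton_iff_unique_mem.2 ⟨Finset.mem_filter.2
        ⟨Finset.mem_image_of_mem _ (Finset.mem_univ _), hm2 _⟩, fun e he => ?_⟩⟩
      obtain ⟨he1, he2⟩ := Finset.mem_filter.1 he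
      obtain ⟨x', -, rfl⟩ := Finset.mem_image.1 he1
      rw [hm2] at he2
      rw [hf1 he2]
    have hsd : ∀ (P : ι → Prop) [DecidablePred P], ((S \ Mt).filter P).card + (Mt.filter P).card =
        (S.filter P).card := by
      intro P _
      rw [← Finset.card_union_of_disjoint (Finset.disjoint_filter_filter Finset.sdiff_disjoint),
        ← Finset.filter_union, Finset.sdiff_union_of_subset hMS]
    obtain ⟨g, hg1, hg2, hg3⟩ := ih (S \ Mt) (fun e he => hS e (Finset.mem_sdiff.1 he).1)
      (fun x hx => by have := hsd (fun e => l e = x); rw [hM1 x hx, hl x hx] at this; omega)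
      (fun y hy => by have := hsd (fun e => r e = y); rw [hM2 y hy, hr y hy] at this; omega)
    have key : ∀ (P : ι → Prop) [DecidablePred P], (Mt.filter P).card = 1 →
        (∀ c ∈ C, ((S \ Mt).filter (fun e => P e ∧ g e = c)).card = 1) →
        ∀ c ∈ insert a C,
          (S.filter (fun e => P e ∧ (if e ∈ Mt then a else g e) = c)).card = 1 := by
      intro P _ h1 h2 c hc
      rcases Finset.mem_insert.1 hc with rfl | hc
      · rw [← h1]
        congr 1
        ext e
        simp only [Finset.mem_filter]
        constructor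
        · rintro ⟨h3, h4, h5⟩
          refine ⟨?_, h4⟩
          by_contra h6
          rw [if_neg h6] at h5
          exact ha (h5 ▸ hg1 e (Finset.mem_sdiff.2 ⟨h3, h6⟩))
        · rintro ⟨h3, h4⟩
          exact ⟨hMS h3, h4, if_pos h3⟩
      · rw [← h2 c hc]
        congr 1
        ext e
        simp only [Finset.mem_filter, Finset.mem_sdiff]
        constructor
        · rintro ⟨h3, h4, h5⟩
          by_cases h6 : e ∈ Mt
          · rw [if_pos h6] at h5
            exact absurd (h5 ▸ hc) ha
          · rw [if_neg h6] at h5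
            exact ⟨⟨h3, h6⟩, h4, h5⟩
        · rintro ⟨⟨h3, h6⟩, h4, h5⟩
          exact ⟨h3, h4, by rw [if_neg h6]; exact h5⟩
    refine ⟨fun e => if e ∈ Mt then a else g e, fun e he => ?_, fun c hc x hx => ?_,
      fun c hc y hy => ?_⟩
    · dsimp only
      split_ifs with h1
      · exact Finset.mem_insert_self _ _
      · exact Finset.mem_insert_of_mem (hg1 e (Finset.mem_sdiff.2 ⟨he, h1⟩))
    · exact key (fun e => l e = x) (hM1 x hx) (fun c hc => hg2 c hc x hx) c hc
    · exact key (fun e => r e = y) (hM2 y hy) (fun c hc => hg3 c hc y hy) c hc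

/-- Split an arc set equally at both ends. -/
lemma split_even {κ : Type*} [DecidableEq κ] [Inhabited κ] (S : Finset ι) (f h : ι → β)
    (C : Finset κ) (hC : 0 < C.card) (hf : ∀ v, C.card ∣ (S.filter (fun e => f e = v)).card)
    (hh : ∀ v, C.card ∣ (S.filter (fun e => h e = v)).card) :
    ∃ g : ι → κ, (∀ e ∈ S, g e ∈ C) ∧
      (∀ c ∈ C, ∀ v, C.card * (S.filter (fun e => f e = v ∧ g e = c)).card =
        (S.filter (fun e => f e = v)).card) ∧
      (∀ c ∈ C, ∀ v, C.card * (S.filter (fun e => h e = v ∧ g e = c)).card =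
        (S.filter (fun e => h e = v)).card) := by
  obtain ⟨γ1, -, -, h1⟩ := exists_groups S f C.card hC
  obtain ⟨γ2, -, -, h2⟩ := exists_groups S h C.card hC
  have hreg : ∀ (f : ι → β) (γ : ι → ℕ), (∀ v, C.card ∣ (S.filter (fun e => f e = v)).card) →
      (∀ e ∈ S, C.card ∣ (S.filter (fun e' => f e' = f e)).card →
        (S.filter (fun e' => f e' = f e ∧ γ e' = γ e)).card = C.card) →
      ∀ x ∈ S.image (fun e => (f e, γ e)), (S.filter (fun e => (f e, γ e) = x)).card = C.card := by
    intro f γ hf h1 x hx
    obtain ⟨e, he, rfl⟩ := Finset.mem_image.1 hx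
    rw [← h1 e he (hf _)]
    simp only [Prod.mk.injEq]
  obtain ⟨g, hg1, hg2, hg3⟩ := konig (fun e => (f e, γ1 e)) (fun e => (h e, γ2 e))
    (S.image (fun e => (f e, γ1 e))) (S.image (fun e => (h e, γ2 e))) C S
    (fun e he => ⟨Finset.mem_image_of_mem _ he, Finset.mem_image_of_mem _ he⟩)
    (hreg f γ1 hf h1) (hreg h γ2 hh h2)
  have key : ∀ (f : ι → β) (γ : ι → ℕ) (c : κ),
      (∀ x ∈ S.image (fun e => (f e, γ e)), (S.filter (fun e => (f e, γ e) = x)).card = C.card) →
      (∀ x ∈ S.image (fun e => (f e, γ e)),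
        (S.filter (fun e => (f e, γ e) = x ∧ g e = c)).card = 1) →
      ∀ v, C.card * (S.filter (fun e => f e = v ∧ g e = c)).card =
        (S.filter (fun e => f e = v)).card := by
    intro f γ c h3 h4 v
    set X := (S.image (fun e => (f e, γ e))).filter (fun x => x.1 = v) with hX
    have h5 : (S.filter (fun e => f e = v ∧ g e = c)).card = X.card := by
      rw [Finset.card_eq_sum_card_fiberwise (f := fun e => (f e, γ e)) (t := X)
        (fun e he => by
          obtain ⟨he1, he2, -⟩ := Finset.mem_filter.1 he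
          exact Finset.mem_filter.2 ⟨Finset.mem_image_of_mem _ he1, he2⟩), Finset.card_eq_sum_ones X]
      apply Finset.sum_congr rfl
      intro x hx
      obtain ⟨hx1, hx2⟩ := Finset.mem_filter.1 hx
      rw [← h4 x hx1, Finset.filter_filter]
      congr 1
      apply Finset.filter_congr
      intro e _
      constructor
      · rintro ⟨⟨_, h7⟩, h8⟩; exact ⟨h8, h7⟩
      · rintro ⟨h7, h8⟩; exact ⟨⟨by rw [← hx2, ← h7], h8⟩, h7⟩
    have h6 : (S.filter (fun e => f e = v)).card = X.card * C.card := by
      rw [Finset.card_eq_sum_card_fiberwise (f := fun e => (f e, γ e)) (t := X)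
        (fun e he => by
          obtain ⟨he1, he2⟩ := Finset.mem_filter.1 he
          exact Finset.mem_filter.2 ⟨Finset.mem_image_of_mem _ he1, he2⟩), ← smul_eq_mul,
        ← Finset.sum_const]
      apply Finset.sum_congr rfl
      intro x hx
      obtain ⟨hx1, hx2⟩ := Finset.mem_filter.1 hx
      rw [← h3 x hx1, Finset.filter_filter]
      congr 1
      apply Finset.filter_congr
      intro e _
      constructor
      · rintro ⟨_, h8⟩; exact h8
      · intro h7; exact ⟨by rw [← hx2, ← h7], h7⟩
    rw [h5, h6, mul_comm]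
  exact ⟨g, hg1, fun c hc => key f γ1 c (hreg f γ1 hf h1) (hg2 c hc),
    fun c hc => key h γ2 c (hreg h γ2 hh h2) (hg3 c hc)⟩

end Pool.Agent.Lib.MP_ae5681_co
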