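import Pool.Agent.Lib.MP_ae5681_co.Pack
import Pool.Agent.Lib.MP_ae5681_co.Util

set_option autoImplicit false

namespace Pool.Agent.Lib.MP_ae5681_co

open Finset

variable {V ι : Type*} [Fintype V] [DecidableEq V] [DecidableEq ι]

omit [DecidableEq ι] in
/-- A connected edge set contains a subset with any prescribed degree parities of even sum. -/
lemma exists_join {R : Finset ι} {s t : ι → V} (hR : Conn R s t) (x : V → ZMod 2)
    (hx : ∑ v, x v = 0) : ∃ Jn ⊆ R, ∀ v,
      (((Jn.filter (fun e => s e = v)).card + (Jn.filter (fun e => t e = v)).card : ℕ) : ZMod 2)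
        = x v := by
  classical
  let L : (ι → ZMod 2) →ₗ[ZMod 2] (V → ZMod 2) :=
    { toFun := fun y v => ∑ e ∈ R, y e * ((if s e = v then 1 else 0) + (if t e = v then 1 else 0))
      map_add' := fun y y' => by
        funext v
        simp only [Pi.add_apply, add_mul, Finset.sum_add_distrib]
      map_smul' := fun c y => by
        funext v
        simp only [Pi.smul_apply, smul_eq_mul, RingHom.id_apply, Finset.mul_sum, mul_assoc] }
  have h2 : ∀ z : V → ZMod 2, z + z = 0 := by
    intro z
    funext v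
    exact CharTwo.add_self_eq_zero _
  have hmem : x ∈ LinearMap.range L := by
    rcases isEmpty_or_nonempty V with hV | ⟨⟨r⟩⟩
    · exact ⟨0, funext fun v => hV.elim v⟩
    have hedge : ∀ e ∈ R, (Pi.single (s e) 1 + Pi.single (t e) 1 : V → ZMod 2) ∈
        LinearMap.range L := by
      intro e he
      refine ⟨Pi.single e 1, ?_⟩
      funext v
      simp only [L, LinearMap.coe_mk, AddHom.coe_mk, Pi.add_apply]
      rw [Finset.sum_eq_single e]
      · simp [Pi.single_apply, eq_comm]
      · intro f _ hf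
        simp [hf]
      · intro h; exact absurd he h
    set S := Finset.univ.filter (fun v : V =>
      (Pi.single v 1 + Pi.single r 1 : V → ZMod 2) ∈ LinearMap.range L) with hS
    have hSu : S = Finset.univ := by
      by_contra hne
      obtain ⟨e, he, hc⟩ := hR S ⟨r, Finset.mem_filter.2 ⟨Finset.mem_univ _, by
        rw [h2]; exact zero_mem _⟩⟩ hne
      apply hc
      simp only [hS, Finset.mem_filter, Finset.mem_univ, true_and]
      constructor
      · intro h
        have := add_mem (hedge e he) h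
        rwa [add_comm (Pi.single (s e) 1), add_assoc, ← add_assoc (Pi.single (s e) 1), h2,
          zero_add] at this
      · intro h
        have := add_mem (hedge e he) h
        rwa [add_assoc, ← add_assoc (Pi.single (t e) 1), h2, zero_add] at this
    have h3 : x = ∑ v, x v • (Pi.single v 1 + Pi.single r 1 : V → ZMod 2) := by
      simp only [smul_add]
      rw [Finset.sum_add_distrib, ← Finset.sum_smul, hx, zero_smul, add_zero]
      funext w
      simp [Finset.sum_apply, Pi.single_apply]
    rw [h3]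
    apply Submodule.sum_mem
    intro v _
    apply Submodule.smul_mem
    have : v ∈ S := by rw [hSu]; exact Finset.mem_univ _
    exact (Finset.mem_filter.1 this).2
  obtain ⟨y, hy⟩ := hmem
  refine ⟨R.filter (fun e => y e = 1), Finset.filter_subset _ _, fun v => ?_⟩
  rw [← hy]
  simp only [L, LinearMap.coe_mk, AddHom.coe_mk]
  rw [Finset.filter_filter, Finset.filter_filter, Finset.card_filter, Finset.card_filter,
    ← Finset.sum_add_distrib, Nat.cast_sum]
  apply Finset.sum_congr rfl
  intro e _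
  have : y e = 0 ∨ y e = 1 := by
    generalize y e = z
    revert z
    decide
  rcases this with h | h <;> by_cases h3 : s e = v <;> by_cases h4 : t e = v <;>
    simp [h, h3, h4, one_add_one_eq_two]

omit [DecidableEq ι] [DecidableEq V] in
lemma Conn.mono {R R' : Finset ι} {s t : ι → V} (hR : Conn R s t) (h : R ⊆ R') : Conn R' s t :=
  fun A h1 h2 => by
    obtain ⟨e, he, hc⟩ := hR A h1 h2
    exact ⟨e, h he, hc⟩

/-- Two disjoint connected edge sets contain a connected one with even degrees. -/
lemma exists_even {R1 R2 : Finset ι} {s t : ι → V} (h1 : Conn R1 s t) (h2 : Conn R2 s t)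
    (hd : Disjoint R1 R2) : ∃ R ⊆ R1 ∪ R2, Conn R s t ∧ ∀ v,
      2 ∣ (R.filter (fun e => s e = v)).card + (R.filter (fun e => t e = v)).card := by
  obtain ⟨Jn, hJ, hJ2⟩ := exists_join h1 (fun v =>
    (((R2.filter (fun e => s e = v)).card + (R2.filter (fun e => t e = v)).card : ℕ) : ZMod 2)) (by
      rw [← Nat.cast_sum, Finset.sum_add_distrib,
        ← card_fib R2 Finset.univ s (fun _ _ => Finset.mem_univ _),
        ← card_fib R2 Finset.univ t (fun _ _ => Finset.mem_univ _)]
      push_cast
      exact CharTwo.add_self_eq_zero _)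
  refine ⟨Jn ∪ R2, Finset.union_subset_union hJ (Finset.Subset.refl _),
    h2.mono Finset.subset_union_right, fun v => ?_⟩
  have hd' : Disjoint Jn R2 := Finset.disjoint_of_subset_left hJ hd
  rw [Finset.filter_union, Finset.filter_union,
    Finset.card_union_of_disjoint (Finset.disjoint_filter_filter hd'),
    Finset.card_union_of_disjoint (Finset.disjoint_filter_filter hd'),
    ← ZMod.natCast_eq_zero_iff, add_add_add_comm, Nat.cast_add, hJ2]
  exact CharTwo.add_self_eq_zero _

/-- `mate` pairs up the arcs of `R` at their tails. -/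
def IsMate (R : Finset ι) (tl : ι → V) (mate : ι → ι) : Prop :=
  ∀ e ∈ R, mate e ∈ R ∧ mate e ≠ e ∧ mate (mate e) = e ∧ tl (mate e) = tl e

omit [Fintype V] in
lemma exists_mate (R : Finset ι) (tl : ι → V) (h : ∀ v, 2 ∣ (R.filter (fun e => tl e = v)).card) :
    ∃ mate, IsMate R tl mate := by
  obtain ⟨γ, -, -, h1⟩ := exists_groups R tl 2 (by norm_num)
  have h2 : ∀ e, ∃ e', e ∈ R → (R.filter (fun f => tl f = tl e ∧ γ f = γ e)).erase e = {e'} := by
    intro e
    by_cases he : e ∈ R
    · have h3 : ((R.filter (fun f => tl f = tl e ∧ γ f = γ e)).erase e).card = 1 := by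
        rw [Finset.card_erase_of_mem (Finset.mem_filter.2 ⟨he, rfl, rfl⟩), h1 e he (h _)]
      obtain ⟨e', he'⟩ := Finset.card_eq_one.1 h3
      exact ⟨e', fun _ => he'⟩
    · exact ⟨e, fun h => absurd h he⟩
  choose mate hm using h2
  have h3 : ∀ e ∈ R, mate e ≠ e ∧ mate e ∈ R ∧ tl (mate e) = tl e ∧ γ (mate e) = γ e := by
    intro e he
    have : mate e ∈ (R.filter (fun f => tl f = tl e ∧ γ f = γ e)).erase e := by
      rw [hm e he]; simp
    simpa using this
  refine ⟨mate, fun e he => ?_⟩
  obtain ⟨h4, h5, h6, h7⟩ := h3 e he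
  refine ⟨h5, h4, ?_, h6⟩
  have : e ∈ (R.filter (fun f => tl f = tl (mate e) ∧ γ f = γ (mate e))).erase (mate e) :=
    Finset.mem_erase.2 ⟨h4.symm, Finset.mem_filter.2 ⟨he, h6.symm, h7.symm⟩⟩
  rw [hm _ h5, Finset.mem_singleton] at this
  exact this.symm

omit [Fintype V] in
/-- Re-pairing two pairs at the same tail destroys a closed set and creates none. -/
lemma repair_mate {R : Finset ι} {tl hd : ι → V} {mate : ι → ι} (hm : IsMate R tl mate)
    (hev : ∀ v, 2 ∣ (R.filter (fun e => hd e = v)).card) {S : Finset V}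
    (hS : ∀ e ∈ R, hd e ∈ S ↔ hd (mate e) ∈ S) {e1 e3 : ι} (he1 : e1 ∈ R) (he3 : e3 ∈ R)
    (h1 : hd e1 ∈ S) (h3 : hd e3 ∉ S) (htl : tl e1 = tl e3) :
    ∃ mate', IsMate R tl mate' ∧ ¬ (∀ e ∈ R, hd e ∈ S ↔ hd (mate' e) ∈ S) ∧
      ∀ A : Finset V, (∀ e ∈ R, hd e ∈ A ↔ hd (mate' e) ∈ A) →
        ∀ e ∈ R, hd e ∈ A ↔ hd (mate e) ∈ A := by
  obtain ⟨he2, n21, m21, t21⟩ := hm e1 he1
  obtain ⟨he4, n43, m43, t43⟩ := hm e3 he3
  set e2 := mate e1 with he2def
  set e4 := mate e3 with he4def
  have h2 : hd e2 ∈ S := (hS e1 he1).1 h1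
  have h4 : hd e4 ∉ S := fun h => h3 ((hS e3 he3).2 h)
  have n31 : e3 ≠ e1 := fun h => h3 (h ▸ h1)
  have n41 : e4 ≠ e1 := fun h => h4 (h ▸ h1)
  have n32 : e3 ≠ e2 := fun h => h3 (h ▸ h2)
  have n42 : e4 ≠ e2 := fun h => h4 (h ▸ h2)
  set mate' : ι → ι := fun e => if e = e1 then e3 else if e = e3 then e1 else if e = e2 then e4
    else if e = e4 then e2 else mate e with hmate'
  have v1 : mate' e1 = e3 := by simp [hmate']
  have v3 : mate' e3 = e1 := by simp [hmate', n31]
  have v2 : mate' e2 = e4 := by simp [hmate', n21, n32.symm]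
  have v4 : mate' e4 = e2 := by simp [hmate', n41, n43, n42]
  have vo : ∀ e, e ≠ e1 → e ≠ e2 → e ≠ e3 → e ≠ e4 → mate' e = mate e := by
    intro e a1 a2 a3 a4
    simp [hmate', a1, a2, a3, a4]
  have hinj : ∀ e ∈ R, ∀ f ∈ R, mate e = f → e = mate f := by
    intro e he f _ h
    rw [← h, (hm e he).2.2.1]
  refine ⟨mate', fun e he => ?_, fun h => ?_, fun A hA => ?_⟩
  · by_cases a1 : e = e1
    · subst a1; rw [v1, v3]; exact ⟨he3, n31, rfl, htl.symm⟩
    by_cases a2 : e = e2
    · rw [a2, v2, v4]; exact ⟨he4, n42, rfl, by rw [t43, t21, htl]⟩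
    by_cases a3 : e = e3
    · rw [a3, v3, v1]; exact ⟨he1, n31.symm, rfl, htl⟩
    by_cases a4 : e = e4
    · rw [a4, v4, v2]; exact ⟨he2, n42.symm, rfl, by rw [t43, t21, htl]⟩
    rw [vo e a1 a2 a3 a4, vo (mate e)]
    · exact hm e he
    · intro h; exact a2 (hinj e he _ he1 h)
    · intro h; exact a1 ((hinj e he _ he2 h).trans m21)
    · intro h; exact a4 (hinj e he _ he3 h)
    · intro h; exact a3 ((hinj e he _ he4 h).trans m43)
  · have := h e1 he1
    rw [v1] at this
    exact h3 (this.1 h1)
  · have b13 := hA e1 he1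
    have b24 := hA e2 he2
    rw [v1] at b13
    rw [v2] at b24
    have b12 : hd e1 ∈ A ↔ hd e2 ∈ A := by
      set f : ι → ZMod 2 := fun e => if hd e ∈ A ∧ hd e ∈ S then 1 else 0 with hf
      have s1 : ∑ e ∈ R, f e = 0 := by
        simp only [hf]
        rw [Finset.sum_boole, card_fib _ (A ∩ S) hd (fun e he =>
          Finset.mem_inter.2 (Finset.mem_filter.1 he).2), ZMod.natCast_eq_zero_iff]
        apply Finset.dvd_sum
        intro v hv
        have : (R.filter (fun e => hd e ∈ A ∧ hd e ∈ S)).filter (fun e => hd e = v) =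
            R.filter (fun e => hd e = v) := by
          rw [Finset.filter_filter]
          apply Finset.filter_congr
          intro e _
          exact ⟨fun h => h.2, fun h => ⟨h ▸ Finset.mem_inter.1 hv, h⟩⟩
        rw [this]
        exact hev v
      have s2 : ∑ e ∈ (R.erase e1).erase e2, f e = 0 := by
        apply Finset.sum_involution (fun e _ => mate e)
        · intro e he
          obtain ⟨a2, he'⟩ := Finset.mem_erase.1 he
          obtain ⟨a1, he'⟩ := Finset.mem_erase.1 he'
          have : f (mate e) = f e := by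
            simp only [hf]
            by_cases hs : hd e ∈ S
            · have a3 : e ≠ e3 := fun h => h3 (h ▸ hs)
              have a4 : e ≠ e4 := fun h => h4 (h ▸ hs)
              have := hA e he'
              rw [vo e a1 a2 a3 a4] at this
              simp only [← this, ← hS e he']
            · simp only [← hS e he', hs, and_false]
          rw [this]
          exact CharTwo.add_self_eq_zero _
        · intro e he _
          exact (hm e (Finset.mem_of_mem_erase (Finset.mem_of_mem_erase he))).2.1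
        · intro e he
          obtain ⟨a2, he'⟩ := Finset.mem_erase.1 he
          obtain ⟨a1, he'⟩ := Finset.mem_erase.1 he'
          refine Finset.mem_erase.2 ⟨fun h => a1 ((hinj e he' _ he2 h).trans m21),
            Finset.mem_erase.2 ⟨fun h => a2 (hinj e he' _ he1 h), (hm e he').1⟩⟩
        · intro e he
          exact (hm e (Finset.mem_of_mem_erase (Finset.mem_of_mem_erase he))).2.2.1
      rw [← Finset.add_sum_erase _ _ he1, ← Finset.add_sum_erase _ _
        (Finset.mem_erase.2 ⟨n21, he2⟩), s2, add_zero] at s1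
      simp only [hf, h1, h2, and_true] at s1
      by_cases c1 : hd e1 ∈ A <;> by_cases c2 : hd e2 ∈ A <;> simp [c1, c2] at s1 ⊢
    intro e he
    by_cases a1 : e = e1
    · rw [a1]; exact b12
    by_cases a2 : e = e2
    · rw [a2, m21]; exact b12.symm
    by_cases a3 : e = e3
    · rw [a3, ← b13, b12, b24]
    by_cases a4 : e = e4
    · rw [a4, m43, ← b13, b12, b24]
    have := hA e he
    rwa [vo e a1 a2 a3 a4] at this

/-- Pairing the arcs at their tails so that the pairs connect the heads. -/
lemma exists_conn_mate {R : Finset ι} {tl hd : ι → V} (hR : Conn R tl hd) (Y : Finset V)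
    (hY : ∀ e ∈ R, tl e ∉ Y ∧ hd e ∈ Y)
    (hev : ∀ v, 2 ∣ (R.filter (fun e => tl e = v)).card + (R.filter (fun e => hd e = v)).card) :
    ∃ mate, IsMate R tl mate ∧
      ∀ A ⊆ Y, A.Nonempty → A ≠ Y → ∃ e ∈ R, ¬ (hd e ∈ A ↔ hd (mate e) ∈ A) := by
  classical
  have hev1 : ∀ v, 2 ∣ (R.filter (fun e => tl e = v)).card ∧
      2 ∣ (R.filter (fun e => hd e = v)).card := by
    intro v
    have h1 := hev v
    by_cases hv : v ∈ Y
    · have : R.filter (fun e => tl e = v) = ∅ :=
        Finset.filter_eq_empty_iff.2 fun e he h => (hY e he).1 (h ▸ hv)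
      rw [this] at h1 ⊢
      simpa using h1
    · have : R.filter (fun e => hd e = v) = ∅ :=
        Finset.filter_eq_empty_iff.2 fun e he h => hv (h ▸ (hY e he).2)
      rw [this] at h1 ⊢
      simpa using h1
  have key : ∀ (n : ℕ) (mate : ι → ι), IsMate R tl mate →
      (Finset.univ.filter (fun A : Finset V => ∀ e ∈ R, hd e ∈ A ↔ hd (mate e) ∈ A)).card < n →
      ∃ mate, IsMate R tl mate ∧
        ∀ A ⊆ Y, A.Nonempty → A ≠ Y → ∃ e ∈ R, ¬ (hd e ∈ A ↔ hd (mate e) ∈ A) := by
    intro n
    induction n with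
    | zero => intro mate _ h; omega
    | succ n ih =>
      intro mate hm hn
      by_cases h : ∀ A ⊆ Y, A.Nonempty → A ≠ Y → ∃ e ∈ R, ¬ (hd e ∈ A ↔ hd (mate e) ∈ A)
      · exact ⟨mate, hm, h⟩
      push Not at h
      obtain ⟨S, hSY, hS1, hS2, hS⟩ := h
      obtain ⟨y, hyY, hyS⟩ : ∃ y ∈ Y, y ∉ S := by
        by_contra h1
        push Not at h1
        exact hS2 (Finset.Subset.antisymm hSY h1)
      set AS := (R.filter (fun e => hd e ∈ S)).image tl with hAS
      obtain ⟨e3, he3, hc⟩ := hR (S ∪ AS) (hS1.mono Finset.subset_union_left) (by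
        intro h1
        have : y ∈ S ∪ AS := by rw [h1]; exact Finset.mem_univ _
        rcases Finset.mem_union.1 this with h2 | h2
        · exact hyS h2
        · obtain ⟨e, he, rfl⟩ := Finset.mem_image.1 h2
          exact (hY e (Finset.mem_filter.1 he).1).1 hyY)
      have h3 : hd e3 ∉ S := by
        intro h1
        apply hc
        constructor
        · intro _; exact Finset.mem_union_left _ h1
        · intro _
          exact Finset.mem_union_right _ (Finset.mem_image_of_mem _ (Finset.mem_filter.2 ⟨he3, h1⟩))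
      have h4 : tl e3 ∈ AS := by
        by_contra h1
        apply hc
        constructor
        · intro h2
          rcases Finset.mem_union.1 h2 with h2 | h2
          · exact absurd (hSY h2) (hY e3 he3).1
          · exact absurd h2 h1
        · intro h2
          rcases Finset.mem_union.1 h2 with h2 | h2
          · exact absurd h2 h3
          · obtain ⟨e, he, h5⟩ := Finset.mem_image.1 h2
            exact absurd (h5 ▸ (hY e3 he3).2) (hY e (Finset.mem_filter.1 he).1).1
      obtain ⟨e1, he1, htl⟩ := Finset.mem_image.1 h4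
      obtain ⟨he1, h1⟩ := Finset.mem_filter.1 he1
      obtain ⟨mate', hm', h5, h6⟩ := repair_mate hm (fun v => (hev1 v).2) hS he1 he3 h1 h3 htl
      apply ih mate' hm'
      refine lt_of_lt_of_le (Finset.card_lt_card ⟨?_, fun h7 => h5 ?_⟩) (Nat.le_of_lt_succ hn)
      · intro A hA
        exact Finset.mem_filter.2 ⟨Finset.mem_univ _, h6 A (Finset.mem_filter.1 hA).2⟩
      · exact (Finset.mem_filter.1 (h7 (Finset.mem_filter.2 ⟨Finset.mem_univ _, hS⟩))).2
  obtain ⟨mate, hm⟩ := exists_mate R tl (fun v => (hev1 v).1)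
  exact key _ mate hm (Nat.lt_succ_self _)

/-- From two disjoint connected arc sets, disjoint pairs of arcs that connect the heads. -/
theorem exists_pairs [Fintype ι] {R1 R2 : Finset ι} {tl hd : ι → V} (h1 : Conn R1 tl hd)
    (h2 : Conn R2 tl hd) (hdis : Disjoint R1 R2) (Y : Finset V)
    (hY : ∀ e ∈ R1 ∪ R2, tl e ∉ Y ∧ hd e ∈ Y) :
    ∃ (P : Finset ι) (mate : ι → ι), P ⊆ R1 ∪ R2 ∧
      (∀ e ∈ P, mate e ∈ R1 ∪ R2 ∧ mate e ∉ P ∧ tl (mate e) = tl e) ∧ Set.InjOn mate P ∧
      ∀ A ⊆ Y, A.Nonempty → A ≠ Y → ∃ e ∈ P, ¬ (hd e ∈ A ↔ hd (mate e) ∈ A) := by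
  obtain ⟨R, hR, hc, hev⟩ := exists_even h1 h2 hdis
  obtain ⟨mate, hm, h3⟩ := exists_conn_mate hc Y (fun e he => hY e (hR he)) hev
  set enc := Fintype.equivFin ι
  refine ⟨R.filter (fun e => enc e < enc (mate e)), mate, (Finset.filter_subset _ _).trans hR,
    fun e he => ?_, fun e he f hf h => ?_, fun A hA h4 h5 => ?_⟩
  · obtain ⟨he1, he2⟩ := Finset.mem_filter.1 he
    obtain ⟨a1, -, a3, a4⟩ := hm e he1
    refine ⟨hR a1, fun h => ?_, a4⟩
    have := (Finset.mem_filter.1 h).2
    rw [a3] at this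
    exact lt_asymm he2 this
  · have a1 := (hm e (Finset.mem_filter.1 he).1).2.2.1
    have a2 := (hm f (Finset.mem_filter.1 hf).1).2.2.1
    rw [← a1, h, a2]
  · obtain ⟨e, he, h6⟩ := h3 A hA h4 h5
    obtain ⟨a1, a2, a3, -⟩ := hm e he
    rcases lt_trichotomy (enc e) (enc (mate e)) with h7 | h7 | h7
    · exact ⟨e, Finset.mem_filter.2 ⟨he, h7⟩, h6⟩
    · exact absurd (enc.injective h7).symm a2
    · refine ⟨mate e, Finset.mem_filter.2 ⟨a1, by rw [a3]; exact h7⟩, ?_⟩
      rw [a3]
      exact fun h => h6 h.symm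

end Pool.Agent.Lib.MP_ae5681_co
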