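import Pool.Agent.Lib.MP_ae5681_co.Build2
import Pool.Agent.Lib.MP_ae5681_co.Colour2

set_option autoImplicit false

namespace Pool.Agent.Lib.MP_ae5681_co

open Finset

/-- Labels that are frequent in every fibre of the map of the same index. -/
lemma exists_labels {H C : Type*} [Fintype H] [DecidableEq H] [Fintype C] [DecidableEq C] (m : ℕ)
    (hm : 1 ≤ m) (g : ℕ → H → C) : ∃ lab : H → ℕ, ∀ c, 1 ≤ c → c ≤ m → ∀ μ,
      (Finset.univ.filter (fun x => g c x = μ)).card / m ≤
        (Finset.univ.filter (fun x => g c x = μ ∧ lab x = c)).card := by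
  set n : ℕ → C → ℕ := fun c μ => (Finset.univ.filter (fun x => g c x = μ)).card with hn
  set Sl : Finset (ℕ × C × ℕ) := (Finset.Icc 1 m ×ˢ Finset.univ ×ˢ
    Finset.range (Fintype.card H + 1)).filter (fun x => x.2.2 < n x.1 x.2.1 / m) with hSl
  obtain ⟨f, hf1, hf2⟩ := (Finset.all_card_le_biUnion_card_iff_exists_injective
    (fun x : Sl => Finset.univ.filter (fun y => g x.1.1 y = x.1.2.1))).1 (fun s => by
      set N := s.biUnion (fun x : Sl => Finset.univ.filter (fun y => g x.1.1 y = x.1.2.1)) with hN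
      have h1 : ∀ c ∈ Finset.Icc 1 m, m * (s.filter (fun x => x.1.1 = c)).card ≤ N.card := by
        intro c _
        set T := (s.filter (fun x => x.1.1 = c)).image (fun x => x.1.2.1) with hT
        have h2 : (Finset.univ.filter (fun y => g c y ∈ T)).card ≤ N.card := by
          apply Finset.card_le_card
          intro y hy
          obtain ⟨x, hx, hx2⟩ := Finset.mem_image.1 (Finset.mem_filter.1 hy).2
          obtain ⟨hx3, hx4⟩ := Finset.mem_filter.1 hx
          exact Finset.mem_biUnion.2 ⟨x, hx3, Finset.mem_filter.2 ⟨Finset.mem_univ _, by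
            rw [hx4, hx2]⟩⟩
        refine le_trans ?_ h2
        rw [card_fib _ T (fun x => x.1.2.1) (fun x hx => Finset.mem_image_of_mem _ hx),
          card_fib (Finset.univ.filter (fun y => g c y ∈ T)) T (g c)
            (fun y hy => (Finset.mem_filter.1 hy).2), Finset.mul_sum]
        apply Finset.sum_le_sum
        intro μ hμ
        have h3 : ((s.filter (fun x => x.1.1 = c)).filter (fun x => x.1.2.1 = μ)).card ≤
            (Finset.range (n c μ / m)).card := by
          apply Finset.card_le_card_of_injOn (fun x => x.1.2.2)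
          · intro x hx
            obtain ⟨a1, a2⟩ := Finset.mem_filter.1 hx
            have a3 := (Finset.mem_filter.1 x.2).2
            rw [(Finset.mem_filter.1 a1).2, a2] at a3
            exact Finset.mem_coe.2 (Finset.mem_range.2 a3)
          · intro x hx x' hx' h
            obtain ⟨a1, a2⟩ := Finset.mem_filter.1 hx
            obtain ⟨a3, a4⟩ := Finset.mem_filter.1 hx'
            apply Subtype.ext
            exact Prod.ext ((Finset.mem_filter.1 a1).2.trans (Finset.mem_filter.1 a3).2.symm)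
              (Prod.ext (a2.trans a4.symm) h)
        rw [Finset.card_range] at h3
        have h4 : (Finset.univ.filter (fun y => g c y ∈ T)).filter (fun y => g c y = μ) =
            Finset.univ.filter (fun y => g c y = μ) := by
          rw [Finset.filter_filter]
          apply Finset.filter_congr
          intro y _
          exact ⟨fun h => h.2, fun h => ⟨h ▸ hμ, h⟩⟩
        rw [h4]
        exact (Nat.mul_le_mul_left m h3).trans (Nat.mul_div_le _ _)
      have h2 := Finset.sum_le_sum h1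
      rw [← Finset.mul_sum, ← card_fib s (Finset.Icc 1 m) (fun x => x.1.1) (fun x _ =>
        (Finset.mem_product.1 (Finset.mem_filter.1 x.2).1).1), Finset.sum_const, smul_eq_mul,
        Nat.card_Icc, Nat.add_sub_cancel] at h2
      exact Nat.le_of_mul_le_mul_left h2 hm)
  have h1 : ∀ y, ∃ c, ∀ x : Sl, f x = y → c = x.1.1 := by
    intro y
    by_cases h : ∃ x, f x = y
    · obtain ⟨x, hx⟩ := h
      exact ⟨x.1.1, fun x' hx' => by rw [hf1 (hx.trans hx'.symm)]⟩
    · exact ⟨0, fun x hx => absurd ⟨x, hx⟩ h⟩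
  choose lab hlab using h1
  refine ⟨lab, fun c h1 h2 μ => ?_⟩
  have h3 : ∀ r : Fin (n c μ / m), (c, μ, r.1) ∈ Sl := by
    intro r
    have a1 : n c μ ≤ Fintype.card H := Finset.card_le_univ _
    have a2 := Nat.div_le_self (n c μ) m
    have a3 := r.2
    simp only [hSl, Finset.mem_filter, Finset.mem_product, Finset.mem_Icc, Finset.mem_univ,
      Finset.mem_range, true_and]
    exact ⟨⟨⟨h1, h2⟩, by omega⟩, a3⟩
  have h4 := Finset.card_le_card_of_injOn (s := Finset.univ)
    (t := Finset.univ.filter (fun x => g c x = μ ∧ lab x = c))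
    (fun r : Fin (n c μ / m) => f ⟨_, h3 r⟩) (fun r _ => Finset.mem_coe.2 (Finset.mem_filter.2
      ⟨Finset.mem_univ _, (Finset.mem_filter.1 (hf2 ⟨_, h3 r⟩)).2, hlab _ _ rfl⟩))
    (fun r _ r' _ h => by
      have := congrArg (fun x : Sl => x.1.2.2) (hf1 h)
      exact Fin.ext this)
  simpa using h4

/-- Distinct representatives inside blocks. -/
lemma exists_partners {H C : Type*} [DecidableEq H] [DecidableEq C] (B : Finset H) (blk : H → C)
    (cand : H → Finset H) (h1 : ∀ x ∈ B, ∀ y ∈ cand x, blk y = blk x)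
    (h2 : ∀ x ∈ B, (B.filter (fun y => blk y = blk x)).card ≤ (cand x).card) :
    ∃ ρ : H → H, Set.InjOn ρ B ∧ ∀ x ∈ B, ρ x ∈ cand x := by
  obtain ⟨f, hf1, hf2⟩ := (Finset.all_card_le_biUnion_card_iff_exists_injective
    (fun x : B => cand x.1)).1 (fun s => by
      rw [card_fib s (s.image (fun x => blk x.1)) (fun x => blk x.1)
        (fun x hx => Finset.mem_image_of_mem _ hx),
        card_fib (s.biUnion (fun x : B => cand x.1)) (s.image (fun x => blk x.1)) blk (fun y hy => by
          obtain ⟨x, hx, hy⟩ := Finset.mem_biUnion.1 hy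
          exact Finset.mem_image.2 ⟨x, hx, (h1 x.1 x.2 y hy).symm⟩)]
      apply Finset.sum_le_sum
      intro μ hμ
      obtain ⟨x, hx, rfl⟩ := Finset.mem_image.1 hμ
      refine le_trans ?_ ((h2 x.1 x.2).trans (Finset.card_le_card ?_))
      · apply Finset.card_le_card_of_injOn Subtype.val
        · intro y hy
          exact Finset.mem_coe.2 (Finset.mem_filter.2 ⟨y.2, (Finset.mem_filter.1 hy).2⟩)
        · exact Subtype.val_injective.injOn
      · intro y hy
        exact Finset.mem_filter.2 ⟨Finset.mem_biUnion.2 ⟨x, hx, hy⟩, h1 x.1 x.2 y hy⟩)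
  refine ⟨fun x => if h : x ∈ B then f ⟨x, h⟩ else x, fun x hx y hy h => ?_, fun x hx => ?_⟩
  · have hx' : x ∈ B := hx
    have hy' : y ∈ B := hy
    simp only [dif_pos hx', dif_pos hy'] at h
    exact congrArg Subtype.val (hf1 h)
  · simp only [dif_pos hx]
    exact hf2 ⟨x, hx⟩

lemma exists_desc (par : ℕ → ℕ) (hpar : ∀ c, 1 ≤ c → par c < c) (c : ℕ) :
    ∃ De : ℕ → Prop, De c ∧ (∀ s, De s → c ≤ s) ∧ ∀ s, 1 ≤ s → s ≠ c → (De s ↔ De (par s)) := by
  refine ⟨fun s => Relation.ReflTransGen (fun a b => 1 ≤ b ∧ par b = a) c s,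
    Relation.ReflTransGen.refl, fun s hs => ?_, fun s h1 h2 => ⟨fun h => ?_, fun h => ?_⟩⟩
  · induction hs with
    | refl => exact le_rfl
    | tail _ h ih => have := hpar _ h.1; omega
  · rcases Relation.ReflTransGen.cases_tail h with h | ⟨a, h3, -, h4⟩
    · exact absurd h h2
    · rw [h4]; exact h3
  · exact h.tail ⟨h1, rfl⟩

variable {H ι V C : Type} [Fintype H] [DecidableEq H] [Fintype ι] [DecidableEq ι] [Fintype V]
  [DecidableEq V] [Fintype C] [DecidableEq C]

/-- Apart from position `t`, the copy `ψ` avoids the copy `φ`. -/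
def Avoid (ψ φ : ℕ → V) (m t : ℕ) : Prop :=
  ∀ s' ∈ (Finset.range (m + 1)).erase t, ∀ s ∈ Finset.range (m + 1), ψ s' ≠ φ s

instance (ψ φ : ℕ → V) (m t : ℕ) : Decidable (Avoid ψ φ m t) := by unfold Avoid; infer_instance

/-- Invariants of the repair. -/
structure Rep (par : ℕ → ℕ) (col : ι → ℕ) (up dn : ι → V) (m : ℕ) (φ0 : H → ℕ → V) (lab : H → ℕ)
    (c : ℕ) (φ : H → ℕ → V) (ε : H → ℕ → ι) : Prop where
  str : Struct par col up dn m φ ε
  low : ∀ x, ∀ s ≤ c, φ x s = φ0 x s
  conf : ∀ x s1 s2, s1 < s2 → s2 ≤ m → φ x s1 = φ x s2 → s2 ≤ c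
  fresh : ∀ x, ¬ Bad (φ0 x) m → lab x ≤ c → ∀ s, φ x s = φ0 x s

omit [Fintype ι] [DecidableEq ι] [Fintype V] in
/-- One round of the repair, given partners. -/
lemma rep_step {par : ℕ → ℕ} (hpar : ∀ c, 1 ≤ c → par c < c) {col : ι → ℕ} {up dn : ι → V}
    (hloop : ∀ e, up e ≠ dn e) {m : ℕ} {φ0 : H → ℕ → V} {lab : H → ℕ} {c : ℕ} (hc : c + 1 ≤ m)
    {φ : H → ℕ → V} {ε : H → ℕ → ι} (h : Rep par col up dn m φ0 lab (c + 1) φ ε) (ρ : H → H)
    (hinj : Set.InjOn ρ (Finset.univ.filter (fun x => Hit (φ x) c (φ x (c + 1)))))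
    (hρ : ∀ x, Hit (φ x) c (φ x (c + 1)) → φ0 (ρ x) (par (c + 1)) = φ0 x (par (c + 1)) ∧
      lab (ρ x) = c + 1 ∧ ¬ Bad (φ0 (ρ x)) m ∧
      ∀ s' ≤ m, s' ≠ par (c + 1) → ∀ s ≤ m, φ0 (ρ x) s' ≠ φ x s) :
    ∃ (φ' : H → ℕ → V) (ε' : H → ℕ → ι), Rep par col up dn m φ0 lab c φ' ε' := by
  classical
  set t := par (c + 1) with ht
  have htc : t ≤ c := by have := hpar (c + 1) (by omega); omega
  set Bs := Finset.univ.filter (fun x => Hit (φ x) c (φ x (c + 1))) with hBs
  have hmem : ∀ x, x ∈ Bs ↔ Hit (φ x) c (φ x (c + 1)) := by simp [hBs]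
  have hbad : ∀ x ∈ Bs, Bad (φ0 x) m := by
    intro x hx
    obtain ⟨s, hs, h1⟩ := (hmem x).1 hx
    have hs' := Finset.mem_range.1 hs
    rw [h.low x s (by omega), h.low x (c + 1) le_rfl] at h1
    exact ⟨c + 1, Finset.mem_range.2 (by omega), s, hs, h1⟩
  obtain ⟨τ, hτ1, hτ2, hτ3⟩ := exists_invol Bs ρ hinj
    (fun x hx h1 => (hρ x ((hmem x).1 hx)).2.2.1 (hbad _ h1))
  obtain ⟨De, hD1, hD2, hD3⟩ := exists_desc par hpar (c + 1)
  have hfr : ∀ x ∈ Bs, ∀ s, φ (ρ x) s = φ0 (ρ x) s := fun x hx =>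
    h.fresh _ (hρ x ((hmem x).1 hx)).2.2.1 (hρ x ((hmem x).1 hx)).2.1.le
  have hcase : ∀ x, x ∈ Bs ∨ (∃ y ∈ Bs, x = ρ y ∧ τ x = y) ∨ (x ∉ Bs ∧ τ x = x) := by
    intro x
    by_cases h1 : x ∈ Bs
    · exact Or.inl h1
    by_cases h2 : x ∈ Bs.image ρ
    · obtain ⟨y, hy, rfl⟩ := Finset.mem_image.1 h2
      exact Or.inr (Or.inl ⟨y, hy, rfl, by rw [← hτ2 y hy, hτ1]⟩)
    · exact Or.inr (Or.inr ⟨h1, hτ3 x h1 h2⟩)
  have hBt : ∀ x ∈ Bs, φ (ρ x) t = φ x t := by
    intro x hx
    rw [hfr x hx, (hρ x ((hmem x).1 hx)).1, h.low x t (by omega)]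
  have hτt : ∀ x, φ (τ x) t = φ x t := by
    intro x
    rcases hcase x with h1 | ⟨y, hy, rfl, h1⟩ | ⟨-, h1⟩
    · rw [hτ2 x h1, hBt x h1]
    · rw [h1, hBt y hy]
    · rw [h1]
  have hninj : ∀ x, ¬ Bad (φ0 x) m → ∀ s1 s2, s1 < s2 → s2 ≤ m → φ0 x s1 ≠ φ0 x s2 :=
    fun x hx s1 s2 h1 h2 h3 => hx ⟨s2, Finset.mem_range.2 (by omega), s1, Finset.mem_range.2 h1, h3⟩
  refine ⟨fun x s => if De s then φ (τ x) s else φ x s,
    fun x s => if De s then ε (τ x) s else ε x s, fun s h1 h2 => ?_, fun x s hs => ?_,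
    fun x s1 s2 h1 h2 h3 => ?_, fun x h1 h2 s => ?_⟩
  · obtain ⟨a1, a2, a3⟩ := h.str s h1 h2
    by_cases hs : De s
    · simp only [if_pos hs]
      refine ⟨fun x => ⟨(a1 _).1, ?_, (a1 _).2.2⟩, fun x y hxy => ?_, fun e he => ?_⟩
      · rw [(a1 _).2.1]
        by_cases a4 : s = c + 1
        · subst a4
          rw [if_neg (fun a5 => by have := hD2 _ a5; omega)]
          exact hτt x
        · rw [if_pos ((hD3 s h1 a4).1 hs)]
      · rw [← hτ1 x, a2 hxy, hτ1]
      · obtain ⟨x, hx⟩ := a3 e he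
        exact ⟨τ x, by rw [hτ1]; exact hx⟩
    · have a4 : ¬ De (par s) := fun a5 => hs ((hD3 s h1 (fun a6 => hs (a6 ▸ hD1))).2 a5)
      simp only [if_neg hs, if_neg a4]
      exact ⟨a1, a2, a3⟩
  · rw [if_neg (fun a5 => by have := hD2 _ a5; omega)]
    exact h.low x s (by omega)
  · rcases hcase x with h4 | ⟨y, hy, rfl, h4⟩ | ⟨h4, h5⟩
    · obtain ⟨-, -, a1, a2⟩ := hρ x ((hmem x).1 h4)
      rw [hτ2 x h4, hfr x h4, hfr x h4] at h3
      have a3 : ∀ s, De s → s ≠ t := fun s hs => by have := hD2 _ hs; omega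
      by_cases b1 : De s1 <;> by_cases b2 : De s2
      · rw [if_pos b1, if_pos b2] at h3
        exact absurd h3 (hninj _ a1 s1 s2 h1 h2)
      · rw [if_pos b1, if_neg b2] at h3
        exact absurd h3 (a2 s1 (by omega) (a3 s1 b1) s2 h2)
      · rw [if_neg b1, if_pos b2] at h3
        exact absurd h3.symm (a2 s2 h2 (a3 s2 b2) s1 (by omega))
      · rw [if_neg b1, if_neg b2] at h3
        have b3 := h.conf x s1 s2 h1 h2 h3
        have b4 : s2 ≠ c + 1 := fun b5 => b2 (b5 ▸ hD1)
        omega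
    · obtain ⟨a0, -, a1, a2⟩ := hρ y ((hmem y).1 hy)
      rw [h4, hfr y hy, hfr y hy] at h3
      by_cases b1 : De s1 <;> by_cases b2 : De s2
      · rw [if_pos b1, if_pos b2] at h3
        have b3 := h.conf y s1 s2 h1 h2 h3
        have b4 := hD2 _ b1
        omega
      · rw [if_pos b1, if_neg b2] at h3
        have b4 := hD2 _ b1
        exact absurd h3.symm (a2 s2 h2 (by omega) s1 (by omega))
      · rw [if_neg b1, if_pos b2] at h3
        by_cases b3 : s1 = t
        · rw [b3, a0, ← h.low y t (by omega)] at h3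
          have b4 := h.conf y t s2 (b3 ▸ h1) h2 h3
          have b5 := hD2 _ b2
          have b6 : s2 = c + 1 := by omega
          obtain ⟨b7, -, -⟩ := h.str (c + 1) (by omega) hc
          obtain ⟨-, b8, b9⟩ := b7 y
          rw [b6] at h3
          exact absurd (by rw [b8, b9]; exact h3) (hloop (ε y (c + 1)))
        · exact absurd h3 (a2 s1 (by omega) b3 s2 h2)
      · rw [if_neg b1, if_neg b2] at h3
        exact absurd h3 (hninj _ a1 s1 s2 h1 h2)
    · rw [h5, ite_self, ite_self] at h3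
      have b3 := h.conf x s1 s2 h1 h2 h3
      by_contra b4
      have b5 : s2 = c + 1 := by omega
      subst b5
      exact h4 ((hmem x).2 ⟨s1, Finset.mem_range.2 h1, h3⟩)
  · rcases hcase x with h4 | ⟨y, hy, rfl, -⟩ | ⟨-, h5⟩
    · exact absurd (hbad x h4) h1
    · have := (hρ y ((hmem y).1 hy)).2.1
      omega
    · rw [h5, ite_self]
      exact h.fresh x h1 (by omega) s

omit [Fintype ι] [DecidableEq ι] [Fintype V] in
/-- All repetitions can be repaired. -/
theorem repair {π : C → V} {par : ℕ → ℕ} (hpar : ∀ c, 1 ≤ c → par c < c) {col : ι → ℕ}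
    {cu cd : ι → C} {sz : ℕ → C → ℕ} {D m : ℕ} {E B : ℝ} (hm : 1 ≤ m) (hD : 0 < D)
    (hsz : ∀ s ≤ m, ∀ μ, sz s μ = 0 ∨ D ≤ sz s μ) (hloop : ∀ e, π (cu e) ≠ π (cd e))
    (hnum : (m : ℝ) * (1 + 2 * B + m * (m + 1) * E) ≤ D) {ν : H → ℕ → C} {ε : H → ℕ → ι}
    (h : Stage π par col cu cd sz D E B m ν ε) :
    ∃ (φ : H → ℕ → V) (ε' : H → ℕ → ι),
      Struct par col (fun e => π (cu e)) (fun e => π (cd e)) m φ ε' ∧
      ∀ x s1 s2, s1 < s2 → s2 ≤ m → φ x s1 ≠ φ x s2 := by
  obtain ⟨lab, hlab⟩ := exists_labels m hm (fun c x => ν x (par c))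
  have hD' : (0 : ℝ) < D := Nat.cast_pos.2 hD
  have key : ∀ k c, c + k = m → ∃ (φ : H → ℕ → V) (ε' : H → ℕ → ι),
      Rep par col (fun e => π (cu e)) (fun e => π (cd e)) m (fun x s => π (ν x s)) lab c φ ε' := by
    intro k
    induction k with
    | zero =>
      intro c hc
      refine ⟨fun x s => π (ν x s), ε, fun s h1 h2 => ?_, fun _ _ _ => rfl,
        fun _ _ _ _ h2 _ => by omega, fun _ _ _ _ => rfl⟩
      obtain ⟨a1, a2, a3⟩ := h.str s h1 h2
      exact ⟨fun x => ⟨(a1 x).1, congrArg π (a1 x).2.1, congrArg π (a1 x).2.2⟩, a2, a3⟩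
    | succ k ih =>
      intro c hc
      obtain ⟨φ, ε', hr⟩ := ih (c + 1) (by omega)
      set t := par (c + 1) with ht
      have htc : t ≤ c := by have := hpar (c + 1) (by omega); omega
      obtain ⟨ρ, hρ1, hρ2⟩ := exists_partners
        (Finset.univ.filter (fun x => Hit (φ x) c (φ x (c + 1)))) (fun x => ν x t)
        (fun x => Finset.univ.filter (fun y => ν y t = ν x t ∧ lab y = c + 1 ∧
          ¬ Bad (fun s => π (ν y s)) m ∧ Avoid (fun s => π (ν y s)) (φ x) m t))
        (fun x _ y hy => (Finset.mem_filter.1 hy).2.1) (fun x _ => by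
          set μ := ν x t with hμ
          have a0 : D ≤ sz t μ := by
            rcases hsz t (by omega) μ with a1 | a1
            · rw [← h.size t (by omega)] at a1
              have : 0 < (Finset.univ.filter (fun y => ν y t = μ)).card :=
                Finset.card_pos.2 ⟨x, by simp [hμ]⟩
              omega
            · exact a1
          have a1 := h.bad t (by omega) μ
          have a2 : ((Finset.univ.filter (fun x => Hit (φ x) c (φ x (c + 1)))).filter
              (fun y => ν y t = μ)).card ≤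
              (Finset.univ.filter (fun y => ν y t = μ ∧ Bad (fun s => π (ν y s)) m)).card := by
            apply Finset.card_le_card
            intro y hy
            obtain ⟨b1, b2⟩ := Finset.mem_filter.1 hy
            obtain ⟨s, hs, b3⟩ := (Finset.mem_filter.1 b1).2
            have hs' := Finset.mem_range.1 hs
            rw [hr.low y s (by omega), hr.low y (c + 1) le_rfl] at b3
            exact Finset.mem_filter.2 ⟨Finset.mem_univ _, b2, c + 1, Finset.mem_range.2 (by omega),
              s, hs, b3⟩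
          have a3 := hlab (c + 1) (by omega) (by omega) μ
          rw [h.size t (by omega)] at a3
          set Cd := Finset.univ.filter (fun y => ν y t = μ ∧ lab y = c + 1 ∧
            ¬ Bad (fun s => π (ν y s)) m ∧ Avoid (fun s => π (ν y s)) (φ x) m t) with hCd
          have a4 : Finset.univ.filter (fun y => ν y t = μ ∧ lab y = c + 1) ⊆
              Cd ∪ Finset.univ.filter (fun y => ν y t = μ ∧ Bad (fun s => π (ν y s)) m) ∪
              (((Finset.range (m + 1)).erase t) ×ˢ Finset.range (m + 1)).biUnion (fun p =>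
                Finset.univ.filter (fun y => ν y t = μ ∧ π (ν y p.1) = φ x p.2)) := by
            intro y hy
            obtain ⟨-, b1, b2⟩ := Finset.mem_filter.1 hy
            by_cases b3 : Bad (fun s => π (ν y s)) m
            · exact Finset.mem_union_left _ (Finset.mem_union_right _
                (Finset.mem_filter.2 ⟨Finset.mem_univ _, b1, b3⟩))
            by_cases b4 : Avoid (fun s => π (ν y s)) (φ x) m t
            · exact Finset.mem_union_left _ (Finset.mem_union_left _
                (Finset.mem_filter.2 ⟨Finset.mem_univ _, b1, b2, b3, b4⟩))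
            · unfold Avoid at b4
              push Not at b4
              obtain ⟨s', hs', s, hs, b5⟩ := b4
              exact Finset.mem_union_right _ (Finset.mem_biUnion.2 ⟨(s', s),
                Finset.mem_product.2 ⟨hs', hs⟩, Finset.mem_filter.2 ⟨Finset.mem_univ _, b1, b5⟩⟩)
          have a5 := a3.trans ((Finset.card_le_card a4).trans ((Finset.card_union_le _ _).trans
            (Nat.add_le_add (Finset.card_union_le _ _) Finset.card_biUnion_le)))
          have a6 := mul_le_mul_of_nonneg_left ((Nat.cast_le (α := ℝ)).2 a5) hD'.le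
          rw [Nat.cast_add, Nat.cast_add, Nat.cast_sum, mul_add, mul_add, Finset.mul_sum] at a6
          have a7 : ∑ p ∈ ((Finset.range (m + 1)).erase t) ×ˢ Finset.range (m + 1), (D : ℝ) *
              (Finset.univ.filter (fun y => ν y t = μ ∧ π (ν y p.1) = φ x p.2)).card ≤
              m * (m + 1) * E * sz t μ := by
            calc _ ≤ ∑ _p ∈ ((Finset.range (m + 1)).erase t) ×ˢ Finset.range (m + 1),
                    E * sz t μ := Finset.sum_le_sum fun p hp => by
                  obtain ⟨b1, b2⟩ := Finset.mem_erase.1 (Finset.mem_product.1 hp).1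
                  exact h.spread t (by omega) p.1 (by have := Finset.mem_range.1 b2; omega)
                    b1.symm _ _
              _ = _ := by
                  rw [Finset.sum_const, nsmul_eq_mul, Finset.card_product,
                    Finset.card_erase_of_mem (Finset.mem_range.2 (by omega)), Finset.card_range]
                  push_cast
                  ring
          have a8 : (sz t μ : ℝ) < m * ((sz t μ / m : ℕ) + 1) := by
            exact_mod_cast Nat.lt_mul_div_succ (sz t μ) hm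
          have a9 : (D : ℝ) ≤ sz t μ := Nat.cast_le.2 a0
          have hm' : (0 : ℝ) < m := Nat.cast_pos.2 hm
          have a10 : (1 + 2 * B + m * (m + 1) * E) * sz t μ ≤ D * ((sz t μ / m : ℕ) + 1) := by
            apply le_of_mul_le_mul_left _ hm'
            calc _ = (m * (1 + 2 * B + m * (m + 1) * E)) * sz t μ := by ring
              _ ≤ D * sz t μ := mul_le_mul_of_nonneg_right hnum (Nat.cast_nonneg _)
              _ ≤ D * (m * ((sz t μ / m : ℕ) + 1)) := mul_le_mul_of_nonneg_left a8.le hD'.le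
              _ = _ := by ring
          have a11 := mul_le_mul_of_nonneg_left ((Nat.cast_le (α := ℝ)).2 a2) hD'.le
          have a12 : (D : ℝ) * (((Finset.univ.filter (fun x => Hit (φ x) c (φ x (c + 1)))).filter
              (fun y => ν y t = μ)).card : ℕ) ≤ D * (Cd.card : ℕ) := by linarith
          exact_mod_cast le_of_mul_le_mul_left a12 hD')
      exact rep_step hpar hloop (by omega) hr ρ hρ1 (fun x hx => by
        obtain ⟨-, b1, b2, b3, b4⟩ := Finset.mem_filter.1
          (hρ2 x (Finset.mem_filter.2 ⟨Finset.mem_univ _, hx⟩))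
        exact ⟨congrArg π b1, b2, b3, fun s' h1 h2 s h3 => b4 s'
          (Finset.mem_erase.2 ⟨h2, Finset.mem_range.2 (by omega)⟩) s (Finset.mem_range.2 (by omega))⟩)
  obtain ⟨φ, ε', hr⟩ := key m 0 (by omega)
  exact ⟨φ, ε', hr.str, fun x s1 s2 h1 h2 h3 => by have := hr.conf x s1 s2 h1 h2 h3; omega⟩

end Pool.Agent.Lib.MP_ae5681_co
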