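import Pool.Agent.Lib.MP_ae5681_co.Util

set_option autoImplicit false

namespace Pool.Agent.Lib.MP_ae5681_co

open Finset

lemma exists_kernel {A B : Type*} [Fintype A] [Fintype B] (M : B → A → ℝ)
    (h : Fintype.card B < Fintype.card A) : ∃ x : A → ℝ, x ≠ 0 ∧ ∀ b, ∑ a, M b a * x a = 0 := by
  classical
  have h1 : LinearMap.ker (Matrix.mulVecLin (Matrix.of M)) ≠ ⊥ :=
    LinearMap.ker_ne_bot_of_finrank_lt (by simpa using h)
  obtain ⟨x, hx, hx0⟩ := Submodule.exists_mem_ne_zero_of_ne_bot h1
  refine ⟨x, hx0, fun b => ?_⟩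
  have := congrFun (LinearMap.mem_ker.1 hx) b
  simpa [Matrix.mulVec, dotProduct] using this

/-- Rounding with exact group sums and bounded error in sparse side constraints. -/
lemma round01 {P G K : Type*} [Fintype P] [DecidableEq G] [Fintype K] (gr : P → G)
    (a : K → P → ℝ) (Δ : ℝ) (hΔ0 : 0 ≤ Δ) (hΔ : ∀ p, ∑ κ, |a κ p| ≤ Δ) (n : ℕ) :
    ∀ y : P → ℝ, (∀ p, 0 ≤ y p ∧ y p ≤ 1) →
      (Finset.univ.filter (fun p => y p ≠ 0 ∧ y p ≠ 1)).card ≤ n →
      (∀ g, ∃ z : ℤ, ∑ p ∈ Finset.univ.filter (fun p => gr p = g), y p = z) →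
      ∃ z : P → ℝ, (∀ p, z p = 0 ∨ z p = 1) ∧ (∀ p, y p = 0 ∨ y p = 1 → z p = y p) ∧
        (∀ g, ∑ p ∈ Finset.univ.filter (fun p => gr p = g), z p =
          ∑ p ∈ Finset.univ.filter (fun p => gr p = g), y p) ∧
        ∀ κ, ∑ p, a κ p * z p ≤ ∑ p, a κ p * y p + 2 * Δ := by
  classical
  have base : ∀ y : P → ℝ, (Finset.univ.filter (fun p => y p ≠ 0 ∧ y p ≠ 1)) = ∅ →
      ∃ z : P → ℝ, (∀ p, z p = 0 ∨ z p = 1) ∧ (∀ p, y p = 0 ∨ y p = 1 → z p = y p) ∧
        (∀ g, ∑ p ∈ Finset.univ.filter (fun p => gr p = g), z p =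
          ∑ p ∈ Finset.univ.filter (fun p => gr p = g), y p) ∧
        ∀ κ, ∑ p, a κ p * z p ≤ ∑ p, a κ p * y p + 2 * Δ := by
    intro y h
    refine ⟨y, fun p => ?_, fun _ _ => rfl, fun _ => rfl, fun κ => by linarith⟩
    have := Finset.filter_eq_empty_iff.1 h (Finset.mem_univ p)
    tauto
  induction n with
  | zero =>
    intro y _ h _
    exact base y (Finset.card_eq_zero.1 (Nat.le_zero.1 h))
  | succ n ih =>
    intro y hy hn hg
    set Fr := Finset.univ.filter (fun p => y p ≠ 0 ∧ y p ≠ 1) with hFr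
    rcases Fr.eq_empty_or_nonempty with h0 | h0
    · exact base y h0
    have hint : ∀ p, p ∉ Fr → y p = 0 ∨ y p = 1 := by
      intro p hp
      by_contra h
      exact hp (Finset.mem_filter.2 ⟨Finset.mem_univ _, not_or.1 h⟩)
    set G' := Fr.image gr with hG'
    set K' := Finset.univ.filter (fun κ => 2 * Δ < ∑ p ∈ Fr, |a κ p|) with hK'
    have h1 : 2 * G'.card ≤ Fr.card := by
      apply Finset.mul_card_image_le_card
      intro g hg'
      obtain ⟨p, hp, rfl⟩ := Finset.mem_image.1 hg'
      by_contra h2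
      have h3 : ∀ p' ∈ (Finset.univ.filter (fun p' => gr p' = gr p)).erase p, p' ∉ Fr := by
        intro p' hp' h4
        obtain ⟨h5, h6⟩ := Finset.mem_erase.1 hp'
        exact h2 (Finset.one_lt_card.2 ⟨p', Finset.mem_filter.2 ⟨h4, (Finset.mem_filter.1 h6).2⟩, p,
          Finset.mem_filter.2 ⟨hp, rfl⟩, h5⟩)
      obtain ⟨z, hz⟩ := hg (gr p)
      have hpm : p ∈ Finset.univ.filter (fun p' => gr p' = gr p) := by simp
      rw [← Finset.add_sum_erase _ _ hpm,
        Finset.sum_congr rfl (g := fun p' => ((if y p' = 1 then 1 else 0 : ℤ) : ℝ)) (fun p' hp' => by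
          rcases hint p' (h3 p' hp') with h | h <;> simp [h]), ← Int.cast_sum] at hz
      obtain ⟨-, h4, h5⟩ := Finset.mem_filter.1 hp
      have h6 : y p = ((z - ∑ p' ∈ (Finset.univ.filter (fun p' => gr p' = gr p)).erase p,
        (if y p' = 1 then 1 else 0 : ℤ) : ℤ) : ℝ) := by rw [Int.cast_sub, ← hz]; ring
      have h7 : 0 < y p := lt_of_le_of_ne (hy p).1 (Ne.symm h4)
      have h8 : y p < 1 := lt_of_le_of_ne (hy p).2 h5
      rw [h6] at h7 h8
      have h9 := Int.cast_pos.1 h7
      have h10 := Int.cast_lt.1 (h8.trans_eq Int.cast_one.symm)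
      omega
    have h2 : 2 * K'.card < Fr.card := by
      rcases K'.eq_empty_or_nonempty with h3 | h3
      · rw [h3]; simpa using h0
      have h4 : ∑ _κ ∈ K', 2 * Δ < ∑ κ ∈ K', ∑ p ∈ Fr, |a κ p| :=
        Finset.sum_lt_sum_of_nonempty h3 fun κ hκ => (Finset.mem_filter.1 hκ).2
      have h5 : ∑ κ ∈ K', ∑ p ∈ Fr, |a κ p| ≤ ∑ _p ∈ Fr, Δ := by
        rw [Finset.sum_comm]
        apply Finset.sum_le_sum
        intro p _
        exact le_trans (Finset.sum_le_sum_of_subset_of_nonneg (Finset.subset_univ _)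
          fun _ _ _ => abs_nonneg _) (hΔ p)
      rw [Finset.sum_const, nsmul_eq_mul] at h4 h5
      have h6 : ((2 * K'.card : ℕ) : ℝ) * Δ < Fr.card * Δ := by push_cast; linarith
      exact_mod_cast lt_of_mul_lt_mul_right h6 hΔ0
    obtain ⟨x0, hx0, hx1⟩ := exists_kernel (A := Fr) (B := G' ⊕ K')
      (fun b p => Sum.elim (fun g : G' => if gr p.1 = g.1 then 1 else 0) (fun κ : K' => a κ.1 p.1) b)
      (by simp only [Fintype.card_sum, Fintype.card_coe]; omega)
    set x : P → ℝ := fun p => if h : p ∈ Fr then x0 ⟨p, h⟩ else 0 with hx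
    have hsum : ∀ c : P → ℝ, ∑ p, c p * x p = ∑ p : Fr, c p.1 * x0 p := by
      intro c
      rw [← Finset.sum_subset (Finset.subset_univ Fr) (fun p _ hp => by simp [hx, hp]),
        ← Finset.sum_coe_sort Fr]
      apply Finset.sum_congr rfl
      intro p _
      simp [hx, p.2]
    have hxg : ∀ g, ∑ p ∈ Finset.univ.filter (fun p => gr p = g), x p = 0 := by
      intro g
      by_cases h3 : g ∈ G'
      · have := hx1 (Sum.inl ⟨g, h3⟩)
        simp only [Sum.elim_inl] at this
        rw [← hsum (fun p => if gr p = g then 1 else 0)] at this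
        rw [Finset.sum_filter]
        refine Eq.trans ?_ this
        apply Finset.sum_congr rfl
        intro p _
        split_ifs <;> simp
      · apply Finset.sum_eq_zero
        intro p hp
        have : p ∉ Fr := fun h => h3 ((Finset.mem_filter.1 hp).2 ▸ Finset.mem_image_of_mem _ h)
        simp [hx, this]
    have hxk : ∀ κ ∈ K', ∑ p, a κ p * x p = 0 := by
      intro κ hκ
      rw [hsum]
      exact hx1 (Sum.inr ⟨κ, hκ⟩)
    have hxF : ∀ p, x p ≠ 0 → p ∈ Fr := by
      intro p hp
      by_contra h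
      exact hp (by simp [hx, h])
    obtain ⟨p0, hp0, hmin⟩ := Finset.exists_min_image (Finset.univ.filter (fun p => x p ≠ 0))
      (fun p => if 0 < x p then (1 - y p) / x p else y p / (-x p)) (by
        obtain ⟨p, hp⟩ := Function.ne_iff.1 hx0
        exact ⟨p.1, Finset.mem_filter.2 ⟨Finset.mem_univ _, by simpa [hx, p.2] using hp⟩⟩)
    have hp0' := (Finset.mem_filter.1 hp0).2
    set τ := (if 0 < x p0 then (1 - y p0) / x p0 else y p0 / (-x p0)) with hτ
    have hτ0 : 0 ≤ τ := by
      rw [hτ]
      split_ifs with h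
      · exact div_nonneg (by linarith [(hy p0).2]) h.le
      · exact div_nonneg (hy p0).1 (by linarith)
    obtain ⟨z, hz1, hz2, hz3, hz4⟩ := ih (fun p => y p + τ * x p) (fun p => by
        rcases lt_trichotomy (x p) 0 with h | h | h
        · have h3 := hmin p (Finset.mem_filter.2 ⟨Finset.mem_univ _, h.ne⟩)
          rw [if_neg (not_lt.2 h.le), le_div_iff₀ (by linarith)] at h3
          constructor
          · linarith
          · nlinarith [(hy p).2]
        · rw [h]; simpa using hy p
        · have h3 := hmin p (Finset.mem_filter.2 ⟨Finset.mem_univ _, h.ne'⟩)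
          rw [if_pos h, le_div_iff₀ h] at h3
          constructor
          · nlinarith [(hy p).1]
          · linarith)
      (by
        have h3 : Finset.univ.filter (fun p => y p + τ * x p ≠ 0 ∧ y p + τ * x p ≠ 1) ⊆
            Fr.erase p0 := by
          intro p hp
          obtain ⟨-, h4, h5⟩ := Finset.mem_filter.1 hp
          refine Finset.mem_erase.2 ⟨?_, ?_⟩
          · rintro rfl
            rw [hτ] at h4 h5
            split_ifs at h4 h5 with h
            · exact h5 (by field_simp; ring)
            · exact h4 (by field_simp; ring)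
          · by_cases h6 : x p = 0
            · rw [h6, mul_zero, add_zero] at h4 h5
              exact Finset.mem_filter.2 ⟨Finset.mem_univ _, h4, h5⟩
            · exact hxF p h6
        have h4 := Finset.card_le_card h3
        rw [Finset.card_erase_of_mem (hxF p0 hp0')] at h4
        omega)
      (fun g => by
        rw [Finset.sum_add_distrib, ← Finset.mul_sum, hxg, mul_zero, add_zero]
        exact hg g)
    have hz2' : ∀ p, y p = 0 ∨ y p = 1 → z p = y p := by
      intro p hp
      have h3 : x p = 0 := by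
        by_contra h
        have := (Finset.mem_filter.1 (hxF p h)).2
        tauto
      have := hz2 p (by rw [h3, mul_zero, add_zero]; exact hp)
      rw [this, h3, mul_zero, add_zero]
    refine ⟨z, hz1, hz2', fun g => ?_, fun κ => ?_⟩
    · rw [hz3, Finset.sum_add_distrib, ← Finset.mul_sum, hxg, mul_zero, add_zero]
    · by_cases hκ : κ ∈ K'
      · have h3 := hz4 κ
        have h4 : ∑ p, a κ p * (y p + τ * x p) = ∑ p, a κ p * y p + τ * ∑ p, a κ p * x p := by
          rw [Finset.mul_sum, ← Finset.sum_add_distrib]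
          exact Finset.sum_congr rfl fun p _ => by ring
        rwa [h4, hxk κ hκ, mul_zero, add_zero] at h3
      · have h3 : ∑ p ∈ Fr, |a κ p| ≤ 2 * Δ := by
          by_contra h
          exact hκ (Finset.mem_filter.2 ⟨Finset.mem_univ _, not_le.1 h⟩)
        have h4 : ∑ p, (a κ p * z p - a κ p * y p) ≤ ∑ p ∈ Fr, |a κ p| := by
          rw [← Finset.sum_subset (Finset.subset_univ Fr) (fun p _ hp => by
            rw [hz2' p (hint p hp), sub_self])]
          apply Finset.sum_le_sum
          intro p _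
          rw [← mul_sub]
          refine le_trans (le_abs_self _) ?_
          rw [abs_mul]
          apply mul_le_of_le_one_right (abs_nonneg _)
          rw [abs_le]
          have := hy p
          rcases hz1 p with h | h <;> rw [h] <;> constructor <;> linarith
        rw [Finset.sum_sub_distrib] at h4
        linarith

lemma sum_avg_le {Q K : Type*} [Fintype K] (T : Finset Q) (a : K → Q → ℝ) (Δ : ℝ) (hΔ0 : 0 ≤ Δ)
    (hΔ : ∀ q, ∑ κ, a κ q ≤ Δ) : ∑ κ, (∑ q ∈ T, a κ q) / T.card ≤ Δ := by
  rw [← Finset.sum_div, Finset.sum_comm]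
  apply div_le_of_le_mul₀ (Nat.cast_nonneg _) hΔ0
  calc _ ≤ ∑ _q ∈ T, Δ := Finset.sum_le_sum fun q _ => hΔ q
    _ = _ := by rw [Finset.sum_const, nsmul_eq_mul, mul_comm]

/-- A block-respecting bijection whose sparse statistics stay near their averages. -/
theorem match_round {P Q K : Type} [Fintype P] [DecidableEq P] [DecidableEq Q] [Fintype K]
    (QS : Finset Q) (a : K → P → Q → ℝ) (ha : ∀ κ p q, 0 ≤ a κ p q) (Δ : ℝ) (hΔ0 : 0 ≤ Δ)
    (hΔ : ∀ p q, ∑ κ, a κ p q ≤ Δ) (j : ℕ) :
    ∀ (B : Type) [DecidableEq B] (bp : P → B) (bq : Q → B),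
      (∀ β, (Finset.univ.filter (fun p => bp p = β)).card = (QS.filter (fun q => bq q = β)).card) →
      (∀ β, (QS.filter (fun q => bq q = β)).card ≤ 2 ^ j) →
      ∃ f : P → Q, (∀ p, f p ∈ QS ∧ bq (f p) = bp p) ∧ Function.Injective f ∧
        (∀ q ∈ QS, ∃ p, f p = q) ∧
        ∀ κ, ∑ p, a κ p (f p) ≤ ∑ p, (∑ q ∈ QS.filter (fun q => bq q = bp p), a κ p q) /
          (QS.filter (fun q => bq q = bp p)).card + 4 * Δ * j := by
  induction j with
  | zero =>
    intro B _ bp bq h1 h2
    have h3 : ∀ p, ∃ q, QS.filter (fun q => bq q = bp p) = {q} := by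
      intro p
      apply Finset.card_eq_one.1
      have a1 := h2 (bp p)
      have a2 : 0 < (Finset.univ.filter (fun p' => bp p' = bp p)).card :=
        Finset.card_pos.2 ⟨p, by simp⟩
      rw [h1] at a2
      omega
    choose f hf using h3
    have h4 : ∀ p, f p ∈ QS ∧ bq (f p) = bp p := by
      intro p
      have : f p ∈ QS.filter (fun q => bq q = bp p) := by rw [hf]; simp
      exact Finset.mem_filter.1 this
    refine ⟨f, h4, fun p p' h => ?_, fun q hq => ?_, fun κ => ?_⟩
    · have a1 := h2 (bp p)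
      rw [← h1, pow_zero] at a1
      exact Finset.card_le_one.1 a1 p (by simp) p' (by simp [← (h4 p).2, ← (h4 p').2, h])
    · have a1 : 0 < (QS.filter (fun q' => bq q' = bq q)).card :=
        Finset.card_pos.2 ⟨q, by simp [hq]⟩
      rw [← h1] at a1
      obtain ⟨p, hp⟩ := Finset.card_pos.1 a1
      have : q ∈ QS.filter (fun q => bq q = bp p) :=
        Finset.mem_filter.2 ⟨hq, (Finset.mem_filter.1 hp).2.symm⟩
      rw [hf, Finset.mem_singleton] at this
      exact ⟨p, this.symm⟩
    · simp [hf]
  | succ j ih =>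
    intro B _ bp bq h1 h2
    classical
    set n : B → ℕ := fun β => (QS.filter (fun q => bq q = β)).card with hn
    obtain ⟨h, -, hh⟩ := exists_quota QS bq (Finset.univ : Finset Bool)
      (fun β c => if c then n β / 2 else n β - n β / 2) (fun β => by
        rw [Fintype.sum_bool]
        have := Nat.div_le_self (n β) 2
        simp only [if_true, Bool.false_eq_true, if_false]
        change _ = n β
        omega)
    set T : B → Bool → Finset Q := fun β c => QS.filter (fun q => bq q = β ∧ h q = c) with hT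
    have hT1 : ∀ β, (T β true).card = n β / 2 := fun β => hh β true (Finset.mem_univ _)
    have hT0 : ∀ β, (T β false).card = n β - n β / 2 := fun β => hh β false (Finset.mem_univ _)
    set A : Bool → K → P → ℝ := fun c κ p => (∑ q ∈ T (bp p) c, a κ p q) / (T (bp p) c).card
      with hA
    have hA0 : ∀ c κ p, 0 ≤ A c κ p := fun c κ p =>
      div_nonneg (Finset.sum_nonneg fun q _ => ha κ p q) (Nat.cast_nonneg _)
    have hysum : ∀ β, ∑ p ∈ Finset.univ.filter (fun p => bp p = β),
        ((n (bp p) / 2 : ℕ) : ℝ) / n (bp p) = (n β / 2 : ℕ) := by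
      intro β
      rw [Finset.sum_congr rfl (g := fun _ => ((n β / 2 : ℕ) : ℝ) / n β) (fun p hp => by
        rw [(Finset.mem_filter.1 hp).2]), Finset.sum_const, nsmul_eq_mul, h1]
      change (n β : ℝ) * _ = _
      by_cases h3 : n β = 0
      · simp [h3]
      · field_simp
    obtain ⟨z, hz1, -, hz3, hz4⟩ := round01 bp (fun κ p => A true κ p - A false κ p) (2 * Δ)
      (by linarith) (fun p => by
        have a1 := sum_avg_le (T (bp p) true) (fun κ q => a κ p q) Δ hΔ0 (hΔ p)
        have a2 := sum_avg_le (T (bp p) false) (fun κ q => a κ p q) Δ hΔ0 (hΔ p)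
        calc _ ≤ ∑ κ, (A true κ p + A false κ p) := Finset.sum_le_sum fun κ _ => by
              rw [abs_le]
              constructor <;> linarith [hA0 true κ p, hA0 false κ p]
          _ ≤ 2 * Δ := by rw [Finset.sum_add_distrib]; linarith)
      _ (fun p => ((n (bp p) / 2 : ℕ) : ℝ) / n (bp p)) (fun p => ⟨by positivity,
        div_le_one_of_le₀ (Nat.cast_le.2 (Nat.div_le_self _ _)) (Nat.cast_nonneg _)⟩) le_rfl
      (fun β => ⟨(n β / 2 : ℕ), by rw [hysum, Int.cast_natCast]⟩)
    have hTeq : ∀ β c, QS.filter (fun q => (bq q, h q) = (β, c)) = T β c := by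
      intro β c
      simp only [hT, Prod.mk.injEq]
    have hP1 : ∀ β, (Finset.univ.filter (fun p => bp p = β ∧ z p = 1)).card = n β / 2 := by
      intro β
      have a1 := hz3 β
      rw [hysum, Finset.sum_congr rfl (g := fun p => if z p = 1 then (1 : ℝ) else 0) (fun p _ => by
        rcases hz1 p with h | h <;> simp [h]), Finset.sum_boole, Finset.filter_filter] at a1
      exact_mod_cast a1
    obtain ⟨f, hf1, hf2, hf3, hf4⟩ := ih (B × Bool) (fun p => (bp p, decide (z p = 1)))
      (fun q => (bq q, h q)) (by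
        rintro ⟨β, c⟩
        rw [hTeq]
        cases c
        · rw [hT0, ← hP1]
          have a1 := Finset.card_filter_add_card_filter_not
            (s := Finset.univ.filter (fun p => bp p = β)) (fun p => z p = 1)
          rw [Finset.filter_filter, Finset.filter_filter, h1] at a1
          simp only [Prod.mk.injEq, decide_eq_false_iff_not]
          change _ + _ = n β at a1
          omega
        · rw [hT1, ← hP1]
          simp only [Prod.mk.injEq, decide_eq_true_eq])
      (by
        rintro ⟨β, c⟩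
        rw [hTeq]
        have a1 : n β ≤ 2 ^ (j + 1) := h2 β
        rw [pow_succ] at a1
        cases c
        · rw [hT0]; omega
        · rw [hT1]; omega)
    refine ⟨f, fun p => ⟨(hf1 p).1, congrArg Prod.fst (hf1 p).2⟩, hf2, hf3, fun κ => ?_⟩
    have a1 := hf4 κ
    have a2 := hz4 κ
    simp only [hTeq] at a1
    have a3 : ∑ p, (∑ q ∈ T (bp p) (decide (z p = 1)), a κ p q) /
        (T (bp p) (decide (z p = 1))).card =
        ∑ p, A false κ p + ∑ p, (A true κ p - A false κ p) * z p := by
      rw [← Finset.sum_add_distrib]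
      apply Finset.sum_congr rfl
      intro p _
      rcases hz1 p with h | h <;> simp [h, hA]
    have a4 : ∑ p, (∑ q ∈ QS.filter (fun q => bq q = bp p), a κ p q) /
        (QS.filter (fun q => bq q = bp p)).card = ∑ p, A false κ p +
        ∑ p, (A true κ p - A false κ p) * (((n (bp p) / 2 : ℕ) : ℝ) / n (bp p)) := by
      rw [← Finset.sum_add_distrib]
      apply Finset.sum_congr rfl
      intro p _
      have b1 : 0 < n (bp p) := by
        simp only [hn]
        rw [← h1]
        exact Finset.card_pos.2 ⟨p, by simp⟩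
      have b2 : ∑ q ∈ QS.filter (fun q => bq q = bp p), a κ p q =
          ∑ q ∈ T (bp p) true, a κ p q + ∑ q ∈ T (bp p) false, a κ p q := by
        rw [← Finset.sum_filter_add_sum_filter_not _ (fun q => h q = true), Finset.filter_filter,
          Finset.filter_filter]
        simp only [hT, Bool.not_eq_true]
      rw [b2]
      simp only [hA]
      change _ / (n (bp p) : ℝ) = _
      by_cases b3 : n (bp p) / 2 = 0
      · have b4 : T (bp p) true = ∅ := Finset.card_eq_zero.1 (by rw [hT1, b3])
        rw [hT0, b3, b4]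
        simp
      · rw [hT0, hT1, Nat.cast_sub (Nat.div_le_self _ _)]
        have b4 : ((n (bp p) / 2 : ℕ) : ℝ) ≠ 0 := Nat.cast_ne_zero.2 b3
        have b5 : (n (bp p) : ℝ) ≠ 0 := Nat.cast_ne_zero.2 b1.ne'
        have b6 : (n (bp p) : ℝ) - ((n (bp p) / 2 : ℕ) : ℝ) ≠ 0 := by
          rw [← Nat.cast_sub (Nat.div_le_self _ _)]
          exact Nat.cast_ne_zero.2 (by omega)
        field_simp
        ring
    rw [a4]
    rw [a3] at a1
    push_cast
    linarith

end Pool.Agent.Lib.MP_ae5681_co
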